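import Pool.Agent.P.MP_323ce2_nt.Q1.St

/-! The iteration of the bootstrap step. -/

namespace Pool.Agent.P.MP_323ce2_nt.Q1

open Finset Pool.Agent.P.MP_26a8c3_nt Pool.Agent.P.MP_26a8c3_nt.QO Pool.Agent.P.MP_26a8c3_nt.QA
open Pool.Agent.P.MP_26a8c3_nt.QB (ML ML0 Bd1 ps al cd Base S_PT S_SW)
open scoped Classical ComplexConjugate
open Filter

namespace Boot

lemma le_Nm {κ Z M X P : ℝ} (hM : 0 ≤ M) (hX : 0 < X) (hP : 0 < P) :
    (M + Rt κ X P) * (X * P) ^ (1 + κ) ≤ Nm κ Z M X P := by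
  have := Rt_pos κ hX hP
  exact le_mul_of_one_le_right (by positivity)
    (one_le_pow₀ (le_add_of_nonneg_right (by positivity)))

/-- one step inside the main range -/
lemma step {Q : O} (hQ : 36 ∣ Q) (h1 : S_I) (h2 : S_SB Q) {κ ε : ℝ} (J : ℕ) (hκ : 0 < κ)
    (hκ1 : κ ≤ 1 / 2) (hε : 0 < ε) :
    ∃ C : ℝ, 0 < C ∧ ∀ (ν : O → ℂ) (K : ℝ) (L : List Pi) (Z b E M X t : ℝ), IsNu Q ν →
      Good K J L → Hyp Q κ K J Z b b b → 1 ≤ b → Real.exp 6 ≤ E → E ^ 59 ≤ K →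
      E ^ 53 * K ^ (-κ) ≤ E ^ (-(κ / 2)) → 1 ≤ X → X * PL L ≤ Z → Rt κ X (PL L) ≤ M →
      M ≤ Z ^ 5 → ML (fun m => V (uA ν 1 m) L X t) M
        (C * (Z ^ ε * Z ^ ε * (K ^ 22 + E ^ (-(κ / 2)) * b)) * (1 + |t|) ^ 16 *
          Nm κ Z M X (PL L)) := by
  obtain ⟨C₁, hC₁, h1⟩ := h1 κ J ε hκ (by linarith) hε
  obtain ⟨C₂, hC₂, h2⟩ := h2 κ J ε hκ hκ1 hε
  refine ⟨C₁ * (1 + 729 * C₂), by positivity,
    fun ν K L Z b E M X t hν hL hH hb hE hK hK' hX hXZ hM hMZ => ?_⟩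
  have hE1 : 1 ≤ E := (Real.one_le_exp (by norm_num)).trans hE
  have hE0 : 0 < E := by linarith
  have hX0 : 0 < X := by linarith
  have hP := hL.one_le_PL
  have hP0 := hL.PL_pos
  have hn : 1 ≤ X * PL L := one_le_mul_of_one_le_of_one_le hX hP
  have hZ1 : 1 ≤ Z := hn.trans hXZ
  have hM0 : 0 < M := (Rt_pos κ hX0 hP0).trans_le hM
  have hK1 := hL.one
  have hEK : E ≤ K := (le_self_pow₀ hE1 (by norm_num)).trans hK
  have hs := h2 K Z b X (PL L) (3 * E) hH hb hX hXZ (by linarith) (hE.trans hEK)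
  have hE2 : Real.exp 2 ≤ E := (Real.exp_le_exp.2 (by norm_num)).trans hE
  refine (h1 Q ν K L Z b E M X t _ hQ hν hL hH hb hE2 hEK hX hXZ hM hMZ (by positivity) hs).mono
    hM0 le_rfl ?_
  have hu : 1 ≤ Z ^ ε := Real.one_le_rpow hZ1 hε.le
  have hR := (Rt_pos κ hX0 hP0).le
  have hN := (Nm_pos κ Z hM0 hX0 hP0).le
  have n0 := le_Nm (κ := κ) (Z := Z) hM0.le hX0 hP0
  generalize X * PL L = n at *
  have hn0 : 0 < n := by linarith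
  have n1 : M * n ^ (1 + κ) ≤ Nm κ Z M X (PL L) :=
    le_trans (mul_le_mul_of_nonneg_right (le_add_of_nonneg_right hR) (by positivity)) n0
  have n2 : M * n ≤ Nm κ Z M X (PL L) := le_trans (mul_le_mul_of_nonneg_left
    (Real.self_le_rpow_of_one_le hn (by linarith)) hM0.le) n1
  have e2 : n ^ (2 + κ) = n * n ^ (1 + κ) := by
    rw [show 2 + κ = 1 + (1 + κ) by ring, Real.rpow_add hn0 1, Real.rpow_one]
  have e4 : E ^ 2 ≤ K ^ 22 :=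
    ((pow_le_pow_right₀ hE1 (by norm_num)).trans hK).trans (le_self_pow₀ hK1 (by norm_num))
  have e6 : E ^ 59 * K ^ 21 ≤ K ^ 22 := by
    rw [pow_succ' K 21]
    gcongr
  have e5 : E ^ 53 * (M / n) * (C₂ * Z ^ ε * ((3 * E) ^ 6 * K ^ 21 * n ^ 2 +
      K ^ (-κ) * b * n ^ (2 + κ))) = C₂ * Z ^ ε * (729 * (E ^ 59 * K ^ 21) * (M * n) +
        E ^ 53 * K ^ (-κ) * b * (M * n ^ (1 + κ))) := by
    rw [e2]; field_simp; ring
  rw [e5]
  have hη : 0 ≤ E ^ (-(κ / 2)) := by positivity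
  have hB0 : 0 ≤ b := by linarith
  have hF : 0 ≤ K ^ 22 := by positivity
  generalize E ^ (-(κ / 2)) = η at *
  generalize Z ^ ε = u at *
  generalize Nm κ Z M X (PL L) = N₀ at *
  have k1 : (E ^ 2 + η * b) * N₀ ≤ u * ((K ^ 22 + η * b) * N₀) :=
    le_trans (by gcongr) (le_mul_of_one_le_left (by positivity) hu)
  have k2 : 729 * (E ^ 59 * K ^ 21) * (M * n) + E ^ 53 * K ^ (-κ) * b * (M * n ^ (1 + κ)) ≤
      729 * ((K ^ 22 + η * b) * N₀) := by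
    have : E ^ 53 * K ^ (-κ) * b * (M * n ^ (1 + κ)) ≤ η * b * N₀ := by gcongr
    have h3 : E ^ 59 * K ^ 21 * (M * n) ≤ K ^ 22 * N₀ := by gcongr
    have h4 : 0 ≤ η * b * N₀ := by positivity
    linarith
  generalize K ^ 22 = F at *
  calc _ ≤ C₁ * u * (1 + |t|) ^ 16 *
        (u * ((F + η * b) * N₀) + C₂ * u * (729 * ((F + η * b) * N₀))) := by gcongr
    _ = _ := by ring

lemma Rt_le {κ Z X P : ℝ} (hκ : κ ≤ 1) (hX : 1 ≤ X) (hP : 1 ≤ P) (hZ : X * P ≤ Z) :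
    Rt κ X P ≤ 2 * Z ^ 4 := by
  have hn : 1 ≤ X * P := one_le_mul_of_one_le_of_one_le hX hP
  have h1 : X ^ (1 + κ) ≤ X ^ 2 := by
    rw [← Real.rpow_two]
    exact Real.rpow_le_rpow_of_exponent_le hX (by linarith)
  have h2 : X ^ (1 + κ) * P ^ 2 ≤ Z ^ 4 :=
    calc X ^ (1 + κ) * P ^ 2 ≤ X ^ 2 * P ^ 2 := by gcongr
      _ = (X * P) ^ 2 := by ring
      _ ≤ Z ^ 2 := by gcongr
      _ ≤ Z ^ 4 := pow_le_pow_right₀ (hn.trans hZ) (by norm_num)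
  have h3 : P ≤ Z := (le_mul_of_one_le_left (by linarith) hX).trans hZ
  have h4 : P ^ 4 ≤ Z ^ 4 := by gcongr
  rw [Rt, min_eq_right hX]
  linarith

lemma Nm_crit {κ Z M X P : ℝ} (hκ : κ ≤ 1) (hM : 0 < M) (hX : 1 ≤ X) (hP : 1 ≤ P)
    (hZ : X * P ≤ Z) : Nm κ Z (Rt κ X P) X P ≤ 2 * 3 ^ 10 * Nm κ Z M X P := by
  have hX0 : 0 < X := by linarith
  have hP0 : 0 < P := by linarith
  have hZ0 : 0 < Z := lt_of_lt_of_le (by positivity) hZ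
  have hR := (Rt_pos κ hX0 hP0).le
  have h2 : Rt κ X P / Z ^ 4 ≤ 2 := by
    rw [div_le_iff₀ (by positivity)]
    exact Rt_le hκ hX hP hZ
  have h3 := le_Nm (κ := κ) (Z := Z) hM.le hX0 hP0
  calc Nm κ Z (Rt κ X P) X P ≤ (Rt κ X P + Rt κ X P) * (X * P) ^ (1 + κ) * (1 + 2) ^ 10 := by
        unfold Nm; gcongr
    _ = 2 * 3 ^ 10 * ((0 + Rt κ X P) * (X * P) ^ (1 + κ)) := by ring
    _ ≤ 2 * 3 ^ 10 * Nm κ Z M X P := by
        refine mul_le_mul_of_nonneg_left (le_trans ?_ h3) (by norm_num)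
        gcongr

lemma hyp_mono {Q : O} {κ K Z b b' : ℝ} {J : ℕ} (h : Hyp Q κ K J Z b b b) (hb : b ≤ b') :
    Hyp Q κ K J Z b' b' b' := fun ν hν L hL M X t hM hX hZ =>
  (h ν hν L hL M X t hM hX hZ).mono hM le_rfl (by
    have := Nm_pos κ Z hM hX hL.PL_pos
    rw [Nq_eq, Nq_eq]
    gcongr)

/-- the choice of the parameters -/
lemma par {κ η c : ℝ} (hκ : 0 < κ) (hκ1 : κ ≤ 1 / 2) (hη : 0 < η) (hc : 0 < c) :
    ∃ Z₀ : ℝ, ∀ Z K : ℝ, Z₀ ≤ Z → Z ^ η ≤ K → 2 ≤ Z ∧ 1 ≤ K ∧ ∃ E : ℝ, Real.exp 6 ≤ E ∧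
      E ^ 59 ≤ K ∧ E ^ 53 * K ^ (-κ) ≤ E ^ (-(κ / 2)) ∧
      Z ^ (η * κ ^ 2 / 432) * Z ^ (η * κ ^ 2 / 432) ≤ K ∧
      c * (Z ^ (η * κ ^ 2 / 432) * Z ^ (η * κ ^ 2 / 432) * E ^ (-(κ / 2))) ≤ 1 / 2 := by
  have t1 : ∀ᶠ Z : ℝ in atTop, Real.exp 6 ≤ Z ^ (η * (κ / 54)) :=
    (tendsto_rpow_atTop (by positivity)).eventually_ge_atTop _
  have t2 : ∀ᶠ Z : ℝ in atTop, 2 * c ≤ Z ^ (η * κ ^ 2 / 216) :=
    (tendsto_rpow_atTop (by positivity)).eventually_ge_atTop _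
  obtain ⟨Z₀, hZ₀⟩ := eventually_atTop.1 ((t1.and t2).and (eventually_ge_atTop 2))
  refine ⟨Z₀, fun Z K hZ hK => ?_⟩
  obtain ⟨⟨z1, z2⟩, z3⟩ := hZ₀ Z hZ
  have z0 : 0 < Z := by linarith
  have z4 : 1 ≤ Z := by linarith
  have k1 : 1 ≤ K := (Real.one_le_rpow z4 hη.le).trans hK
  have k0 : 0 < K := by linarith
  have e1 : Z ^ (η * (κ / 54)) ≤ K ^ (κ / 54) := by
    rw [Real.rpow_mul z0.le]
    gcongr
  refine ⟨z3, k1, K ^ (κ / 54), z1.trans e1, ?_, ?_, ?_, ?_⟩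
  · rw [← Real.rpow_natCast, ← Real.rpow_mul k0.le]
    exact Real.rpow_le_self_of_one_le k1 (by push_cast; linarith)
  · rw [← Real.rpow_natCast, ← Real.rpow_mul k0.le, ← Real.rpow_mul k0.le, ← Real.rpow_add k0]
    refine Real.rpow_le_rpow_of_exponent_le k1 ?_
    push_cast
    nlinarith
  · rw [← Real.rpow_add z0]
    refine le_trans (Real.rpow_le_rpow_of_exponent_le z4 ?_) hK
    have : κ ^ 2 ≤ 1 := pow_le_one₀ hκ.le (by linarith)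
    nlinarith
  · have e2 : (K ^ (κ / 54)) ^ (-(κ / 2)) ≤ (Z ^ (η * (κ / 54))) ^ (-(κ / 2)) :=
      Real.rpow_le_rpow_of_nonpos (by positivity) e1 (by linarith)
    refine le_trans (b := c * (Z ^ (η * κ ^ 2 / 432) * Z ^ (η * κ ^ 2 / 432) *
      (Z ^ (η * (κ / 54))) ^ (-(κ / 2)))) (by gcongr) ?_
    rw [← Real.rpow_mul z0.le, ← Real.rpow_add z0, ← Real.rpow_add z0,
      show η * κ ^ 2 / 432 + η * κ ^ 2 / 432 + η * (κ / 54) * -(κ / 2) = -(η * κ ^ 2 / 216) by ring,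
      Real.rpow_neg z0.le, ← div_eq_mul_inv, div_le_iff₀ (by positivity)]
    linarith

end Boot

open Boot

theorem pBoot {Q : O} (hQ : 36 ∣ Q) (h1 : S_I) (h2 : S_SB Q) (h3 : S_Triv) : S_Boot Q := by
  intro κ J η hκ hκ1 hη
  have hκ2 : κ ≤ 1 := by linarith
  obtain ⟨C, hC, hs⟩ := step hQ h1 h2 J hκ hκ1 (ε := η * κ ^ 2 / 432) (by positivity)
  obtain ⟨C₃, hC₃, h3⟩ := h3
  obtain ⟨Z₀, hZ₀⟩ := par hκ hκ1 hη (c := 2 * 3 ^ 10 * C) (by positivity)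
  refine ⟨3 * (2 * 3 ^ 10 * C + C₃), Z₀, by positivity, fun Z K hZ hZK => ?_⟩
  obtain ⟨z2, k1, E, hE, hK, hK', e1, e2⟩ := hZ₀ Z K hZ hZK
  have z0 : 0 < Z := by linarith
  have z3 : 1 ≤ Z := by linarith
  have hE0 : 0 < E := (Real.exp_pos 6).trans_le hE
  have hu : 1 ≤ K ^ 23 := one_le_pow₀ k1
  set K₀ : ℝ := (2 * 3 ^ 10 * C + C₃) * K ^ 23 with hK₀
  have hK1 : C₃ ≤ K₀ := by rw [hK₀]; nlinarith [mul_nonneg hC.le (zero_le_one.trans hu)]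
  have hK0 : 0 < K₀ := by linarith
  have hw : 0 ≤ Z ^ (η * κ ^ 2 / 432) := by positivity
  have hη' : 0 ≤ E ^ (-(κ / 2)) := by positivity
  have hstep : ∀ b, 2 * K₀ ≤ b → Hyp Q κ K J Z b b b →
      Hyp Q κ K J Z (K₀ + b / 2) (K₀ + b / 2) (K₀ + b / 2) := by
    intro b hb hH ν hν L hL M X t hM hX hXZ
    have hb1 : 1 ≤ b := by linarith
    have hN := (Nm_pos κ Z hM hX hL.PL_pos).le
    have ht : 1 ≤ (1 + |t|) ^ 16 := one_le_pow₀ (le_add_of_nonneg_right (abs_nonneg t))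
    rw [Nq_eq, mul_left_comm, ← mul_assoc]
    by_cases hc : X ≤ 1 ∨ Z ^ 5 ≤ M
    · refine ((h3 κ Q ν K J L Z M X t hκ hκ2 hQ hν hL z3 hM hX hXZ).2 hc).mono hM le_rfl ?_
      refine mul_le_mul_of_nonneg_right ?_ hN
      exact le_trans (by linarith) (le_mul_of_one_le_right (by linarith) ht)
    rw [not_or, not_le, not_le] at hc
    have hs' := fun M => hs ν K L Z b E M X t hν hL hH hb1 hE hK hK' hc.1.le hXZ
    generalize Z ^ (η * κ ^ 2 / 432) = w at e1 e2 hw hs'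
    have c1 : 2 * 3 ^ 10 * (C * (w * w * (K ^ 22 + E ^ (-(κ / 2)) * b))) ≤ K₀ + b / 2 := by
      have a0 : w * w * K ^ 22 ≤ K ^ 23 := by
        rw [pow_succ' K 22]
        gcongr
      have a1 := mul_le_mul_of_nonneg_left a0 (show 0 ≤ 2 * 3 ^ 10 * C by positivity)
      have a2 := mul_le_mul_of_nonneg_right e2 (show 0 ≤ b by linarith)
      have a3 : 0 ≤ C₃ * K ^ 23 := by positivity
      rw [hK₀]
      generalize K ^ 22 = F at *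
      generalize K ^ 23 = F' at *
      linarith
    have c0 : 0 ≤ C * (w * w * (K ^ 22 + E ^ (-(κ / 2)) * b)) := by positivity
    generalize C * (w * w * (K ^ 22 + E ^ (-(κ / 2)) * b)) = y at c0 c1 hs'
    rcases le_total (Rt κ X (PL L)) M with hM1 | hM1
    · refine (hs' M hM1 hc.2.le).mono hM le_rfl ?_
      gcongr
      linarith
    · have hM2 : Rt κ X (PL L) ≤ Z ^ 5 := by
        refine (Rt_le hκ2 hc.1.le hL.one_le_PL hXZ).trans ?_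
        rw [pow_succ' Z 4]
        gcongr
      refine (hs' _ le_rfl hM2).mono hM hM1 ?_
      have := Nm_crit hκ2 hM hc.1.le hL.one_le_PL hXZ
      calc y * (1 + |t|) ^ 16 * Nm κ Z (Rt κ X (PL L)) X (PL L)
          ≤ y * (1 + |t|) ^ 16 * (2 * 3 ^ 10 * Nm κ Z M X (PL L)) := by gcongr
        _ = 2 * 3 ^ 10 * y * (1 + |t|) ^ 16 * Nm κ Z M X (PL L) := by ring
        _ ≤ _ := by gcongr
  have h0 : Hyp Q κ K J Z (2 * K₀ + C₃ * Z ^ 3) (2 * K₀ + C₃ * Z ^ 3) (2 * K₀ + C₃ * Z ^ 3) :=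
    fun ν hν L hL M X t hM hX hXZ => by
      have hN := (Nm_pos κ Z hM hX hL.PL_pos).le
      have ht : 1 ≤ (1 + |t|) ^ 16 := one_le_pow₀ (le_add_of_nonneg_right (abs_nonneg t))
      rw [Nq_eq, mul_left_comm, ← mul_assoc]
      refine (h3 κ Q ν K J L Z M X t hκ hκ2 hQ hν hL z3 hM hX hXZ).1.mono hM le_rfl
        (mul_le_mul_of_nonneg_right ?_ hN)
      exact le_trans (by linarith) (le_mul_of_one_le_right (by positivity) ht)
  obtain ⟨n, hn⟩ := pow_unbounded_of_one_lt (C₃ * Z ^ 3 / K₀) (one_lt_two : (1 : ℝ) < 2)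
  refine hyp_mono (QB.contract (P := fun b => Hyp Q κ K J Z b b b) (by positivity) h0 hstep n) ?_
  have : C₃ * Z ^ 3 / 2 ^ n ≤ K₀ := by
    rw [div_le_iff₀ (by positivity)]
    rw [div_lt_iff₀ hK0] at hn
    linarith
  rw [mul_assoc, ← hK₀]
  linarith

end Pool.Agent.P.MP_323ce2_nt.Q1
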