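import Pool.Agent.P.MP_323ce2_nt.Q1.St

/-! The moment of one term of the tail of the cubes. -/

namespace Pool.Agent.P.MP_323ce2_nt.Q1

open Finset Pool.Agent.P.MP_26a8c3_nt Pool.Agent.P.MP_26a8c3_nt.QO Pool.Agent.P.MP_26a8c3_nt.QA
open Pool.Agent.P.MP_26a8c3_nt.QB (ML ML0 Bd1 ps al cd Base S_PT S_SW)
open scoped Classical ComplexConjugate

namespace CT

lemma num {κ X P X₂ P₁ ρ m e z H : ℝ} (hκ : 0 < κ) (hκ1 : κ ≤ 1) (hX : 1 ≤ X) (h1 : 1 ≤ P₁)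
    (hP : P₁ ≤ P) (hX2 : 0 < X₂) (hρ : 0 < ρ) (hρ1 : ρ ≤ 1) (hn : X₂ * P₁ ≤ ρ * (X * P))
    (hz : 1 ≤ z) (hH : 0 < H) (hR : H * Rt κ X P = z * (X * P) ^ 2) (hm : 0 < m)
    (he : m * ρ = e) (he1 : 1 ≤ e) :
    H * (X₂ ^ (1 + 2 * κ) * P₁ ^ (1 + κ)) ≤ ρ ^ (1 + κ) * z * (X * P) ^ (2 + κ) ∧
    H * ((m * ((X₂ * P₁) ^ 2 / H) + X₂ ^ (1 + κ) * P₁ ^ 2 + m⁻¹ * (min X₂ 1 ^ 2 * P₁ ^ 4)) *
      (X₂ * P₁) ^ κ) ≤ (e + 2) * (ρ ^ (1 + κ) * z * (X * P) ^ (2 + κ)) := by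
  have X0 : 0 < X := by linarith
  have P10 : 0 < P₁ := by linarith
  have P1 : 1 ≤ P := h1.trans hP
  have P0 : 0 < P := by linarith
  have n0 : 0 < X * P := by positivity
  have z0 : 0 < z := by linarith
  rw [Rt, min_eq_right hX, one_pow, one_mul, mul_add] at hR
  have a1 : H * (X ^ (1 + κ) * P ^ 2) ≤ z * (X * P) ^ 2 := by
    have : 0 ≤ H * P ^ 4 := by positivity
    linarith
  have a2 : H * P ^ 4 ≤ z * (X * P) ^ 2 := by
    have : 0 ≤ H * (X ^ (1 + κ) * P ^ 2) := by positivity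
    linarith
  have a3 : H * (X * P) ^ (1 + κ) ≤ z * (X * P) ^ 2 := by
    refine le_trans (mul_le_mul_of_nonneg_left ?_ hH.le) a1
    rw [Real.mul_rpow X0.le P0.le, ← Real.rpow_two]
    exact mul_le_mul_of_nonneg_left (Real.rpow_le_rpow_of_exponent_le P1 (by linarith))
      (by positivity)
  have e1 : (X * P) ^ (2 + κ) = (X * P) ^ 2 * (X * P) ^ κ := by
    rw [Real.rpow_add n0, Real.rpow_two]
  have e2 : ρ ^ (1 + κ) = ρ * ρ ^ κ := by rw [Real.rpow_add hρ, Real.rpow_one]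
  have b1 : (X₂ * P₁) ^ κ ≤ ρ ^ κ * (X * P) ^ κ := by
    rw [← Real.mul_rpow hρ.le n0.le]
    exact Real.rpow_le_rpow (by positivity) hn hκ.le
  have b2 : ρ ^ κ ≤ 1 := Real.rpow_le_one hρ.le hρ1 hκ.le
  have b3 : (X₂ * P₁) ^ κ ≤ (X * P) ^ κ := b1.trans (mul_le_of_le_one_left (by positivity) b2)
  constructor
  · have c1 : X₂ ^ (1 + 2 * κ) * P₁ ^ (1 + κ) ≤ (X₂ * P₁) ^ (1 + κ) * (X₂ * P₁) ^ κ := by
      rw [← Real.rpow_add (by positivity), Real.mul_rpow hX2.le P10.le,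
        show 1 + κ + κ = 1 + 2 * κ by ring]
      exact mul_le_mul_of_nonneg_left (Real.rpow_le_rpow_of_exponent_le h1 (by linarith))
        (by positivity)
    have c2 : (X₂ * P₁) ^ (1 + κ) ≤ ρ ^ (1 + κ) * (X * P) ^ (1 + κ) := by
      rw [← Real.mul_rpow hρ.le n0.le]
      exact Real.rpow_le_rpow (by positivity) hn (by linarith)
    calc _ ≤ H * (ρ ^ (1 + κ) * (X * P) ^ (1 + κ) * (X * P) ^ κ) :=
          mul_le_mul_of_nonneg_left (c1.trans (by gcongr)) hH.le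
      _ = ρ ^ (1 + κ) * (H * (X * P) ^ (1 + κ)) * (X * P) ^ κ := by ring
      _ ≤ ρ ^ (1 + κ) * (z * (X * P) ^ 2) * (X * P) ^ κ := by gcongr
      _ = _ := by rw [e1]; ring
  · have c1 : m * (X₂ * P₁) ^ 2 * (X₂ * P₁) ^ κ ≤ e * (ρ ^ (1 + κ) * z * (X * P) ^ (2 + κ)) := by
      calc _ ≤ m * (ρ * (X * P)) ^ 2 * (ρ ^ κ * (X * P) ^ κ) := by gcongr
        _ = e * (ρ ^ (1 + κ) * 1 * (X * P) ^ (2 + κ)) := by rw [e1, e2, ← he]; ring
        _ ≤ _ := by gcongr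
    have c2 : H * (X₂ ^ (1 + κ) * P₁ ^ 2) * (X₂ * P₁) ^ κ ≤
        ρ ^ (1 + κ) * z * (X * P) ^ (2 + κ) := by
      have := crit_le hκ.le hκ1 X0 hX2 P10 hP hρ hn
      calc _ ≤ H * (ρ ^ (1 + κ) * (X ^ (1 + κ) * P ^ 2)) * (X * P) ^ κ := by gcongr
        _ = ρ ^ (1 + κ) * (H * (X ^ (1 + κ) * P ^ 2)) * (X * P) ^ κ := by ring
        _ ≤ ρ ^ (1 + κ) * (z * (X * P) ^ 2) * (X * P) ^ κ := by gcongr
        _ = _ := by rw [e1]; ring
    have c3 : H * (m⁻¹ * (min X₂ 1 ^ 2 * P₁ ^ 4)) * (X₂ * P₁) ^ κ ≤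
        ρ ^ (1 + κ) * z * (X * P) ^ (2 + κ) := by
      have d1 : m⁻¹ ≤ ρ := by
        rw [inv_le_iff_one_le_mul₀' hm, he]
        exact he1
      have d2 : min X₂ 1 ^ 2 ≤ 1 := pow_le_one₀ (le_min hX2.le zero_le_one) (min_le_right _ _)
      calc _ ≤ H * (ρ * (1 * P ^ 4)) * (ρ ^ κ * (X * P) ^ κ) := by gcongr
        _ = ρ * ρ ^ κ * (H * P ^ 4) * (X * P) ^ κ := by ring
        _ ≤ ρ * ρ ^ κ * (z * (X * P) ^ 2) * (X * P) ^ κ := by gcongr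
        _ = _ := by rw [e1, e2]; ring
    calc _ = m * (X₂ * P₁) ^ 2 * (X₂ * P₁) ^ κ + H * (X₂ ^ (1 + κ) * P₁ ^ 2) * (X₂ * P₁) ^ κ +
          H * (m⁻¹ * (min X₂ 1 ^ 2 * P₁ ^ 4)) * (X₂ * P₁) ^ κ := by field_simp
      _ ≤ _ := by linarith

end CT

theorem pCT (hA : Alg) (hb : Base) (hs : S_Sh) (hd : S_Drop) (ha : S_IIIa) (h3 : S_IIIb) :
    S_CT := by
  intro κ J ε hκ hκ2 hε
  have hκ1 : κ ≤ 1 := by linarith
  obtain ⟨Cd, cd0, hd⟩ := hd κ J hκ hκ1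
  obtain ⟨Ca, ca0, ha⟩ := ha κ hκ
  obtain ⟨Cb, cb0, h3⟩ := h3 κ J ε hκ hκ1 hε
  refine ⟨2 ^ (2 * J) * 2 ^ J * (Ca * (1 + Cb * Cd * (Real.exp 7 + 2))) * Real.exp 14,
    by positivity, fun Q ν K L Z b X X₁ z t d hQ hν hL hH hb1 hX hZ hK hX1 hX7 hz hV hp hKd => ?_⟩
  have d0 := hp.ne_zero
  have a0 : d ^ 3 ≠ 0 := pow_ne_zero 3 d0
  have b0 : 0 ≤ b := by linarith
  have P1 := hL.one_le_PL
  have P0 := hL.PL_pos
  have n1 : 1 ≤ X * PL L := one_le_mul_of_one_le_of_one_le hX P1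
  have Z1 : 1 ≤ Z := n1.trans hZ
  have μ0 : (0 : ℝ) < N d := N_pos_real d0
  have eN : (N (d ^ 3) : ℝ) = (N d : ℝ) ^ 3 := by rw [map_pow, Nat.cast_pow]
  have μ3 : Real.exp 18 ≤ (N d : ℝ) ^ 3 := by
    rw [show (18 : ℝ) = (3 : ℕ) * 6 by norm_num, Real.exp_nat_mul]
    exact pow_le_pow_left₀ (Real.exp_pos _).le (hK.trans hKd.le) 3
  set μ : ℝ := (N d : ℝ) with hμ
  set ρ : ℝ := Real.exp 7 / μ ^ 3 with hρ
  have ρ0 : 0 < ρ := by positivity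
  have ρ9 : Real.exp 9 * ρ ≤ 1 := by
    rw [hρ, ← mul_div_assoc, ← Real.exp_add, div_le_one (by positivity)]
    exact (Real.exp_le_exp.2 (by norm_num)).trans μ3
  have ρ1 : ρ ≤ 1 :=
    (le_mul_of_one_le_left ρ0.le (Real.one_le_exp (by norm_num))).trans ρ9
  have ρw : ρ ^ (1 + κ) ≤ Real.exp 14 * μ ^ (-(3 * (1 + κ))) := by
    rw [hρ, Real.div_rpow (Real.exp_pos _).le (by positivity), ← Real.exp_mul, Real.rpow_neg μ0.le,
      ← Real.rpow_natCast, ← Real.rpow_mul μ0.le, div_eq_mul_inv]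
    exact mul_le_mul_of_nonneg_right (Real.exp_le_exp.2 (by linarith)) (by positivity)
  set H : ℝ := z * Vv κ X (PL L) with hHd
  have H0 : 0 < H := by linarith
  have hR : H * Rt κ X (PL L) = z * (X * PL L) ^ 2 := by
    have := Rt_pos κ (X := X) (by linarith) P0
    rw [hHd, Vv]
    field_simp
  set R : ℝ := ρ ^ (1 + κ) * z * (X * PL L) ^ (2 + κ) with hRd
  have R0 : 0 ≤ R := by positivity
  set E : ℝ := Z ^ ε * (1 + |t|) ^ 16 * b with hE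
  have E1 : 1 ≤ E := one_le_mul_of_one_le_of_one_le (one_le_mul_of_one_le_of_one_le
    (Real.one_le_rpow Z1 hε.le) (one_le_pow₀ (le_add_of_nonneg_right (abs_nonneg t)))) hb1
  have E0 : 0 ≤ E := zero_le_one.trans E1
  have hD := hd Q K Z b μ b0 hKd.le hH
  have key : ∀ g ∈ pdiv (d ^ 3), ∀ L' : List Pi, L'.Sublist L → PL L' * N g ≤ PL L →
      ML (fun h => V (uB ν h) (cut (d ^ 3) L') (X₁ * N g / N (d ^ 3)) t) H
        (Ca * (1 + Cb * Cd * (Real.exp 7 + 2)) * (E * R)) := by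
    intro g hg L' hL' hle
    have g1 : (1 : ℝ) ≤ N g := one_le_N ((mem_pdiv a0).1 hg).1.ne_zero
    have G' := (hL.sub hL').cut (d ^ 3)
    have Q1 := (hL.sub hL').one_le_PL
    have X2 : 0 < X₁ * N g / N (d ^ 3) := by rw [eN]; positivity
    have hn : X₁ * N g / N (d ^ 3) * PL L' ≤ ρ * (X * PL L) := by
      rw [eN, hρ]
      calc _ = X₁ * (PL L' * N g) / μ ^ 3 := by ring
        _ ≤ Real.exp 7 * X * PL L / μ ^ 3 := by gcongr
        _ = _ := by ring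
    have h9 : Real.exp 9 * (X₁ * N g / N (d ^ 3) * PL (cut (d ^ 3) L')) ≤ Z := by
      rw [PL_cut]
      refine (mul_le_mul_of_nonneg_left hn (Real.exp_pos _).le).trans ?_
      rw [← mul_assoc]
      exact (mul_le_of_le_one_left (by positivity) ρ9).trans hZ
    have m := ha Q ν K J _ H _ t _ hQ hν G' H0 X2 fun ν' hν' s T hs hT =>
      h3 Q ν' K _ Z _ _ _ H _ t s T hν' G' hD (by positivity) (by positivity) (by positivity) Z1
        hV X2 h9 hs hT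
    rw [PL_cut] at m
    obtain ⟨u1, u2⟩ := CT.num (m := μ ^ 3) (e := Real.exp 7) hκ hκ1 hX Q1 (hL.PL_le hL') X2 ρ0 ρ1
      hn hz H0 hR (by positivity) (by rw [hρ]; field_simp) (Real.one_le_exp (by norm_num))
    refine m.mono H0 le_rfl ?_
    generalize X₁ * N g / N (d ^ 3) = X₂ at *
    calc _ = Ca * (H * (X₂ ^ (1 + 2 * κ) * PL L' ^ (1 + κ)) + Cb * Cd * E *
          (H * ((μ ^ 3 * ((X₂ * PL L') ^ 2 / H) + X₂ ^ (1 + κ) * PL L' ^ 2 +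
            (μ ^ 3)⁻¹ * (min X₂ 1 ^ 2 * PL L' ^ 4)) * (X₂ * PL L') ^ κ))) := by
          rw [hE]; ring
      _ ≤ Ca * (E * R + Cb * Cd * E * ((Real.exp 7 + 2) * R)) := by
          exact mul_le_mul_of_nonneg_left (add_le_add (u1.trans (le_mul_of_one_le_left R0 E1))
            (mul_le_mul_of_nonneg_left u2 (by positivity))) ca0.le
      _ = _ := by ring
  set I := (pdiv (d ^ 3) ×ˢ L.sublists.toFinset).filter fun j => PL j.2 * N j.1 ≤ PL L with hI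
  have hc : (I.card : ℝ) ≤ dv (d ^ 3) * 2 ^ J := by
    have h1 : I.card ≤ (pdiv (d ^ 3)).card * 2 ^ J := by
      refine (card_filter_le _ _).trans ?_
      rw [card_product]
      refine Nat.mul_le_mul_left _ ((List.toFinset_card_le _).trans ?_)
      rw [List.length_sublists]
      exact Nat.pow_le_pow_right two_pos hL.len
    rw [dv]
    exact_mod_cast h1
  have v0 := QB.dv_nonneg d
  have v3 : dv (d ^ 3) ≤ dv d ^ 3 := by
    rw [pow_succ d 2, sq d, pow_succ (dv d) 2, sq (dv d)]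
    exact (hb.dv_mul _ _ (hp.mul hp) hp).trans
      (mul_le_mul_of_nonneg_right (hb.dv_mul _ _ hp hp) v0)
  have w0 := QB.dv_nonneg (d ^ 3)
  intro s _
  have pt : ∀ h, ‖Bw ν h fun c => om L X₁ t (d ^ 3 * c)‖ ^ 2 ≤ (2 * dv (d ^ 3)) ^ (2 * J) *
      ∑ j ∈ I, ‖V (uB ν h) (cut (d ^ 3) j.2) (X₁ * N j.1 / N (d ^ 3)) t‖ ^ 2 := fun h => by
    have hu := QB.bd1_uB hA hν h
    have h1 := hs K J L (uB ν h) (d ^ 3) X₁ t
      (√(∑ j ∈ I, ‖V (uB ν h) (cut (d ^ 3) j.2) (X₁ * N j.1 / N (d ^ 3)) t‖ ^ 2)) hL (Bd1.bn hu)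
      hu.1 (hp.pow 3) hX1 (Real.sqrt_nonneg _) fun g hg L' hL' hle => Real.le_sqrt_of_sq_le
        (single_le_sum (f := fun j : O × List Pi =>
          ‖V (uB ν h) (cut (d ^ 3) j.2) (X₁ * N j.1 / N (d ^ 3)) t‖ ^ 2)
          (fun _ _ => sq_nonneg _) (a := (g, L')) (mem_filter.2 ⟨mem_product.2
            ⟨hg, List.mem_toFinset.2 (List.mem_sublists.2 hL')⟩, hle⟩))
    refine (pow_le_pow_left₀ (norm_nonneg _) h1 2).trans_eq ?_
    rw [mul_pow, Real.sq_sqrt (sum_nonneg fun _ _ => sq_nonneg _), ← pow_mul, mul_comm J]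
  calc _ ≤ ∑ h ∈ s, (2 * dv (d ^ 3)) ^ (2 * J) * ∑ j ∈ I, G (N h / H) *
        ‖V (uB ν h) (cut (d ^ 3) j.2) (X₁ * N j.1 / N (d ^ 3)) t‖ ^ 2 := by
        refine sum_le_sum fun h _ => ?_
        rw [← mul_sum, mul_left_comm]
        exact mul_le_mul_of_nonneg_left (pt h) (QB.G_pos _).le
    _ ≤ (2 * dv (d ^ 3)) ^ (2 * J) * (dv (d ^ 3) * 2 ^ J *
        (Ca * (1 + Cb * Cd * (Real.exp 7 + 2)) * (E * R))) := by
        rw [← mul_sum, sum_comm]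
        refine mul_le_mul_of_nonneg_left ((sum_le_card_nsmul _ _
          (Ca * (1 + Cb * Cd * (Real.exp 7 + 2)) * (E * R)) fun j hj => ?_).trans ?_)
          (by positivity)
        · obtain ⟨j1, j2⟩ := mem_filter.1 hj
          obtain ⟨j3, j4⟩ := mem_product.1 j1
          exact key j.1 j3 j.2 (List.mem_sublists.1 (List.mem_toFinset.1 j4)) j2 s
        · rw [nsmul_eq_mul]
          exact mul_le_mul_of_nonneg_right hc (by positivity)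
    _ ≤ (2 * dv d ^ 3) ^ (2 * J) * (dv d ^ 3 * 2 ^ J * (Ca * (1 + Cb * Cd * (Real.exp 7 + 2)) *
        (E * (Real.exp 14 * μ ^ (-(3 * (1 + κ))) * z * (X * PL L) ^ (2 + κ))))) := by
        rw [hRd]
        gcongr
    _ = _ := by rw [hE]; ring

end Pool.Agent.P.MP_323ce2_nt.Q1
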