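import Pool.Agent.P.MP_323ce2_nt.Q1.St
import Pool.Agent.P.MP_26a8c3_nt.QB.Cube1

/-! Truncated removal of the cubes, pointwise, with a general weight. -/

namespace Pool.Agent.P.MP_323ce2_nt.Q1

open Finset Pool.Agent.P.MP_26a8c3_nt Pool.Agent.P.MP_26a8c3_nt.QO Pool.Agent.P.MP_26a8c3_nt.QA
open Pool.Agent.P.MP_26a8c3_nt.QB (ML ML0 Bd1 ps al cd Base S_PT S_SW)
open scoped Classical ComplexConjugate

namespace Cube1

open QB.Cube1 (Phi_mul ab_le s2)
open QB (norm_Phi_le bd1_uB nr_mul)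

/-- the coefficient of a cube -/
noncomputable def cf (ν : O → ℂ) (h d : O) : ℂ := (ab d : ℂ) * Phi ν h (d ^ 3)

/-- the term of a cube -/
noncomputable def tm (ν : O → ℂ) (h : O) (w : O → ℂ) (d : O) : ℂ :=
  if Primary d then cf ν h d * Bw ν h fun c => w (d ^ 3 * c) else 0

variable {Q : O} {ν w : O → ℂ}

lemma cf_mul (hν : IsNu Q ν) (h : O) {a b : O} (ha : a ≠ 0) (hb : b ≠ 0) :
    cf ν h (a * b) = cf ν h a * cf ν h b := by
  rw [cf, cf, cf, mul_pow, Phi_mul hν h (pow_ne_zero _ ha) (pow_ne_zero _ hb), ab_mul]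
  push_cast; ring

lemma norm_cf (hν : IsNu Q ν) (h d : O) : ‖cf ν h d‖ ≤ ab d := by
  rw [cf, norm_mul, Complex.norm_real, Real.norm_of_nonneg (ab_nonneg d)]
  exact mul_le_of_le_one_right (ab_nonneg d) (norm_Phi_le hν _ _)

lemma wb (hw : Dc w) : ∃ B : ℝ, 0 ≤ B ∧ ∀ d c : O, d ≠ 0 → c ≠ 0 →
    ‖w (d ^ 3 * c)‖ ≤ B * (((N d : ℝ) ^ 4)⁻¹ * (nr c ^ 2)⁻¹) := by
  obtain ⟨B, hB⟩ := hw
  have B0 : 0 ≤ B := by simpa [nr] using (norm_nonneg _).trans (hB 0)
  refine ⟨B, B0, fun d c hd hc => (hB _).trans (mul_le_mul_of_nonneg_left ?_ B0)⟩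
  have d1 := one_le_N hd
  have c1 := one_le_nr c
  rw [nr_mul (pow_ne_zero _ hd) hc, map_pow, Nat.cast_pow, Real.rpow_neg (by positivity),
    show (6 : ℝ) = (6 : ℕ) by norm_num, Real.rpow_natCast, ← mul_inv, mul_pow, ← pow_mul]
  gcongr <;> norm_num

lemma dc_mul (hw : Dc w) {a : O} (ha : a ≠ 0) : Dc fun n => w (a * n) := by
  obtain ⟨B, hB⟩ := hw
  have B0 : 0 ≤ B := by simpa [nr] using (norm_nonneg _).trans (hB 0)
  refine ⟨B, fun n => (hB _).trans (mul_le_mul_of_nonneg_left ?_ B0)⟩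
  refine Real.rpow_le_rpow_of_nonpos (nr_pos n) ?_ (by norm_num)
  rcases eq_or_ne n 0 with rfl | hn
  · rw [mul_zero]
  · rw [nr_mul ha hn]
    exact le_mul_of_one_le_left (nr_pos n).le (one_le_N ha)

lemma bw_le (hA : Alg) (hν : IsNu Q ν) (h : O) (hw : Dc w) : ∃ C : ℝ, 0 ≤ C ∧ ∀ d : O, d ≠ 0 →
    ‖Bw ν h fun c => w (d ^ 3 * c)‖ ≤ C * ((N d : ℝ) ^ 4)⁻¹ := by
  obtain ⟨B, B0, hB⟩ := wb hw
  refine ⟨B * ∑' c : O, (nr c ^ 2)⁻¹, mul_nonneg B0 (tsum_nonneg fun c => by positivity),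
    fun d hd => ?_⟩
  refine (tsum_of_norm_bounded (s2.mul_left (B * ((N d : ℝ) ^ 4)⁻¹)).hasSum fun c => ?_).trans ?_
  · rcases eq_or_ne c 0 with rfl | hc
    · rw [(bd1_uB hA hν h).1, zero_mul, norm_zero]
      positivity
    · rw [norm_mul, mul_assoc]
      exact (mul_le_of_le_one_left (norm_nonneg _) ((bd1_uB hA hν h).2 c)).trans (hB d c hd hc)
  · rw [tsum_mul_left]
    exact le_of_eq (by ring)

lemma bs_eq (hA : Alg) (hν : IsNu Q ν) (h : O) (hw : Dc w) : Bsw ν h w = ∑' d, tm ν h w d := by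
  obtain ⟨B, B0, hB⟩ := wb hw
  set f : O × O → ℂ := fun x => if SQ x.2 ∧ Primary x.1 then
    (ab x.1 : ℂ) * tau x.2 * Phi ν h (x.2 * x.1 ^ 3) * w (x.2 * x.1 ^ 3) else 0 with hf
  have e : Bsw ν h w = ∑' x, f x := ((Equiv.prodComm O O).tsum_eq f)
  have hs : Summable f := by
    refine Summable.of_norm_bounded ((s2.mul_of_nonneg s2 (fun c => by positivity)
      fun c => by positivity).mul_left B) fun x => ?_
    simp only [hf]
    split_ifs with hx
    · have c0 := hx.1.ne_zero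
      have d0 := hx.2.ne_zero
      have d1 := one_le_N d0
      have c1 := nr_pos x.2
      have k := hB x.1 x.2 d0 c0
      rw [mul_comm (x.1 ^ 3)] at k
      rw [nr_eq d0, norm_mul, norm_mul, norm_mul, hA.r4.2.1 _ hx.1, Complex.norm_real,
        Real.norm_of_nonneg (ab_nonneg _)]
      have a := ab_le d0
      have p := norm_Phi_le hν h (x.2 * x.1 ^ 3)
      calc _ ≤ (N x.1 : ℝ) * 1 * 1 * (B * (((N x.1 : ℝ) ^ 4)⁻¹ * (nr x.2 ^ 2)⁻¹)) := by gcongr
        _ = B * (((N x.1 : ℝ) ^ 3)⁻¹ * (nr x.2 ^ 2)⁻¹) := by field_simp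
        _ ≤ _ := by gcongr; norm_num
    · simp only [norm_zero]; positivity
  rw [e, hs.tsum_prod]
  refine tsum_congr fun d => ?_
  unfold tm
  split_ifs with hd
  · rw [Bw, ← tsum_mul_left]
    refine tsum_congr fun c => ?_
    simp only [hf, uB, hd, and_true]
    split_ifs with hc
    · rw [mul_comm c, Phi_mul hν h (pow_ne_zero _ hd.ne_zero) hc.ne_zero, cf]
      ring
    · simp
  · simp [hf, hd]

lemma cf_bs (hA : Alg) (hν : IsNu Q ν) (h : O) (hw : Dc w) {d : O} (hd : Primary d) :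
    cf ν h d * Bsw ν h (fun n => w (d ^ 3 * n)) = ∑' e, if d ∣ e then tm ν h w e else 0 := by
  rw [bs_eq hA hν h (dc_mul hw (pow_ne_zero 3 hd.ne_zero)), ← tsum_mul_left,
    ← (mul_right_injective₀ hd.ne_zero).tsum_eq (f := fun e => if d ∣ e then tm ν h w e else 0)]
  · refine tsum_congr fun e => ?_
    rw [if_pos (dvd_mul_right d e), tm, tm]
    by_cases he : Primary e
    · rw [if_pos he, if_pos (hd.mul he), cf_mul hν h hd.ne_zero he.ne_zero]
      simp only [mul_pow, mul_assoc]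
    · rw [if_neg he, if_neg fun h' => he (h'.of_mul hd), mul_zero]
  · intro e he
    obtain ⟨c, rfl⟩ : d ∣ e := by_contra fun h' => he (if_neg h')
    exact ⟨c, rfl⟩

end Cube1

open Cube1

theorem pCube1 (hA : Alg) (hb : Base) : S_Cube1 := by
  intro Q ν h w D hν hw hD
  obtain ⟨C, hC, h1⟩ := bw_le hA hν h hw
  obtain ⟨K, hK, h2⟩ := hb.dv_le
  set g : O → ℝ := fun d =>
    if Primary d then dv d * ab d * ‖Bw ν h fun c => w (d ^ 3 * c)‖ else 0 with hg
  have g0 : ∀ d, 0 ≤ g d := fun d => by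
    have := dv_nonneg d; have := ab_nonneg d
    simp only [hg]; split_ifs <;> positivity
  have sg : Summable g := by
    refine Summable.of_nonneg_of_le g0 (fun d => ?_) (QB.Cube1.s2.mul_left (K * C))
    simp only [hg]
    split_ifs with hd
    · have d0 := hd.ne_zero
      have d1 := one_le_N d0
      have a := QB.Cube1.ab_le d0
      have a0 := ab_nonneg d
      have b := h1 d d0
      rw [nr_eq d0]
      calc _ ≤ K * N d * N d * (C * ((N d : ℝ) ^ 4)⁻¹) := by gcongr; exact h2 d d0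
        _ = _ := by field_simp
    · positivity
  have tg : ∀ (z : ℂ) (d : O), (Primary d → ‖z‖ ≤ dv d) → ‖z * tm ν h w d‖ ≤ g d := by
    intro z d hz
    simp only [hg, tm]
    split_ifs with hd
    · rw [norm_mul, norm_mul, mul_assoc]
      have := norm_cf hν h d
      have := hz hd
      have := dv_nonneg d
      gcongr
    · simp
  have sg' : Summable fun d : O => if Primary d ∧ D < (N d : ℝ) then
      dv d * ab d * ‖Bw ν h fun c => w (d ^ 3 * c)‖ else 0 := by
    refine Summable.of_nonneg_of_le (fun d => ?_) (fun d => ?_) sg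
    · have := dv_nonneg d; have := ab_nonneg d
      split_ifs <;> positivity
    · split_ifs with hd
      · simp only [hg, hd.1, if_true, le_refl]
      · exact g0 d
  refine ⟨sg', ?_⟩
  set S := (ball D).filter Primary with hS
  set c : O → ℂ := fun e => ∑ d ∈ S.filter (· ∣ e), mu d with hc
  have hsub : ∀ e, Primary e → S.filter (· ∣ e) ⊆ pdiv e := fun e he d hd =>
    (mem_pdiv he.ne_zero).2 ⟨(mem_filter.1 (mem_filter.1 hd).1).2, (mem_filter.1 hd).2⟩
  have c1 : ∀ e, Primary e → ‖c e‖ ≤ dv e := fun e he => by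
    refine (norm_sum_le_of_le _ fun d _ => norm_mu_le d).trans ?_
    rw [sum_const, nsmul_eq_mul, mul_one, dv]
    exact_mod_cast card_le_card (hsub e he)
  have c2 : ∀ e, Primary e → (N e : ℝ) ≤ D → c e = if e = 1 then 1 else 0 := fun e he hN => by
    rw [← hb.mu_sum e he]
    refine sum_congr (Subset.antisymm (hsub e he) fun d hd => ?_) fun _ _ => rfl
    obtain ⟨a, b⟩ := (mem_pdiv he.ne_zero).1 hd
    refine mem_filter.2 ⟨mem_filter.2 ⟨mem_ball.2 (le_trans ?_ hN), a⟩, b⟩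
    exact_mod_cast N_le_of_dvd b he.ne_zero
  have st : Summable (tm ν h w) := Summable.of_norm_bounded sg fun d => by
    simpa using tg 1 d fun hd => by simpa using one_le_dv hd.ne_zero
  have sc : Summable fun e => c e * tm ν h w e :=
    Summable.of_norm_bounded sg fun d => tg _ d (c1 d)
  have key : ∑ d ∈ S, mu d * (cf ν h d * Bsw ν h fun n => w (d ^ 3 * n)) =
      ∑' e, c e * tm ν h w e := by
    rw [sum_congr rfl fun d hd => by
      rw [cf_bs hA hν h hw (mem_filter.1 hd).2, ← tsum_mul_left], ← Summable.tsum_finsetSum]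
    · refine tsum_congr fun e => ?_
      simp only [hc, sum_filter, sum_mul]
      exact sum_congr rfl fun d _ => by split_ifs <;> simp
    · intro d _
      refine Summable.mul_left _ (Summable.of_norm_bounded st.norm fun e => ?_)
      split_ifs <;> simp
  have t1 : c 1 * tm ν h w 1 = Bw ν h w := by
    rw [c2 1 primary_one (by simpa using hD), if_pos rfl, tm, if_pos primary_one]
    simp [cf, Phi, hν.one]
  rw [sc.tsum_eq_add_tsum_ite 1, t1] at key
  rw [eq_sub_of_add_eq key.symm]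
  refine (norm_sub_le _ _).trans (add_le_add (norm_sum_le_of_le _ fun d hd => ?_)
    (tsum_of_norm_bounded sg'.hasSum fun e => ?_))
  · rw [norm_mul, norm_mul]
    have := norm_cf hν h d
    refine (mul_le_of_le_one_left (by positivity) (norm_mu_le d)).trans (by gcongr)
  · have := dv_nonneg e
    have := ab_nonneg e
    by_cases he : Primary e ∧ D < (N e : ℝ)
    · rw [if_pos he]
      split_ifs
      · rw [norm_zero]; positivity
      · simpa only [hg, he.1, if_true] using tg _ e (c1 e)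
    · rw [if_neg he]
      split_ifs with e1
      · simp
      · by_cases hp : Primary e
        · rw [c2 e hp (not_lt.1 fun h' => he ⟨hp, h'⟩), if_neg e1]; simp
        · simp [tm, hp]

end Pool.Agent.P.MP_323ce2_nt.Q1
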