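import Pool.Agent.P.MP_323ce2_nt.Q1.St
import Pool.Agent.P.MP_26a8c3_nt.QB.Cube2

/-! Truncated removal of the cubes: from the pointwise bound to moments. -/

namespace Pool.Agent.P.MP_323ce2_nt.Q1

open Finset Pool.Agent.P.MP_26a8c3_nt Pool.Agent.P.MP_26a8c3_nt.QO Pool.Agent.P.MP_26a8c3_nt.QA
open Pool.Agent.P.MP_26a8c3_nt.QB (ML ML0 Bd1 ps al cd Base S_PT S_SW)
open scoped Classical ComplexConjugate

namespace Cube2

/-- the infinite part -/
lemma inf {κ : ℝ} (j : ℕ) (hκ : 0 < κ) : ∃ C : ℝ, 0 < C ∧ ∀ (F : O → O → ℂ) (P D b : ℝ)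
    (s : Finset O), 1 ≤ D → 0 ≤ b → 0 ∉ s →
    (∀ h, Summable fun d : O => if Primary d ∧ D < (N d : ℝ) then dv d * ab d * ‖F h d‖ else 0) →
    (∀ d, Primary d → D < (N d : ℝ) →
      ML0 (fun h => F h d) P (b * dv d ^ j * (N d : ℝ) ^ (-(3 * (1 + κ))))) →
    ∑ h ∈ s, G (N h / P) *
      (∑' d : O, if Primary d ∧ D < (N d : ℝ) then dv d * ab d * ‖F h d‖ else 0) ^ 2 ≤
        C * (D ^ (-κ) * b) := by
  obtain ⟨C₁, hC₁, h₁⟩ := QB.Cube2.sum_pow (σ := 1 + κ) (by linarith)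
  have hs₂ := summable_dv_pow (2 + j) (s := 1 + κ) (by linarith)
  have p₂ : ∀ d : O, 0 ≤ dv d ^ (2 + j) * (N d : ℝ) ^ (-(1 + κ)) := fun d =>
    mul_nonneg (pow_nonneg (dv_nonneg d) _) (by positivity)
  have h₂ := fun T : Finset O => hs₂.sum_le_tsum T fun d _ => p₂ d
  have hC₂ : 0 ≤ ∑' d : O, dv d ^ (2 + j) * (N d : ℝ) ^ (-(1 + κ)) := tsum_nonneg p₂
  generalize (∑' d : O, dv d ^ (2 + j) * (N d : ℝ) ^ (-(1 + κ))) = C₂ at h₂ hC₂
  refine ⟨C₁ * (1 + C₂), by positivity, fun F P D b s hD h0 hs hsum H => ?_⟩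
  have hD0 : 0 < D := by linarith
  set u : O → ℝ := fun d => if Primary d ∧ D < (N d : ℝ) then (N d : ℝ) ^ (-(1 / 2 + κ)) else 0
    with hu
  set v : O → O → ℝ := fun h d => if Primary d ∧ D < (N d : ℝ) then
    dv d * ab d * ‖F h d‖ * (N d : ℝ) ^ (1 / 2 + κ) else 0 with hv
  have e : ∀ h, (fun d : O => if Primary d ∧ D < (N d : ℝ) then dv d * ab d * ‖F h d‖ else 0) =
      fun d => u d * v h d := by
    intro h
    funext d
    simp only [hu, hv]
    split_ifs with hp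
    · have : (0 : ℝ) < N d := hD0.trans hp.2
      rw [mul_left_comm, ← Real.rpow_add this, neg_add_cancel, Real.rpow_zero, mul_one]
    · simp
  have key := QB.Cube2.cs s (fun h => G (N h / P)) u v (W₁ := D ^ (-κ) * C₁)
    (W₂ := b * C₂) (fun h _ => (G_pos _).le) (fun h _ => e h ▸ hsum h) (fun T => ?_)
    fun T => ?_
  · simp only [e]
    refine key.trans ?_
    have : 0 ≤ D ^ (-κ) * C₁ * b := by positivity
    linarith
  · refine le_trans ?_ (mul_le_mul_of_nonneg_left (h₁ T) (by positivity))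
    rw [mul_sum]
    refine sum_le_sum fun d _ => ?_
    simp only [hu]
    split_ifs with hp
    · have hN : (0 : ℝ) < N d := hD0.trans hp.2
      rw [sq, ← Real.rpow_add hN, show -(1 / 2 + κ) + -(1 / 2 + κ) = -κ + -(1 + κ) by ring,
        Real.rpow_add hN]
      exact mul_le_mul_of_nonneg_right
        (Real.rpow_le_rpow_of_nonpos hD0 hp.2.le (by linarith)) (by positivity)
    · rw [zero_pow two_ne_zero]; positivity
  · refine le_trans ?_ (mul_le_mul_of_nonneg_left (h₂ T) h0)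
    rw [mul_sum]
    refine sum_le_sum fun d _ => ?_
    simp only [hv]
    split_ifs with hp
    · have hN : (0 : ℝ) < N d := hD0.trans hp.2
      have h3 := H d hp.1 hp.2 s hs
      calc ∑ h ∈ s, G (N h / P) * (dv d * ab d * ‖F h d‖ * (N d : ℝ) ^ (1 / 2 + κ)) ^ 2
          = dv d ^ 2 * (N d * ((N d : ℝ) ^ (1 / 2 + κ)) ^ 2) *
              ∑ h ∈ s, G (N h / P) * ‖F h d‖ ^ 2 := by
            rw [mul_sum, ← ab_sq]
            exact sum_congr rfl fun h _ => by ring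
        _ ≤ dv d ^ 2 * (N d * ((N d : ℝ) ^ (1 / 2 + κ)) ^ 2) *
              (b * dv d ^ j * (N d : ℝ) ^ (-(3 * (1 + κ)))) :=
            mul_le_mul_of_nonneg_left h3 (by positivity)
        _ = b * (dv d ^ (2 + j) * (N d : ℝ) ^ (-(1 + κ))) := by
            rw [show -(1 + κ) = 1 + (1 / 2 + κ + (1 / 2 + κ)) + -(3 * (1 + κ)) by ring,
              Real.rpow_add hN _ (-(3 * (1 + κ))), Real.rpow_add hN 1,
              Real.rpow_add hN (1 / 2 + κ), Real.rpow_one]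
            ring
    · simp only [zero_pow two_ne_zero, mul_zero, sum_const_zero]
      exact mul_nonneg h0 (p₂ d)

end Cube2

theorem pCube2 (hb : Base) : S_Cube2 := by
  intro κ j hκ
  obtain ⟨C₁, hC₁, h₁⟩ := QB.Cube2.fin hb
  obtain ⟨C₂, hC₂, h₂⟩ := Cube2.inf j hκ
  refine ⟨2 * (C₁ + C₂), by positivity, fun F F₁ F₂ P D b₁ b₂ hD hb₁ hb₂ h H₁ H₂ s hs => ?_⟩
  have hD0 : 0 < D := by linarith
  have k₁ := h₁ F₁ P D b₁ s hD hb₁ hs H₁
  have k₂ := h₂ F₂ P D b₂ s hD hb₂ hs (fun k => (h k).1) H₂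
  have p₁ : 0 ≤ D ^ 3 * b₁ := by positivity
  have p₂ : 0 ≤ D ^ (-κ) * b₂ := by positivity
  refine le_trans (sum_le_sum (g := fun k => 2 * (G (N k / P) *
    (∑ d ∈ (ball D).filter Primary, ab d * ‖F₁ k d‖) ^ 2) +
      2 * (G (N k / P) * (∑' d : O, if Primary d ∧ D < (N d : ℝ) then
        dv d * ab d * ‖F₂ k d‖ else 0) ^ 2)) fun k _ => ?_) ?_
  · have h3 := pow_le_pow_left₀ (norm_nonneg _) (h k).2 2
    have h4 := mul_le_mul_of_nonneg_left (h3.trans add_sq_le) (G_pos (N k / P)).le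
    exact h4.trans (le_of_eq (by ring))
  · rw [sum_add_distrib, ← mul_sum, ← mul_sum]
    nlinarith [mul_nonneg hC₁.le p₂, mul_nonneg hC₂.le p₁]

end Pool.Agent.P.MP_323ce2_nt.Q1
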