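import Pool.Agent.P.MP_323ce2_nt.Q1.St
import Pool.Agent.P.MP_26a8c3_nt.QB.DL

/-! Separation of variables in the dual sum, with pieces. -/

namespace Pool.Agent.P.MP_323ce2_nt.Q1

open Finset Pool.Agent.P.MP_26a8c3_nt Pool.Agent.P.MP_26a8c3_nt.QO Pool.Agent.P.MP_26a8c3_nt.QA
open Pool.Agent.P.MP_26a8c3_nt.QB (ML ML0 Bd1 ps al cd Base S_PT S_SW)
open scoped Classical ComplexConjugate

namespace DL

open QB.DL (norm_DS_conj DS_mul one_add_le amgm sq_K scale geo)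

lemma DS_div {g : O → ℂ} (hg : g 0 = 0) (σ v : ℝ) :
    DS (fun c => g c / (ab c : ℂ)) nr σ v = DS g nr (σ - 1 / 2) v := by
  refine tsum_congr fun c => ?_
  rcases eq_or_ne c 0 with rfl | hc
  · simp [hg]
  have h0 : ((nr c : ℝ) : ℂ) ≠ 0 := by exact_mod_cast (nr_pos c).ne'
  have e : ((σ - 1 / 2 : ℝ) : ℂ) + v * Complex.I = (σ + v * Complex.I) - ((1 / 2 : ℝ) : ℂ) := by
    push_cast; ring
  have e2 : ((nr c : ℝ) : ℂ) ^ ((1 / 2 : ℝ) : ℂ) = (ab c : ℂ) := by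
    rw [← Complex.ofReal_cpow (nr_pos c).le, ab_eq, Real.sqrt_eq_rpow, nr_eq hc]
  rw [e, Complex.cpow_sub _ _ h0, e2]
  ring

lemma summable_ga (ho : Om) {K : ℝ} {J : ℕ} {L : List Pi} (hL : Good K J L) {u : O → ℂ}
    (hu : Bd1 u) {X : ℝ} (hX : 0 < X) (t : ℝ) {σ : ℝ} (hσ : 0 ≤ σ) :
    Summable fun c => ‖u c * om L X t c / (ab c : ℂ)‖ * nr c ^ σ := by
  obtain ⟨C, -, h⟩ := ho.mass σ (σ + 2) hσ (by linarith)
  have hs : Summable fun c => ‖om L X t c‖ * nr c ^ σ :=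
    summable_of_sum_le (fun c => by have := nr_pos c; positivity) fun s => h K J L X t s hL hX
  refine Summable.of_nonneg_of_le (fun c => by have := nr_pos c; positivity) (fun c => ?_) hs
  have := nr_pos c
  refine mul_le_mul_of_nonneg_right ?_ (by positivity)
  rcases eq_or_ne c 0 with rfl | hc
  · simp [hu.1]
  rw [norm_div, Complex.norm_real, Real.norm_of_nonneg (ab_nonneg c), norm_mul]
  refine (div_le_self (by positivity) ?_).trans (mul_le_of_le_one_left (norm_nonneg _) (hu.2 c))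
  rw [ab_eq]; exact Real.one_le_sqrt.2 (one_le_N hc)

lemma KD_eq (g : O → ℂ) (P n ω : ℝ) (hω : 0 ≤ ω) :
    ω * ‖KD g (P * n)‖ = ‖KS (fun c => (ω : ℂ) * (g c / (ab c : ℂ)))
      (fun c => conj (g c / (ab c : ℂ))) nr nr (a0 * P * n)‖ := by
  have : KS (fun c => (ω : ℂ) * (g c / (ab c : ℂ))) (fun c => conj (g c / (ab c : ℂ))) nr nr
      (a0 * P * n) = (ω : ℂ) * KD g (P * n) := by
    rw [KS, KD, ← tsum_mul_left]
    refine tsum_congr fun x => ?_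
    rw [G, show a0 * (P * n / (nr x.1 * nr x.2)) = a0 * P * n / (nr x.1 * nr x.2) by ring]
    ring
  rw [this, norm_mul, Complex.norm_real, Real.norm_of_nonneg hω]

/-- the estimate on one line -/
lemma line (ht : S_Tw) {ι : Type} {s T : Finset ι} {ω n : ι → ℝ} {u : ι → O → ℂ} {K : ℝ} {J : ℕ}
    {L : List Pi} {X t U b σ y : ℝ} (hL : Good K J L) (hX : 0 < X) (hU : 0 < U) (hb : 0 ≤ b)
    (hs : ∀ h ∈ s, 0 ≤ ω h ∧ 1 ≤ n h ∧ Bd1 (u h))
    (H : ∀ L', Good K J L' → PL L' = PL L → ∀ y X' t' : ℝ, U ≤ y → Real.exp (-1) * X ≤ X' →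
      X' ≤ Real.exp 7 * X →
      ∑ h ∈ s.filter (fun h => n h ≤ y), ω h * ‖V (u h) L' X' t'‖ ^ 2 ≤
        b * (y / U) ^ 12 * (1 + |t'|) ^ 16)
    (h0 : 0 < σ) (h1 : σ ≤ 13) (hT : T ⊆ s) (hy : U ≤ y) (hn : ∀ h ∈ T, n h ≤ y) (v : ℝ) :
    ∑ h ∈ T, ‖DS (fun c => (ω h : ℂ) * (u h c * om L X t c / (ab c : ℂ))) nr σ v‖ *
        ‖DS (fun c => conj (u h c * om L X t c / (ab c : ℂ))) nr σ v‖ ≤
      ((X * PL L) ^ (σ - 1 / 2) * Real.exp ((σ - 1 / 2) ^ 2 / 4)) ^ 2 *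
        (((2 ^ J : ℝ) ^ 13) ^ 2 * b * (1 + |t|) ^ 16 * (y / U) ^ 12) * (1 + |v|) ^ 16 := by
  have hP := hL.PL_pos
  set K₀ := (X * PL L) ^ (σ - 1 / 2) * Real.exp ((σ - 1 / 2) ^ 2 / 4) with hK
  have hK0 : 0 ≤ K₀ := by positivity
  set c : ℝ := (2 ^ J : ℝ) ^ 13 with hc
  set X' := X * Real.exp ((σ - 1 / 2) / 2) with hX'
  have a1 : Real.exp (-1) * X ≤ X' := by
    rw [hX', mul_comm]; gcongr; linarith
  have a2 : X' ≤ Real.exp 7 * X := by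
    rw [hX', mul_comm]; gcongr; linarith
  have a3 : (2 ^ J : ℝ) ^ |σ - 1 / 2| ≤ c := by
    rw [hc, ← Real.rpow_natCast _ 13]
    exact Real.rpow_le_rpow_of_exponent_le (one_le_pow₀ one_le_two)
      (abs_le.2 ⟨by push_cast; linarith, by push_cast; linarith⟩)
  have hy0 : 0 ≤ y / U := div_nonneg (hU.le.trans hy) hU.le
  have key : ∀ r : ℝ, |r| = |v| → ∃ x : ι → ℝ, (∀ h ∈ T,
      ‖DS (fun c => u h c * om L X t c) nr (σ - 1 / 2) r‖ ≤ c * K₀ * x h) ∧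
      ∑ h ∈ T, ω h * x h ^ 2 ≤ b * (y / U) ^ 12 * (1 + |t|) ^ 16 * (1 + |v|) ^ 16 := fun r hr => by
    obtain ⟨L', g1, g2, g3⟩ := ht K J L (σ - 1 / 2) r hL
    refine ⟨fun h => ‖V (u h) L' X' (t + r)‖, fun h hh => ?_, ?_⟩
    · obtain ⟨-, -, c2⟩ := hs h (hT hh)
      refine (g3 (u h) X t (Bd1.bn c2) c2.1 hX).trans ?_
      rw [mul_assoc ((2 ^ J : ℝ) ^ |σ - 1 / 2|)]
      exact mul_le_mul_of_nonneg_right (mul_le_mul_of_nonneg_right a3 hK0) (norm_nonneg _)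
    · refine le_trans (sum_le_sum_of_subset_of_nonneg
        (fun h hh => mem_filter.2 ⟨hT hh, hn h hh⟩) fun h hh _ =>
          mul_nonneg (hs h (mem_filter.1 hh).1).1 (by positivity))
        ((H L' g1 g2 y X' _ hy a1 a2).trans ?_)
      rw [mul_assoc (b * _), ← mul_pow, ← hr]
      have := one_add_le t r
      gcongr
  obtain ⟨x₁, p1, k1⟩ := key v rfl
  obtain ⟨x₂, p2, k2⟩ := key (-v) (abs_neg v)
  calc _ ≤ ∑ h ∈ T, (c * K₀) ^ 2 * ((ω h * x₁ h ^ 2 + ω h * x₂ h ^ 2) / 2) := by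
        refine sum_le_sum fun h hh => ?_
        obtain ⟨c1, -, c2⟩ := hs h (hT hh)
        have z : u h 0 * om L X t 0 = 0 := by rw [c2.1, zero_mul]
        rw [DS_mul, norm_mul, Complex.norm_real, Real.norm_of_nonneg c1, norm_DS_conj,
          DS_div (g := fun c => u h c * om L X t c) z, DS_div (g := fun c => u h c * om L X t c) z]
        refine le_trans ?_ (amgm c1 (c * K₀) (x₁ h) (x₂ h))
        exact mul_le_mul (mul_le_mul_of_nonneg_left (p1 h hh) c1) (p2 h hh) (norm_nonneg _)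
          (mul_nonneg c1 ((norm_nonneg _).trans (p1 h hh)))
    _ = (c * K₀) ^ 2 * ((∑ h ∈ T, ω h * x₁ h ^ 2 + ∑ h ∈ T, ω h * x₂ h ^ 2) / 2) := by
        rw [← mul_sum, ← sum_div, sum_add_distrib]
    _ ≤ (c * K₀) ^ 2 * (b * (y / U) ^ 12 * (1 + |t|) ^ 16 * (1 + |v|) ^ 16) :=
        mul_le_mul_of_nonneg_left (by linarith) (sq_nonneg _)
    _ = _ := by ring

end DL

open DL QB.DL in
theorem pDL (ho : Om) (ht : S_Tw) : S_DL := by
  intro J ε hε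
  set η := min ε 1 with hη
  have h0 : 0 < η := lt_min hε one_pos
  have h1 : η ≤ 1 := min_le_right _ _
  have g1 := GK_nonneg η 16
  have g2 := GK_nonneg 13 16
  refine ⟨(GK η 16 * Real.exp 1 + GK 13 16 * (Real.exp 79 * 2 ^ 13) + 1) * ((2 ^ J : ℝ) ^ 13) ^ 2,
    by positivity, fun ι s ω n u K L₀ X₀ t P U b hG hX₀ hP hV hXV hb hs H => ?_⟩
  have ha := QB.one_le_a0
  have hc : 0 < a0 * P := by positivity
  have hX : 0 < X₀ * PL L₀ := mul_pos hX₀ hG.PL_pos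
  set L := ((2 ^ J : ℝ) ^ 13) ^ 2 * b * (1 + |t|) ^ 16 with hL
  have hL0 : 0 ≤ L := by positivity
  set X := X₀ * PL L₀ with hXe
  set K₁ := (X ^ ((13 : ℝ) - 1 / 2) * Real.exp (((13 : ℝ) - 1 / 2) ^ 2 / 4)) ^ 2 with hK
  have hg : HasSum (fun j : ℕ => ((2 : ℝ) ^ j) ^ (-(13 : ℝ)) *
      (K₁ * (L * (2 ^ (j + 1) * U / U) ^ 12 * 1))) (K₁ * L * 2 ^ 12 * 2) := by
    simp_rw [geo _ hV]
    exact hasSum_geometric_two.mul_left _
  have sm : ∀ σ : ℝ, 0 ≤ σ → ∀ h ∈ s, Summable fun c =>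
      ‖(ω h : ℂ) * (u h c * om L₀ X₀ t c / (ab c : ℂ))‖ * nr c ^ σ := fun σ hσ h hh => by
    simpa only [norm_mul (ω h : ℂ), mul_assoc ‖(ω h : ℂ)‖] using
      (DL.summable_ga ho hG (hs h hh).2.2 hX₀ t hσ).mul_left ‖(ω h : ℂ)‖
  have sc : ∀ σ : ℝ, 0 ≤ σ → ∀ h ∈ s, Summable fun c =>
      ‖conj (u h c * om L₀ X₀ t c / (ab c : ℂ))‖ * nr c ^ σ := fun σ hσ h hh => by
    simpa only [Complex.norm_conj] using DL.summable_ga ho hG (hs h hh).2.2 hX₀ t hσ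
  have main := sep_dyadic (α := fun h c => (ω h : ℂ) * (u h c * om L₀ X₀ t c / (ab c : ℂ)))
    (β := fun h c => conj (u h c * om L₀ X₀ t c / (ab c : ℂ))) (x := nr) (y := nr) nr_pos nr_pos
    (k := 16) (b0 := (X ^ (η - 1 / 2) * Real.exp ((η - 1 / 2) ^ 2 / 4)) ^ 2 * L)
    (b := fun j => K₁ * (L * (2 ^ (j + 1) * U / U) ^ 12 * 1)) h0 (by norm_num : (0 : ℝ) < 13) hc hV
    s (fun h hh => (hs h hh).2.1) (sm η h0.le) (sc η h0.le) (sm 13 (by norm_num))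
    (sc 13 (by norm_num))
    (fun T hT hn v => by
      have := DL.line (t := t) ht hG hX₀ hV hb hs H h0 (by linarith) hT le_rfl hn v
      rwa [div_self hV.ne', one_pow, mul_one] at this)
    (fun j T hT hn v => by
      have hj : U ≤ 2 ^ (j + 1) * U := le_mul_of_one_le_left hV.le (one_le_pow₀ one_le_two)
      have := DL.line (t := t) ht hG hX₀ hV hb hs H (by norm_num : (0 : ℝ) < 13) le_rfl hT hj
        (fun h hh => (hn h hh).2) v
      refine this.trans (le_of_eq ?_)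
      rw [hK, hL]; ring) hg.summable
  rw [hg.tsum_eq] at main
  rw [sum_congr rfl fun h hh =>
    DL.KD_eq (fun c => u h c * om L₀ X₀ t c) P (n h) (ω h) (hs h hh).1]
  refine main.trans ?_
  have hPV : X ^ 2 ≤ a0 * P * U := hXV.trans (by
    rw [mul_assoc]; exact le_mul_of_one_le_left (mul_pos hP hV).le ha)
  have s1 := scale (sq_nonneg X) hc hV.le h0.le hPV
  have s2 := scale (B := 1) (σ := 13) (sq_nonneg X) (mul_pos hc hV) zero_le_one (by norm_num)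
    (by rwa [mul_one])
  rw [Real.one_rpow] at s2
  have v1 : (1 : ℝ) ≤ 1 + U := by linarith
  have s3 : U ^ η ≤ (1 + U) ^ ε := (Real.rpow_le_rpow hV.le (by linarith) h0.le).trans
    (Real.rpow_le_rpow_of_exponent_le v1 (min_le_left _ _))
  have s4 : 1 ≤ (1 + U) ^ ε := Real.one_le_rpow v1 hε.le
  have e1 : Real.exp ((η - 1 / 2) ^ 2 / 2) ≤ Real.exp 1 := Real.exp_le_exp.2 (by
    have : (η - 1 / 2) ^ 2 ≤ 1 := by rw [sq_le_one_iff_abs_le_one, abs_le]; constructor <;> linarith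
    linarith)
  have e2 : Real.exp (((13 : ℝ) - 1 / 2) ^ 2 / 2) ≤ Real.exp 79 := Real.exp_le_exp.2 (by norm_num)
  have hR : 0 ≤ (1 + U) ^ ε * X⁻¹ * L := by positivity
  have t1 : (a0 * P) ^ (-η) * ((X ^ (η - 1 / 2) * Real.exp ((η - 1 / 2) ^ 2 / 4)) ^ 2 * L) ≤
      Real.exp 1 * ((1 + U) ^ ε * X⁻¹ * L) := by
    rw [sq_K hX]
    calc _ = Real.exp ((η - 1 / 2) ^ 2 / 2) * ((a0 * P) ^ (-η) * (X ^ 2) ^ η * X⁻¹ * L) := by ring
      _ ≤ _ := by have := s1.trans s3; gcongr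
  have t2 : (a0 * P * U) ^ (-(13 : ℝ)) * (K₁ * L * 2 ^ 12 * 2) ≤
      Real.exp 79 * 2 ^ 13 * ((1 + U) ^ ε * X⁻¹ * L) := by
    rw [hK, sq_K hX]
    calc _ = Real.exp (((13 : ℝ) - 1 / 2) ^ 2 / 2) * 2 ^ 13 *
          ((a0 * P * U) ^ (-(13 : ℝ)) * (X ^ 2) ^ (13 : ℝ) * X⁻¹ * L) := by ring
      _ ≤ _ := by have := s2.trans s4; gcongr
  calc _ ≤ GK η 16 * (Real.exp 1 * ((1 + U) ^ ε * X⁻¹ * L)) +
        GK 13 16 * (Real.exp 79 * 2 ^ 13 * ((1 + U) ^ ε * X⁻¹ * L)) := by gcongr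
    _ ≤ _ := (le_add_of_nonneg_right hR).trans (le_of_eq (by rw [hL]; ring))

end Pool.Agent.P.MP_323ce2_nt.Q1
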