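import Pool.Agent.P.MP_323ce2_nt.Q1.St

/-! The trivial removal of pieces. -/

namespace Pool.Agent.P.MP_323ce2_nt.Q1

open Finset Pool.Agent.P.MP_26a8c3_nt Pool.Agent.P.MP_26a8c3_nt.QO Pool.Agent.P.MP_26a8c3_nt.QA
open Pool.Agent.P.MP_26a8c3_nt.QB (ML ML0 Bd1 ps al cd Base S_PT S_SW)
open scoped Classical ComplexConjugate

namespace Drop

theorem split {μ : ℝ} (hμ : 1 ≤ μ) (L : List Pi) (h : ∀ s ∈ L, 0 < s.hi ∧ s.hi ≤ μ ^ 2) :
    ∀ a : ℝ, 0 < a → a ≤ μ → ∃ L₁ L₂, L = L₁ ++ L₂ ∧ a * PL L₁ ≤ μ ^ 3 ∧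
      (L₂ = [] ∨ μ ≤ a * PL L₁) := by
  induction L with
  | nil =>
    exact fun a _ h1 => ⟨[], [], rfl, by
      simpa using h1.trans (le_self_pow₀ hμ three_ne_zero), Or.inl rfl⟩
  | cons s L ih =>
    intro a h0 h1
    obtain ⟨h2, h3⟩ := h s List.mem_cons_self
    rcases le_total μ (a * s.hi) with h4 | h4
    · refine ⟨[s], L, rfl, ?_, Or.inr (by simpa using h4)⟩
      rw [PL_cons, PL_nil, mul_one, pow_succ']
      exact mul_le_mul h1 h3 h2.le (by linarith)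
    · obtain ⟨L₁, L₂, e, h5, h6⟩ :=
        ih (fun s hs => h s (List.mem_cons_of_mem _ hs)) _ (mul_pos h0 h2) h4
      exact ⟨s :: L₁, L₂, by rw [e]; rfl, by rwa [PL_cons, ← mul_assoc],
        by rwa [PL_cons, ← mul_assoc]⟩

theorem peel (hb : Base) (hr : Rx) {c : ℝ} (hc : 0 < c)
    (hcnt : ∀ (Y : ℝ) (s : Finset O), 0 < Y → (∀ m ∈ s, m ≠ 0 ∧ (N m : ℝ) ≤ Y) →
      (s.card : ℝ) ≤ c * Y)
    {Q : O} {ν : O → ℂ} {K : ℝ} {J : ℕ} {L₂ : List Pi} {s : Finset O} {wt : O → ℝ} {X t β : ℝ}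
    (hν : IsNu Q ν) (hw : ∀ m ∈ s, 0 ≤ wt m) (hβ : 0 ≤ β) (hX : 0 < X)
    (H : ∀ r : O, SQ r → Fr L₂ r → ∑ m ∈ s, wt m * ‖V (uA ν r m) L₂ X t‖ ^ 2 ≤ dv r ^ 2 * β)
    (L₁ : List Pi) : Good K J (L₁ ++ L₂) → ∀ r : O, SQ r → Fr L₂ r →
      ∑ m ∈ s, wt m * ‖V (uA ν r m) (L₁ ++ L₂) X t‖ ^ 2 ≤
        (1 + 2 * c) ^ (2 * L₁.length) * PL L₁ ^ 2 * (dv r ^ 2 * β) := by
  induction L₁ with
  | nil => exact fun _ r h1 h2 => by simpa using H r h1 h2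
  | cons x L₁ ih =>
    intro hG r h1 h2
    rw [List.cons_append] at hG ⊢
    have hx := hG.head
    have x0 : 0 < x.hi := by linarith [hG.two_lt List.mem_cons_self]
    set T := x.S.filter fun p => ¬ p ∣ r with hT
    have hT1 : (T.card : ℝ) ≤ c * x.hi := hcnt _ _ x0 fun p hp =>
      have h := hx.pr p (mem_filter.1 hp).1
      ⟨h.1.ne_zero, h.2.2.2.1⟩
    have k1 : ∀ m, ‖V (uA ν r m) (x :: (L₁ ++ L₂)) X t‖ ^ 2 ≤
        T.card * ∑ p ∈ T, ‖V (uA ν (p * r) m) (L₁ ++ L₂) X t‖ ^ 2 := fun m => by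
      rw [hr.cons Q ν r m K J x _ X t hν hG hX]
      refine le_trans (pow_le_pow_left₀ (norm_nonneg _) (norm_sum_le_of_le _ fun p hp => ?_) 2)
        sq_sum_le_card_mul_sum_sq
      rw [norm_mul]
      exact mul_le_of_le_one_left (norm_nonneg _) (QB.norm_mul_le_one
        (hx.pr p (mem_filter.1 hp).1).2.2.2.2 (QB.norm_mul_le_one
          (QB.norm_mul_le_one (norm_mu_le p) (hν.le p)) (norm_psi_le _ _)))
    have G2 : Good K J L₂ := hG.tail.sub (List.sublist_append_right _ _)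
    calc _ ≤ ∑ m ∈ s, wt m * (T.card * ∑ p ∈ T, ‖V (uA ν (p * r) m) (L₁ ++ L₂) X t‖ ^ 2) :=
          sum_le_sum fun m hm => mul_le_mul_of_nonneg_left (k1 m) (hw m hm)
      _ = T.card * ∑ p ∈ T, ∑ m ∈ s, wt m * ‖V (uA ν (p * r) m) (L₁ ++ L₂) X t‖ ^ 2 := by
          rw [sum_comm, mul_sum]
          exact sum_congr rfl fun m _ => by rw [← mul_sum]; ring
      _ ≤ T.card * (T.card * ((1 + 2 * c) ^ (2 * L₁.length) * PL L₁ ^ 2 *
            ((2 * dv r) ^ 2 * β))) := by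
          refine mul_le_mul_of_nonneg_left ((sum_le_card_nsmul _ _ _ fun p hp => ?_).trans
            (nsmul_eq_mul _ _).le) (Nat.cast_nonneg _)
          obtain ⟨p1, p2⟩ := mem_filter.1 hp
          obtain ⟨p3, p4, -⟩ := hx.pr p p1
          rw [← hb.dv_prime p r p3 p4 h1.1 p2]
          exact ih hG.tail _ (SQ.mul ⟨p4, p3.squarefree⟩ h1 (p3.coprime_iff_not_dvd.2 p2))
            (Fr.mul G2 (fun y hy => hG.fr p1 y (List.mem_append_right _ hy)) h2)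
      _ = (2 * T.card) ^ 2 * ((1 + 2 * c) ^ (2 * L₁.length) * PL L₁ ^ 2 * (dv r ^ 2 * β)) := by
          ring
      _ ≤ ((1 + 2 * c) * x.hi) ^ 2 *
            ((1 + 2 * c) ^ (2 * L₁.length) * PL L₁ ^ 2 * (dv r ^ 2 * β)) := by
          refine mul_le_mul_of_nonneg_right (pow_le_pow_left₀ (by positivity) ?_ 2)
            (by positivity)
          linarith
      _ = _ := by
          rw [PL_cons, List.length_cons]
          ring

theorem arith {κ μ M X P₁ P₂ : ℝ} (hκ : 0 < κ) (hκ1 : κ ≤ 1) (hμ : 1 ≤ μ) (hM : 0 < M) (hX : 0 < X)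
    (h1 : 1 ≤ P₁) (h3 : P₁ ≤ μ ^ 3) (h4 : P₂ = 1 ∨ μ ≤ P₁) :
    P₁ * (M + Rt κ X P₂) ≤ 2 * (μ ^ 3 * M + X ^ (1 + κ) * (P₁ * P₂) ^ 2 +
      min X 1 ^ 2 * (P₁ * P₂) ^ 4 / μ ^ 3) := by
  have a1 : P₁ * M ≤ μ ^ 3 * M := mul_le_mul_of_nonneg_right h3 hM.le
  have a0 : P₁ ≤ P₁ ^ 2 := le_self_pow₀ h1 two_ne_zero
  have a2 : P₁ * (X ^ (1 + κ) * P₂ ^ 2) ≤ X ^ (1 + κ) * (P₁ * P₂) ^ 2 :=
    (mul_le_mul_of_nonneg_right a0 (by positivity)).trans (le_of_eq (by ring))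
  have a3 : 0 ≤ μ ^ 3 * M := by positivity
  have a4 : 0 ≤ X ^ (1 + κ) * (P₁ * P₂) ^ 2 := by positivity
  have a5 : 0 ≤ min X 1 ^ 2 * (P₁ * P₂) ^ 4 / μ ^ 3 := by positivity
  have a6 : P₁ * (min X 1 ^ 2 * P₂ ^ 4) ≤ X ^ (1 + κ) * (P₁ * P₂) ^ 2 +
      min X 1 ^ 2 * (P₁ * P₂) ^ 4 / μ ^ 3 := by
    rcases h4 with rfl | h4
    · have : min X 1 ^ 2 ≤ X ^ (1 + κ) := by
        rcases le_total X 1 with h | h
        · rw [min_eq_left h, ← Real.rpow_two]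
          exact Real.rpow_le_rpow_of_exponent_ge hX h (by linarith)
        · rw [min_eq_right h, one_pow]
          exact Real.one_le_rpow h (by linarith)
      refine le_add_of_le_of_nonneg ?_ a5
      rw [one_pow, mul_one, mul_one, mul_comm]
      exact mul_le_mul this a0 (by linarith) (by positivity)
    · refine le_add_of_nonneg_of_le a4 ((le_div_iff₀ (by positivity)).2 ?_)
      calc _ ≤ P₁ * (min X 1 ^ 2 * P₂ ^ 4) * P₁ ^ 3 := by gcongr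
        _ = _ := by ring
  unfold Rt
  linarith

end Drop

open Drop in
theorem pDrop (hb : Base) (hr : Rx) (hc : S_Cop) : S_Drop := by
  intro κ J hκ hκ1
  obtain ⟨c, c0, hcnt⟩ := hb.cnt
  refine ⟨2 * (1 + 2 * c) ^ (2 * J), by positivity,
    fun Q K Z b μ hb0 hμ H ν hν L hG M X t hM hX hZ s => ?_⟩
  have K1 := hG.one
  have μ1 : 1 ≤ μ := K1.trans hμ
  obtain ⟨L₁, L₂, rfl, h1, h2⟩ := split μ1 L (fun x hx => ⟨by linarith [hG.two_lt hx],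
    (hG.ok x hx).up.trans (pow_le_pow_left₀ (by linarith) hμ 2)⟩) 1 one_pos μ1
  rw [one_mul] at h1 h2
  have G1 : Good K J L₁ := hG.sub (List.sublist_append_left _ _)
  have G2 : Good K J L₂ := hG.sub (List.sublist_append_right _ _)
  have p1 := G1.one_le_PL
  have p2 := G2.PL_pos
  have R0 := Rt_pos κ hX p2
  rw [PL_append] at hZ ⊢
  set E := (1 + |t|) ^ 16 * (1 + M / Z ^ 4) ^ 10 * b with hE
  have E0 : 0 ≤ E := by positivity
  have k1 := hc κ Q ν K J L₂ s (fun m => G (N m / M)) X t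
    (E * (M + Rt κ X (PL L₂)) * PL L₂ ^ (1 + κ)) hκ.le hκ1 hν G2 (fun m _ => (QB.G_pos _).le)
    (by positivity) fun ξ x0 x1 => by
      have h3 : ξ * PL L₂ ≤ X * (PL L₁ * PL L₂) :=
        mul_le_mul x1 (le_mul_of_one_le_left p2.le p1) p2.le hX.le
      refine (H ν hν L₂ G2 M ξ t hM x0 (h3.trans hZ) s).trans ?_
      have h4 := Rt_mono hκ.le x0 x1 p2.le le_rfl
      rw [Nq_eq, Nm, Real.mul_rpow x0.le p2.le]
      calc _ = E * (M + Rt κ ξ (PL L₂)) * PL L₂ ^ (1 + κ) * ξ ^ (1 + κ) := by rw [hE]; ring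
        _ ≤ _ := by gcongr
  have k2 := peel hb hr c0 hcnt (s := s) (wt := fun m => G (N m / M)) (t := t)
    (β := E * (M + Rt κ X (PL L₂)) * PL L₂ ^ (1 + κ) * X ^ (1 + κ)) hν
    (fun m _ => (QB.G_pos _).le) (by positivity) hX
    (fun r r1 r2 => (k1 r r1 r2 X hX le_rfl).trans (mul_assoc _ _ _).le) L₁ hG 1 sq_one
    fun x hx p hp hd => ((G2.ok x hx).pr p hp).1.not_dvd_one hd
  refine k2.trans ?_
  have a1 := arith (P₂ := PL L₂) hκ hκ1 μ1 hM hX p1 h1 (h2.imp_left fun e => by rw [e, PL_nil])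
  have a2 : PL L₁ ≤ PL L₁ ^ (1 + κ) := Real.self_le_rpow_of_one_le p1 (by linarith)
  have a3 : (1 + 2 * c) ^ (2 * L₁.length) ≤ (1 + 2 * c) ^ (2 * J) :=
    pow_le_pow_right₀ (by linarith) (by linarith [G1.len])
  rw [dv_one, Nq, Real.mul_rpow hX.le (by positivity), Real.mul_rpow (by linarith) p2.le]
  calc _ = (1 + 2 * c) ^ (2 * L₁.length) * E * (PL L₁ * (M + Rt κ X (PL L₂))) *
        (X ^ (1 + κ) * (PL L₁ * PL L₂ ^ (1 + κ))) := by ring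
    _ ≤ (1 + 2 * c) ^ (2 * J) * E * (2 * (μ ^ 3 * M + X ^ (1 + κ) * (PL L₁ * PL L₂) ^ 2 +
          min X 1 ^ 2 * (PL L₁ * PL L₂) ^ 4 / μ ^ 3)) *
        (X ^ (1 + κ) * (PL L₁ ^ (1 + κ) * PL L₂ ^ (1 + κ))) := by gcongr
    _ = _ := by rw [hE]; ring

end Pool.Agent.P.MP_323ce2_nt.Q1
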