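import Pool.Agent.P.MP_323ce2_nt.Q1.St

/-! From dyadic pieces to arbitrary short pieces. -/

namespace Pool.Agent.P.MP_323ce2_nt.Q1

open Finset Pool.Agent.P.MP_26a8c3_nt Pool.Agent.P.MP_26a8c3_nt.QO Pool.Agent.P.MP_26a8c3_nt.QA
open Pool.Agent.P.MP_26a8c3_nt.QB (ML ML0 Bd1 ps al cd Base S_PT S_SW)
open scoped Classical ComplexConjugate

namespace FinP

theorem ml_sum {M b : ℝ} (T : Finset ℕ) (F : ℕ → O → ℂ) (h : ∀ j ∈ T, ML (F j) M b) :
    ML (fun m => ∑ j ∈ T, F j m) M ((T.card : ℝ) ^ 2 * b) := by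
  intro s
  have h1 : ∀ m ∈ s, G (N m / M) * ‖∑ j ∈ T, F j m‖ ^ 2 ≤
      T.card * ∑ j ∈ T, G (N m / M) * ‖F j m‖ ^ 2 := fun m _ => by
    rw [← mul_sum, mul_left_comm]
    refine mul_le_mul_of_nonneg_left ?_ (QB.G_pos _).le
    exact (pow_le_pow_left₀ (norm_nonneg _) (norm_sum_le _ _) 2).trans sq_sum_le_card_mul_sum_sq
  refine (sum_le_sum h1).trans ?_
  rw [← mul_sum, sum_comm, sq, mul_assoc]
  refine mul_le_mul_of_nonneg_left ?_ (Nat.cast_nonneg _)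
  simpa using sum_le_card_nsmul T _ b fun j hj => h j hj s

/-- the index of the dyadic block -/
noncomputable def jf (P : ℝ) (p : O) : ℕ := Nat.log 2 ⌊P / N p⌋₊

theorem jf_spec {P : ℝ} {p : O} (hp : p ≠ 0) (h : (N p : ℝ) ≤ P) :
    P / 2 ^ jf P p ≤ 2 * N p ∧ (N p : ℝ) ≤ P / 2 ^ jf P p ∧ jf P p < Nat.log 2 ⌊P⌋₊ + 1 := by
  have h0 := N_pos_real hp
  have h1 := one_le_N hp
  have h2 : 1 ≤ P / N p := (one_le_div h0).2 h
  have h3 : ⌊P / N p⌋₊ ≠ 0 := (Nat.floor_pos.2 h2).ne'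
  have h4 : ((2 ^ jf P p : ℕ) : ℝ) ≤ P / N p :=
    (Nat.cast_le.2 (Nat.pow_log_le_self 2 h3)).trans (Nat.floor_le (by linarith))
  have h5 : P / N p < ((2 ^ (jf P p + 1) : ℕ) : ℝ) :=
    (Nat.floor_lt (by linarith)).1 (Nat.lt_pow_succ_log_self one_lt_two _)
  push_cast at h4 h5
  refine ⟨?_, ?_, Nat.lt_succ_of_le (Nat.log_mono_right (Nat.floor_mono ?_))⟩
  · rw [div_lt_iff₀ h0, pow_succ] at h5
    rw [div_le_iff₀ (by positivity)]
    linarith
  · rw [le_div_iff₀ h0] at h4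
    rw [le_div_iff₀ (by positivity)]
    linarith
  · exact div_le_self (by linarith) h1

theorem ind {Q : O} {K P D M β : ℝ} {J : ℕ} {S : ℕ → Finset O} {φ : O → ℝ} {a : O → ℂ}
    (hβ : 0 ≤ β) (hP : 1 ≤ P) (hK : P ≤ K ^ 2)
    (H : ∀ L, Good K J L → (∀ s ∈ L, ∀ p ∈ s.S, IsCoprime p Q) → PL L ≤ D →
      ML (fun m => a m * FL L m) M β) (I : Finset ℕ) :
    QX.Pc Q (4 * K) P I S φ → ∀ L, Good K J L → L.length + #I ≤ J →
      (∀ s ∈ L, ∀ p ∈ s.S, IsCoprime p Q) → (∀ s ∈ L, ∀ i ∈ I, Disjoint (S i) s.S) →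
      PL L * P ^ #I ≤ D → ML (fun m => a m * FL L m * QX.FF I S φ m) M
        (((Nat.log 2 ⌊P⌋₊ + 1 : ℕ) : ℝ) ^ (2 * #I) * β) := by
  induction I using Finset.induction_on with
  | empty =>
    intro _ L hL _ hc _ hD
    simpa [QX.FF] using H L hL hc (by simpa using hD)
  | insert i I hi ih =>
    intro hp L hL hl hc hd hD
    rw [card_insert_of_notMem hi] at hl hD ⊢
    have hpi := hp.pr i (mem_insert_self i I)
    set B : ℕ → Pi := fun j => ⟨(S i).filter fun p => jf P p = j, fun p => φ p, P / 2 ^ j⟩ with hB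
    have e : (fun m => a m * FL L m * QX.FF (insert i I) S φ m) = fun m =>
        ∑ j ∈ range (Nat.log 2 ⌊P⌋₊ + 1), a m * FL (B j :: L) m * QX.FF I S φ m := by
      funext m
      rw [QX.FF, prod_insert hi, QX.F1, ← sum_fiberwise_of_maps_to (g := jf P)
        fun p hp => mem_range.2 (jf_spec (hpi p hp).1.ne_zero (hpi p hp).2.2.2.2).2.2, sum_mul,
        mul_sum]
      refine sum_congr rfl fun j _ => ?_
      simp only [FL, hB, List.map_cons, List.prod_cons, QX.FF]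
      ring
    rw [e, show 2 * (#I + 1) = 2 + 2 * #I by ring, pow_add, mul_assoc]
    have h1 := ml_sum (range (Nat.log 2 ⌊P⌋₊ + 1))
      (fun j m => a m * FL (B j :: L) m * QX.FF I S φ m) (M := M)
      (b := ((Nat.log 2 ⌊P⌋₊ + 1 : ℕ) : ℝ) ^ (2 * #I) * β) fun j _ => ?_
    · rwa [card_range] at h1
    have hsub : (B j).S ⊆ S i := filter_subset _ _
    have hhi : (B j).hi ≤ P := div_le_self (by linarith) (one_le_pow₀ one_le_two)
    rcases (B j).S.eq_empty_or_nonempty with h0 | ⟨q, hq⟩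
    · intro s
      simp only [FL, List.map_cons, List.prod_cons, h0, sum_empty, zero_mul, mul_zero, norm_zero,
        ne_eq, OfNat.ofNat_ne_zero, not_false_eq_true, zero_pow, sum_const_zero]
      positivity
    have hpr : ∀ p ∈ (B j).S, Prime p ∧ Primary p ∧ (B j).hi ≤ 2 * N p ∧ (N p : ℝ) ≤ (B j).hi ∧
        ‖(B j).φ p‖ ≤ 1 := fun p hp' => by
      obtain ⟨h2, h3⟩ := mem_filter.1 hp'
      obtain ⟨a1, a2, -, -, a5⟩ := hpi p h2
      obtain ⟨b1, b2, -⟩ := jf_spec a1.ne_zero a5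
      rw [h3] at b1 b2
      refine ⟨a1, a2, b1, b2, ?_⟩
      simp only [hB, Complex.norm_real, Real.norm_of_nonneg (hp.w0 p)]
      exact hp.w1 p
    have hok : (B j).Ok K := ⟨hpr, by
      linarith [(hpr q hq).2.2.2.1, (hpi q (hsub hq)).2.2.2.1, hL.one], hhi.trans hK⟩
    refine ih (hp.mono (subset_insert i I)) (B j :: L)
      ⟨hL.one, by rw [List.length_cons]; omega, fun s hs => ?_, List.pairwise_cons.2
        ⟨fun s hs => (hd s hs i (mem_insert_self i I)).mono_left hsub, hL.dj⟩⟩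
      (by rw [List.length_cons]; omega) (fun s hs => ?_) (fun s hs i' hi' => ?_) ?_
    · rcases List.mem_cons.1 hs with rfl | hs
      exacts [hok, hL.ok s hs]
    · rcases List.mem_cons.1 hs with rfl | hs
      exacts [fun p hp' => (hpi p (hsub hp')).2.2.1, hc s hs]
    · rcases List.mem_cons.1 hs with rfl | hs
      · exact (hp.dj i' (mem_insert_of_mem hi') i (mem_insert_self i I)
          fun e => hi (e ▸ hi')).mono_right hsub
      · exact hd s hs i' (mem_insert_of_mem hi')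
    · refine le_trans ?_ hD
      have := hL.PL_pos
      calc PL (B j :: L) * P ^ #I ≤ P * PL L * P ^ #I := by rw [PL_cons]; gcongr
        _ = _ := by ring

theorem triv (hb : Base) (J : ℕ) {Z₁ : ℝ} (hZ : 1 ≤ Z₁) : ∃ C : ℝ, 0 < C ∧
    ∀ (Q : O) (ν : O → ℂ) (M X lo P t : ℝ) (I : Finset ℕ) (S : ℕ → Finset O) (φ : O → ℝ),
      IsNu Q ν → 1 ≤ M → 0 < X → X ≤ Z₁ → 1 ≤ P → P ≤ Z₁ → QX.Pc Q lo P I S φ → #I ≤ J →
      ∑ m ∈ (ball M).erase 0, ‖QX.FF I S φ m‖ ^ 2 * ‖A ν 1 m X t‖ ^ 2 ≤ C * (M * X) := by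
  obtain ⟨c, hc, h1⟩ := hb.cnt
  obtain ⟨c2, hc2, h2⟩ := QB.norm_Wsum_le (σ := 2) one_lt_two
  refine ⟨c * ((((1 + c) * Z₁) ^ J) ^ 2 * (c2 ^ 2 * Z₁ ^ 3)), by positivity,
    fun Q ν M X lo P t I S φ hν hM hX hXZ hP hPZ hp hJ => ?_⟩
  have a0 : 1 ≤ (1 + c) * Z₁ := one_le_mul_of_one_le_of_one_le (by linarith) hZ
  have a1 : ∀ m, ‖QX.FF I S φ m‖ ≤ ((1 + c) * Z₁) ^ J := fun m => by
    rw [QX.FF, norm_prod]
    refine (prod_le_prod (g := fun _ => (1 + c) * Z₁) (fun _ _ => norm_nonneg _)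
      fun i hi => ?_).trans ((prod_const _).le.trans (pow_le_pow_right₀ a0 hJ))
    refine (norm_sum_le _ _).trans ((sum_le_card_nsmul _ _ 1 fun p _ => ?_).trans ?_)
    · exact QB.norm_mul_le_one (by
        rw [Complex.norm_real, Real.norm_of_nonneg (hp.w0 p)]; exact hp.w1 p) (norm_psi_le _ _)
    · rw [nsmul_eq_mul, mul_one]
      refine (h1 P (S i) (by linarith) fun p hp' =>
        ⟨(hp.pr i hi p hp').1.ne_zero, (hp.pr i hi p hp').2.2.2.2⟩).trans ?_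
      gcongr
      linarith
  have a2 : ∀ m, ‖A ν 1 m X t‖ ^ 2 ≤ c2 ^ 2 * Z₁ ^ 3 * X := fun m => by
    have := h2 _ X t (QB.bd1_uA hν 1 m).2 hX
    rw [Real.rpow_two] at this
    calc _ ≤ (c2 * X ^ 2) ^ 2 := pow_le_pow_left₀ (norm_nonneg _) this 2
      _ = c2 ^ 2 * X ^ 3 * X := by ring
      _ ≤ _ := by gcongr
  refine (sum_le_card_nsmul _ _ ((((1 + c) * Z₁) ^ J) ^ 2 * (c2 ^ 2 * Z₁ ^ 3 * X)) fun m _ =>
    mul_le_mul (pow_le_pow_left₀ (norm_nonneg _) (a1 m) 2) (a2 m) (by positivity)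
      (by positivity)).trans ?_
  rw [nsmul_eq_mul]
  refine (mul_le_mul_of_nonneg_right (h1 M _ (by linarith) fun m hm =>
    ⟨(mem_erase.1 hm).1, mem_ball.1 (mem_erase.1 hm).2⟩) (by positivity)).trans (le_of_eq ?_)
  ring

end FinP

open FinP in
theorem pT1 (hb : Base) (h : ∀ Q : O, Q ≠ 0 → 36 ∣ Q → S_Dy Q) : QX.S_T1 := by
  refine ⟨23, fun Q hQ0 hQ ε η hε hη J => ?_⟩
  set η1 := min (η / 4) (ε / 100) with hη1
  have hη0 : 0 < η1 := lt_min (by linarith) (by linarith)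
  obtain ⟨C0, Z0, hC0, h0⟩ := h Q hQ0 hQ J (ε / 8) η1 (by linarith) hη0
  obtain ⟨C1, hC1, h1⟩ := succ_le_rpow (show 0 < ε / (8 * (J + 1)) by positivity)
  set Z1 := max (max Z0 1) (4 ^ (2 / η)) with hZ1
  obtain ⟨C2, hC2, h2⟩ := triv hb J (show 1 ≤ Z1 from (le_max_right _ _).trans (le_max_left _ _))
  have hC3 : 0 < Real.exp a0 * (C1 ^ (2 * J) * (2 * C0)) := by positivity
  refine ⟨C2 + Real.exp a0 * (C1 ^ (2 * J) * (2 * C0)), 16, by positivity,
    fun ν Z M X lo P t I S φ hν hM hMZ hX hXZ hP hPZ hlo hP4 hp hJ hI => ?_⟩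
  have hZ : 1 ≤ Z := hM.trans hMZ
  have hZ0 : 0 < Z := by linarith
  have ht : 1 ≤ (1 + |t|) ^ 16 := one_le_pow₀ (by linarith [abs_nonneg t])
  have hD : 1 ≤ P ^ #I := one_le_pow₀ hP
  have hP23 : 1 ≤ P ^ 23 := one_le_pow₀ hP
  have hZε : 1 ≤ Z ^ ε := Real.one_le_rpow hZ hε.le
  rw [mul_comm 2 #I, pow_mul P]
  set D := P ^ #I with hDe
  rcases le_total Z Z1 with hs | hs
  · refine (h2 Q ν M X lo P t I S φ hν hM hX (hXZ.trans hs) hP (hPZ.trans hs) hp hJ).trans ?_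
    calc C2 * (M * X) = C2 * 1 * 1 * 1 * ((M + 0) * (X * 1)) := by ring
      _ ≤ _ := by gcongr <;> first | positivity | linarith
  have b0 : Z ≤ Z ^ 2 := le_self_pow₀ hZ two_ne_zero
  have b1 : Z0 ≤ Z ^ 2 := (((le_max_left _ _).trans (le_max_left _ _)).trans hs).trans b0
  have b2 : 4 ≤ Z ^ (η / 2) := by
    have := Real.rpow_le_rpow (by positivity) ((le_max_right _ _).trans hs)
      (show 0 ≤ η / 2 by linarith)
    rwa [← Real.rpow_mul (by norm_num), show 2 / η * (η / 2) = 1 by field_simp,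
      Real.rpow_one] at this
  have b3 : ∀ x : ℝ, (Z ^ 2) ^ x = Z ^ (2 * x) := fun x => by
    rw [← Real.rpow_two, ← Real.rpow_mul hZ0.le]
  have b4 : M ≤ (Z ^ 2) ^ 4 := hMZ.trans (b0.trans (le_self_pow₀ (one_le_pow₀ hZ) (by norm_num)))
  have b5 : D ^ 4 ≤ M + X * D ^ 2 ∧ D ≤ Z := by
    rcases hI with rfl | hI
    · simp only [hDe, card_empty, pow_zero, one_pow]
      exact ⟨by linarith, hZ⟩
    · rw [mul_comm, pow_mul] at hI
      exact ⟨by nlinarith [one_le_pow₀ (n := 2) hD],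
        (le_self_pow₀ hD (by norm_num)).trans (hI.trans hXZ)⟩
  have key : ∀ K n : ℝ, (Z ^ 2) ^ η1 ≤ K → K ^ 23 ≤ Z ^ (ε / 2) * P ^ 23 →
      0 ≤ n → n ≤ C1 ^ (2 * J) * Z ^ (ε / 4) →
      (∀ β, 0 ≤ β → (∀ L, Good K J L → (∀ s ∈ L, ∀ p ∈ s.S, IsCoprime p Q) → PL L ≤ D →
        ML (fun m => A ν 1 m X t * FL L m) M β) →
        ML (fun m => A ν 1 m X t * QX.FF I S φ m) M (n * β)) →
      ∑ m ∈ (ball M).erase 0, ‖QX.FF I S φ m‖ ^ 2 * ‖A ν 1 m X t‖ ^ 2 ≤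
        (C2 + Real.exp a0 * (C1 ^ (2 * J) * (2 * C0))) * (1 + |t|) ^ 16 * Z ^ ε * P ^ 23 *
          ((M + X * D ^ 2) * (X * D)) := by
    intro K n k1 k2 k3 k4 k5
    have k0 : 0 ≤ K := le_trans (by positivity) k1
    have k6 := (k5 (C0 * (Z ^ 2) ^ (ε / 8) * K ^ 23 * (1 + |t|) ^ 16 *
      ((M + X * D ^ 2 + D ^ 4) * (X * D))) (by positivity) fun L hL hc hl =>
      (h0 ν K L (Z ^ 2) M X t b1 k1 hν hL hc (by linarith) b4 hX (by
        rw [sq]; exact mul_le_mul hXZ (hl.trans b5.2) hL.PL_pos.le hZ0.le)).mono (by linarith)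
        le_rfl (by have := hL.PL_pos; gcongr)).sharp (by linarith) ((ball M).erase 0)
      fun m hm => mem_ball.1 (mem_erase.1 hm).2
    simp only [norm_mul, mul_pow, mul_comm (‖A ν 1 _ X t‖ ^ 2)] at k6
    refine k6.trans ?_
    have e : Z ^ ε = Z ^ (ε / 4) * (Z ^ 2) ^ (ε / 8) * Z ^ (ε / 2) := by
      rw [b3, ← Real.rpow_add hZ0, ← Real.rpow_add hZ0]
      congr 1
      ring
    calc _ ≤ Real.exp a0 * (C1 ^ (2 * J) * Z ^ (ε / 4) * (C0 * (Z ^ 2) ^ (ε / 8) *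
          (Z ^ (ε / 2) * P ^ 23) * (1 + |t|) ^ 16 *
          ((M + X * D ^ 2 + (M + X * D ^ 2)) * (X * D)))) := by
          have := b5.1
          gcongr
      _ = Real.exp a0 * (C1 ^ (2 * J) * (2 * C0)) * (1 + |t|) ^ 16 * Z ^ ε * P ^ 23 *
          ((M + X * D ^ 2) * (X * D)) := by rw [e]; ring
      _ ≤ _ := by gcongr; linarith
  have b6 : 1 ≤ C1 ^ (2 * J) * Z ^ (ε / 4) :=
    one_le_mul_of_one_le_of_one_le (one_le_pow₀ hC1) (Real.one_le_rpow hZ (by linarith))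
  rcases I.eq_empty_or_nonempty with rfl | ⟨i, hi⟩
  · refine key _ 1 le_rfl ?_ zero_le_one b6 fun β _ H => ?_
    · refine le_trans ?_ (le_mul_of_one_le_right (by positivity) hP23)
      rw [b3, ← Real.rpow_natCast, ← Real.rpow_mul hZ0.le]
      refine Real.rpow_le_rpow_of_exponent_le hZ ?_
      have := min_le_right (η / 4) (ε / 100)
      push_cast
      linarith
    · simpa [FL, QX.FF] using H [] (good_nil (Real.one_le_rpow (one_le_pow₀ hZ) hη0.le) J)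
        (by simp) (by simpa using hD)
  rcases lt_or_ge P lo with hl | hl
  · have e : ∀ m, QX.FF I S φ m = 0 := fun m => prod_eq_zero hi (sum_eq_zero fun p hp' => by
      linarith [(hp.pr i hi p hp').2.2.2.1, (hp.pr i hi p hp').2.2.2.2])
    simp only [e, norm_zero, ne_eq, OfNat.ofNat_ne_zero, not_false_eq_true, zero_pow, zero_mul,
      sum_const_zero]
    positivity
  have c1 : (Z ^ 2) ^ η1 ≤ lo / 4 := by
    have c2 : (Z ^ 2) ^ η1 ≤ Z ^ (η / 2) := by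
      rw [b3]
      exact Real.rpow_le_rpow_of_exponent_le hZ (by linarith [min_le_left (η / 4) (ε / 100)])
    have c3 : Z ^ η = Z ^ (η / 2) * Z ^ (η / 2) := by
      rw [← Real.rpow_add hZ0, add_halves]
    nlinarith
  have c2 : 1 ≤ lo / 4 := (Real.one_le_rpow (one_le_pow₀ hZ) hη0.le).trans c1
  have c3 : P ≤ (lo / 4) ^ 2 := by
    refine (pow_le_pow_iff_left₀ (by linarith) (by positivity) (by norm_num : 4 ≠ 0)).1
      (hP4.trans ?_)
    rw [← pow_mul]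
    exact pow_le_pow_right₀ c2 (by norm_num)
  refine key (lo / 4) (((Nat.log 2 ⌊P⌋₊ + 1 : ℕ) : ℝ) ^ (2 * #I)) c1 ?_ (by positivity) ?_
    fun β hβ H => ?_
  · exact (pow_le_pow_left₀ (by linarith) (by linarith) 23).trans
      (le_mul_of_one_le_left (by positivity) (Real.one_le_rpow hZ (by linarith)))
  · have c4 : ((2 ^ Nat.log 2 ⌊P⌋₊ : ℕ) : ℝ) ≤ Z :=
      ((Nat.cast_le.2 (Nat.pow_log_le_self 2 (Nat.floor_pos.2 hP).ne')).trans
        (Nat.floor_le (by linarith))).trans hPZ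
    have c5 : ((Nat.log 2 ⌊P⌋₊ + 1 : ℕ) : ℝ) ≤ C1 * Z ^ (ε / (8 * (J + 1))) := by
      push_cast at c4 ⊢
      exact (h1 _ 2 le_rfl).trans (by gcongr)
    refine (pow_le_pow_right₀ (by exact_mod_cast Nat.succ_pos _) (Nat.mul_le_mul_left 2 hJ)).trans
      ((pow_le_pow_left₀ (by positivity) c5 _).trans ?_)
    rw [mul_pow, ← Real.rpow_natCast (Z ^ _), ← Real.rpow_mul hZ0.le]
    refine mul_le_mul_of_nonneg_left (Real.rpow_le_rpow_of_exponent_le hZ ?_) (by positivity)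
    rw [div_mul_eq_mul_div, div_le_div_iff₀ (by positivity) (by norm_num)]
    push_cast
    nlinarith
  · simpa [FL] using ind hβ hP c3 H I (by rwa [mul_div_cancel₀ _ (by norm_num)]) []
      (good_nil c2 J) (by simpa using hJ) (by simp) (by simp) (by simp [hDe])

end Pool.Agent.P.MP_323ce2_nt.Q1
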