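import Pool.Agent.P.MP_323ce2_nt.Q1.St

/-! The pieces as one sum over squarefree levels. -/

namespace Pool.Agent.P.MP_323ce2_nt.Q1

open Finset Pool.Agent.P.MP_26a8c3_nt Pool.Agent.P.MP_26a8c3_nt.QO Pool.Agent.P.MP_26a8c3_nt.QA
open Pool.Agent.P.MP_26a8c3_nt.QB (ML ML0 Bd1 ps al cd Base S_PT S_SW)
open scoped Classical ComplexConjugate

namespace Flat

lemma dvd_quo {a d e : O} (hd : d ≠ 0) (h : d ∣ a) : e ∣ quo a d ↔ d * e ∣ a := by
  conv_rhs => rw [← mul_quo h]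
  exact (mul_dvd_mul_iff_left hd).symm

lemma quo_quo {a d e : O} (hd : d ≠ 0) (he : e ≠ 0) (h : d * e ∣ a) :
    quo (quo a d) e = quo a (d * e) := by
  obtain ⟨c, rfl⟩ := h
  rw [quo_mul (mul_ne_zero hd he), mul_assoc, quo_mul hd, quo_mul he]

lemma fib {T : Finset (O × O)} (inj : Set.InjOn (fun x : O × O => x.1 * x.2) T)
    (g : O × O → ℂ) : ∃ F : O → ℂ, ∀ x ∈ T, F (x.1 * x.2) = g x := by
  refine ⟨fun D => ∑ x ∈ T.filter (fun x => x.1 * x.2 = D), g x, fun x hx => ?_⟩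
  refine sum_eq_single_of_mem x (mem_filter.2 ⟨hx, rfl⟩) fun y hy hne => ?_
  exact absurd (inj (mem_filter.1 hy).1 hx (mem_filter.1 hy).2) hne

lemma main {K : ℝ} {J : ℕ} (L : List Pi) (h : Good K J L) : ∃ (S : Finset O) (F : O → ℂ),
    (∀ D ∈ S, SQ D ∧ (N D : ℝ) ≤ PL L ∧ ‖F D‖ ≤ 1 ∧
      ∀ q, Prime q → Fr L q → ¬ q ∣ D) ∧
    (∀ u c, op L u c = ∑ D ∈ S, F D * u (D * c)) ∧
    ∀ X t n, om L X t n = ∑ D ∈ S, if D ∣ n then F D * W X t (nr (quo n D)) else 0 := by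
  induction L with
  | nil =>
    refine ⟨{1}, fun _ => 1, fun D hD => ?_, fun u c => by simp [op], fun X t n => ?_⟩
    · rw [mem_singleton.1 hD]
      exact ⟨sq_one, by simp, by simp, fun q hq _ hd => hq.not_isUnit (isUnit_of_dvd_one hd)⟩
    · have : quo n 1 = n := by simpa using quo_mul (b := 1) one_ne_zero n
      simp [om, this]
  | cons s L ih =>
    obtain ⟨S, F, h1, h2, h3⟩ := ih h.tail
    have nd : ∀ p ∈ s.S, ∀ D ∈ S, ¬ p ∣ D := fun p hp D hD =>
      (h1 D hD).2.2.2 p (h.head.pr p hp).1 (h.fr hp)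
    have inj : Set.InjOn (fun x : O × O => x.1 * x.2) (s.S ×ˢ S : Finset (O × O)) := by
      rintro ⟨p, D⟩ hx ⟨q, E⟩ hy e
      obtain ⟨hp, hD⟩ := mem_product.1 (mem_coe.1 hx)
      obtain ⟨hq, hE⟩ := mem_product.1 (mem_coe.1 hy)
      obtain ⟨p1, p2, -⟩ := h.head.pr p hp
      obtain ⟨q1, q2, -⟩ := h.head.pr q hq
      have e' : p * D = q * E := e
      have hd : p ∣ q := (p1.dvd_or_dvd (e' ▸ dvd_mul_right p D)).resolve_right (nd p hp E hE)
      obtain rfl : p = q := p2.eq_of_associated q2 (p1.associated_of_dvd q1 hd)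
      rw [mul_left_cancel₀ p1.ne_zero e']
    obtain ⟨F', hF⟩ := fib inj fun x => s.φ x.1 * F x.2
    refine ⟨(s.S ×ˢ S).image fun x => x.1 * x.2, F', fun D' hD' => ?_, fun u c => ?_,
      fun X t n => ?_⟩
    · obtain ⟨⟨p, D⟩, hx, rfl⟩ := mem_image.1 hD'
      obtain ⟨hp, hD⟩ := mem_product.1 hx
      obtain ⟨p1, p2, -, p4, p5⟩ := h.head.pr p hp
      obtain ⟨d1, d2, d3, d4⟩ := h1 D hD
      refine ⟨SQ.mul ⟨p2, p1.squarefree⟩ d1 (p1.irreducible.coprime_iff_not_dvd.2 (nd p hp D hD)),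
        ?_, ?_, fun q hq hf hd => ?_⟩
      · rw [map_mul, Nat.cast_mul, PL_cons]
        exact mul_le_mul p4 d2 (Nat.cast_nonneg _) ((Nat.cast_nonneg _).trans p4)
      · rw [hF _ hx, norm_mul]
        exact mul_le_one₀ p5 (norm_nonneg _) d3
      · rcases hq.dvd_or_dvd hd with hd | hd
        · exact hf s List.mem_cons_self p hp (hq.associated_of_dvd p1 hd).symm.dvd
        · exact d4 q hq (fun s' hs' => hf s' (List.mem_cons_of_mem _ hs')) hd
    · rw [sum_image inj, sum_product, sum_comm]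
      simp only [op]
      rw [h2]
      refine sum_congr rfl fun D hD => ?_
      rw [Pi.T, mul_sum]
      refine sum_congr rfl fun p hp => ?_
      rw [hF (p, D) (mem_product.2 ⟨hp, hD⟩), mul_assoc p]
      ring
    · rw [sum_image inj, sum_product]
      simp only [om]
      refine sum_congr rfl fun p hp => ?_
      have p0 := (h.head.pr p hp).1.ne_zero
      split_ifs with hn
      · rw [h3, mul_sum]
        refine sum_congr rfl fun D hD => ?_
        rw [hF (p, D) (mem_product.2 ⟨hp, hD⟩)]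
        by_cases hd : p * D ∣ n
        · rw [if_pos hd, if_pos ((dvd_quo p0 hn).2 hd), quo_quo p0 (h1 D hD).1.ne_zero hd,
            mul_assoc]
        · rw [if_neg hd, if_neg fun h' => hd ((dvd_quo p0 hn).1 h'), mul_zero]
      · exact (sum_eq_zero fun D _ => if_neg fun hd => hn ((dvd_mul_right p D).trans hd)).symm

end Flat

theorem pFlat : S_Flat := fun _ _ L h => by
  obtain ⟨S, F, h1, h2, h3⟩ := Flat.main L h
  exact ⟨S, F, fun D hD => ⟨(h1 D hD).1, (h1 D hD).2.1, (h1 D hD).2.2.1⟩, h2, h3⟩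

end Pool.Agent.P.MP_323ce2_nt.Q1
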