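import Pool.Agent.P.MP_323ce2_nt.Q1.St
import Pool.Agent.P.MP_26a8c3_nt.QB.Head

/-! The head of the first step: Poisson summation to the theta side, with pieces. -/

namespace Pool.Agent.P.MP_323ce2_nt.Q1

open Finset Pool.Agent.P.MP_26a8c3_nt Pool.Agent.P.MP_26a8c3_nt.QO Pool.Agent.P.MP_26a8c3_nt.QA
open Pool.Agent.P.MP_26a8c3_nt.QB (ML ML0 Bd1 ps al cd Base S_PT S_SW norm_mul_le_one)
open Pool.Agent.P.MP_26a8c3_nt.QB.Head (uu nk vv norm_uu uu_zero sqo_uu sq_of_al key conj_xi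
  norm_bb norm_div_ab norm_ze bd1_vv)
open scoped Classical ComplexConjugate

namespace Head

/-- the summand of `KD` -/
noncomputable def kd (α : O → ℂ) (β : ℝ) (x : O × O) : ℂ :=
  α x.1 / (ab x.1 : ℂ) * conj (α x.2 / (ab x.2 : ℂ)) * (G (β / (nr x.1 * nr x.2)) : ℝ)

variable {Q e f : O} {ν w : O → ℂ} {X t K : ℝ} {J : ℕ} {L : List Pi}

/-- the head term as a double sum over the quotients -/
lemma HH_eq (hA : Alg) (ho : Om) (hL : Good K J L) (he : SQ e) (hK : (N e : ℝ) ≤ K) (hf : f ∣ e)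
    (hX : 0 < X) (m : O) :
    HH (aV ν L X t) e (f ^ 2 * m) = ∑' x : O × O, uu ν e f t x.1 * om L (X / N e) t x.1 *
      conj (uu ν e f t x.2 * om L (X / N e) t x.2) * KK x.1 x.2 m := by
  have he0 := he.ne_zero
  have hinj : Function.Injective fun x : O × O => ((e * x.1, e * x.2) : O × O) := fun x y h =>
    Prod.ext (mul_left_cancel₀ he0 (congrArg Prod.fst h))
      (mul_left_cancel₀ he0 (congrArg Prod.snd h))
  rw [HH, ← hinj.tsum_eq]
  · refine tsum_congr fun x => ?_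
    obtain ⟨a, c⟩ := x
    simp only [dvd_mul_right, and_self, if_true, quo_mul he0, aV]
    by_cases h1 : al ν (e * a) = 0
    · simp [uu, h1]
    by_cases h2 : al ν (e * c) = 0
    · simp [uu, h2]
    have s1 := sq_of_al h1
    have s2 := sq_of_al h2
    have a1 := s1.right he.1
    have a2 := s2.right he.1
    have fr := hL.fr_of_le he0 hK
    rw [hA.k.2.2.2.1 a c f m a1 a2
      ((s1.coprime.mul_right s2.coprime).of_isCoprime_of_dvd_left hf),
      ho.sh K J L X t e a hL hX he0 a1.ne_zero fr, ho.sh K J L X t e c hL hX he0 a2.ne_zero fr]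
    simp only [uu, map_mul]
    ring
  · intro x hx
    have h1 := right_ne_zero_of_mul hx
    by_cases h : e ∣ x.1 ∧ e ∣ x.2
    · obtain ⟨⟨a, ha⟩, c, hc⟩ := h
      exact ⟨(a, c), Prod.ext ha.symm hc.symm⟩
    · exact absurd (if_neg h) h1

lemma norm_kd_le (α : O → ℂ) {β : ℝ} (hβ : 0 ≤ β) (x : O × O) :
    ‖kd α β x‖ ≤ ‖α x.1‖ * ‖α x.2‖ := by
  have h1 := nr_pos x.1
  have h2 := nr_pos x.2
  rw [kd, norm_mul, norm_mul, Complex.norm_conj, Complex.norm_real,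
    Real.norm_of_nonneg (G_pos _).le]
  refine (mul_le_of_le_one_right (by positivity) (QB.G_le_one (by positivity))).trans ?_
  exact mul_le_mul (norm_div_ab _ _) (norm_div_ab _ _) (norm_nonneg _) (norm_nonneg _)

lemma summable_mul {u : O → ℂ} (hu : ∀ c, ‖u c‖ ≤ 1) (hw : Dc w) {k : ℕ} (hk : k ≤ 4) :
    Summable fun c => ‖u c * w c‖ * (N c : ℝ) ^ k :=
  Summable.of_nonneg_of_le (fun _ => by positivity) (fun c => by
    rw [norm_mul]
    exact mul_le_mul_of_nonneg_right (mul_le_of_le_one_left (norm_nonneg _) (hu c))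
      (by positivity)) (hw.summable hk)

lemma summable_kd {u : O → ℂ} (hu : ∀ c, ‖u c‖ ≤ 1) (hw : Dc w) {β : ℝ} (hβ : 0 ≤ β) :
    Summable (kd (fun c => u c * w c) β) := by
  have h : Summable fun c => ‖u c * w c‖ := by
    simpa only [pow_zero, mul_one] using summable_mul hu hw (Nat.zero_le 4)
  exact Summable.of_norm_bounded (h.mul_of_nonneg h (fun _ => norm_nonneg _)
    fun _ => norm_nonneg _) (norm_kd_le _ hβ)

/-- the zero frequency -/
lemma norm_KD_zero (hA : Alg) (hν : IsNu Q ν) (he : e ≠ 0) {k : O} (hk : IsNu Q (nk ν k))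
    (hw : ‖w 1‖ ≤ 1) {β : ℝ} (hβ : 0 ≤ β) : ‖KD (fun c => vv ν e f t k 0 c * w c) β‖ ≤ 1 := by
  have h0 : ∀ c, c ≠ 1 → vv ν e f t k 0 c = 0 := fun c hc => by
    unfold vv uB
    split_ifs with h
    · have : psi c 0 = 0 := (psi_eq_zero h.ne_zero).2 fun hc' =>
        hc (h.1.eq_one_of_isUnit (isCoprime_zero_left.1 hc'))
      simp [Phi, this]
    · simp
  have h1 : KD (fun c => vv ν e f t k 0 c * w c) β =
      kd (fun c => vv ν e f t k 0 c * w c) β (1, 1) := by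
    refine tsum_eq_single (1, 1) fun x hx => ?_
    by_cases h : x.1 = 1
    · have : x.2 ≠ 1 := fun h' => hx (Prod.ext h h')
      simp [h0 _ this]
    · simp [h0 _ h]
  have h2 : ‖vv ν e f t k 0 1 * w 1‖ ≤ 1 := norm_mul_le_one ((bd1_vv hA hν he hk 0).2 1) hw
  rw [h1]
  exact (norm_kd_le _ hβ _).trans (mul_le_one₀ h2 (norm_nonneg _) h2)

/-- the dual sum, class by class -/
lemma dual_eq (hA : Alg) (hQ : 36 ∣ Q) (hν : IsNu Q ν) (he : SQ e) {κ : O → ℂ}
    (hκ : ∀ a, Od a → gam a = ∑ k ∈ cls, κ k * xi k a) (w : O → ℂ) (P : ℝ) (h : O) (x : O × O) :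
    uu ν e f t x.1 * w x.1 / (ab x.1 : ℂ) * conj (uu ν e f t x.2 * w x.2 / (ab x.2 : ℂ)) *
      (mu x.1 * mu x.2 * gam (x.1 * x.2) * bb x.1 * conj (bb x.2)) *
      (conj (psi x.1 h) * psi x.2 h) * (G (P * N h / (N x.1 * N x.2)) : ℝ) =
      ∑ k ∈ cls, κ k * kd (fun c => vv ν e f t k h c * w c) (P * N h) x := by
  obtain ⟨a, c⟩ := x
  simp only [kd, ← key hν he]
  by_cases h1 : uu ν e f t a = 0
  · simp [h1]
  by_cases h2 : uu ν e f t c = 0
  · simp [h2]
  have s1 := sqo_uu hQ hν he h1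
  have s2 := sqo_uu hQ hν he h2
  rw [hκ _ (od_mul.2 ⟨s1.2, s2.2⟩), nr_eq s1.1.ne_zero, nr_eq s2.1.ne_zero]
  simp only [mul_sum, sum_mul]
  refine sum_congr rfl fun k hk => ?_
  have hk' := hA.gam.2.2.2.2.2.2.2.1 k hk
  rw [(hA.gam.2.2.2.2.2.2.1 k hk').mul]
  simp only [map_mul, map_div₀, conj_xi hA hk', conj_mu, Complex.conj_conj]
  ring

/-- the moment bound for the dual coefficients -/
lemma moment (hν : IsNu Q ν) (he : SQ e) (hf : f ∈ pdiv e) {E b U : ℝ} (hE : (N e : ℝ) ≤ E)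
    (hX : 1 ≤ X) (hU : 0 < U) (hb : 0 ≤ b) (hL : Good K J L)
    (hS : SB Q K J (PL L) X (3 * E) U b) {k : O} (hk : IsNu Q (nk ν k))
    (s : Finset O) (hs : 0 ∉ s) {y X' : ℝ} (t' : ℝ) (hy : U ≤ y)
    (h1 : Real.exp (-1) * (X / N e) ≤ X') (h2 : X' ≤ Real.exp 7 * (X / N e)) :
    ∑ h ∈ s.filter (fun h => (N h : ℝ) ≤ y), ‖V (vv ν e f t k h) L X' t'‖ ^ 2 ≤
      Real.exp a0 * b * E ^ 50 * (y / U) ^ 12 * (1 + |t'|) ^ 16 := by
  have he0 := he.ne_zero
  obtain ⟨hf1, hf2⟩ := (mem_pdiv he0).1 hf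
  have e1 := one_le_N he0
  have hE1 : 1 ≤ E := e1.trans hE
  rcases lt_or_ge y 1 with y1 | y1
  · rw [filter_false_of_mem fun h hh => not_le.2 (y1.trans_le (one_le_N fun e0 => hs (e0 ▸ hh))),
      sum_empty]
    positivity
  have hyV : 1 ≤ y / U := (one_le_div hU).2 hy
  have hz : 1 ≤ y / U * E ^ 10 := one_le_mul_of_one_le_of_one_le hyV (one_le_pow₀ hE1)
  have ez : y / U * E ^ 10 * U = y * E ^ 10 := by field_simp
  have t0 : f ^ 4 * e ^ 6 ≠ 0 := mul_ne_zero (pow_ne_zero _ hf1.ne_zero) (pow_ne_zero _ he0)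
  have tN : (N (f ^ 4 * e ^ 6) : ℝ) ≤ E ^ 10 := by
    have : (N f : ℝ) ≤ E := le_trans (by exact_mod_cast N_le_of_dvd hf2 he0) hE
    rw [map_mul, map_pow, map_pow]
    push_cast
    calc (N f : ℝ) ^ 4 * (N e : ℝ) ^ 6 ≤ E ^ 4 * E ^ 6 := by gcongr
      _ = E ^ 10 := by ring
  have l1 : X / (3 * E) ≤ X' := by
    refine le_trans ?_ h1
    have e3 : Real.exp 1 ≤ 3 := Real.exp_one_lt_three.le
    rw [Real.exp_neg, inv_mul_eq_div, div_div, mul_comm (N e : ℝ)]
    gcongr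
  have l2 : X' ≤ Real.exp 7 * X :=
    h2.trans (mul_le_mul_of_nonneg_left (div_le_self (by linarith) e1) (Real.exp_pos _).le)
  have hm := (hS _ hk L hL rfl _ X' t' hz (ez ▸ one_le_mul_of_one_le_of_one_le y1 (one_le_pow₀ hE1))
    l1 l2).sharp (by positivity)
    ((s.filter fun h => (N h : ℝ) ≤ y).image (· * (f ^ 4 * e ^ 6))) (fun h0 => by
      obtain ⟨h, hh, e0⟩ := mem_image.1 h0
      exact hs (((mul_eq_zero.1 e0).resolve_right t0) ▸ (mem_filter.1 hh).1)) fun m hm => by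
      obtain ⟨h, hh, rfl⟩ := mem_image.1 hm
      rw [map_mul, Nat.cast_mul, ez]
      exact mul_le_mul (mem_filter.1 hh).2 tN (Nat.cast_nonneg _) (hU.le.trans hy)
  rw [sum_image fun a _ c _ h => mul_right_cancel₀ t0 h] at hm
  refine le_trans (sum_le_sum fun h _ => ?_) (hm.trans ?_)
  · have : V (vv ν e f t k h) L X' t' = mu e * ν e * ((N e : ℝ) : ℂ) ^ ((t : ℂ) * Complex.I) *
        V (uB (nk ν k) (h * (f ^ 4 * e ^ 6))) L X' t' := V_smul _ _ _ _ _
    rw [this, norm_mul]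
    exact pow_le_pow_left₀ (by positivity)
      (mul_le_of_le_one_left (norm_nonneg _) (norm_ze hν he0)) 2
  · have : (y / U) ^ 5 ≤ (y / U) ^ 12 := pow_le_pow_right₀ hyV (by norm_num)
    calc Real.exp a0 * (b * (y / U * E ^ 10) ^ 5 * (1 + |t'|) ^ 16)
        = Real.exp a0 * b * E ^ 50 * (y / U) ^ 5 * (1 + |t'|) ^ 16 := by ring
      _ ≤ _ := by gcongr

end Head

open Head

theorem pHead (hA : Alg) (hb : Base) (ho : Om) (hp : S_PT) (hd : S_DL) : S_Head := by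
  intro J ε hε
  obtain ⟨C, hC, hd⟩ := hd J ε hε
  obtain ⟨κ, hκ1, hκ⟩ := hA.gam.2.2.2.2.2.2.2.2.2.2.2
  refine ⟨2 + 2 * (C * 2 ^ ε * Real.exp a0), by positivity, ?_⟩
  intro Q ν e f K L E M X t U b hQ hν hL he hf hE hK hX hM0 hU hUX hM hb0 hS
  have he0 := he.ne_zero
  obtain ⟨hf1, hf2⟩ := (mem_pdiv he0).1 hf
  have e1 := one_le_N he0
  have f1 := one_le_N hf1.ne_zero
  have fe : (N f : ℝ) ≤ N e := by exact_mod_cast N_le_of_dvd hf2 he0
  have hX0 : 0 < X := by linarith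
  have hP : 0 < M / (N f : ℝ) ^ 2 := by positivity
  have hXe : 0 < X / N e := by positivity
  have hPL := hL.PL_pos
  have hk : ∀ k ∈ cls, IsNu Q (nk ν k) := fun k hk => (hb.nu Q ν k hQ hν hk).1
  have hPV : (X / N e * PL L) ^ 2 ≤ M / (N f : ℝ) ^ 2 * U := by
    rw [div_mul_eq_mul_div, div_pow, div_mul_eq_mul_div]
    gcongr
  have hw := ho.dc K J L (X / N e) t hL hXe
  have hw1 : ‖om L (X / N e) t 1‖ ≤ 1 := (ho.sup K J L _ t 1 hL one_ne_zero).trans dv_one.le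
  simp only [HH_eq hA ho hL he (hE.trans hK) hf2 hX0]
  set w := om L (X / N e) t with hwd
  set P := M / (N f : ℝ) ^ 2 with hPd
  set T := E ^ 51 * X ^ ε * (X * PL L)⁻¹ * b * (1 + |t|) ^ 16 with hT
  have hE0 : 0 < E := by linarith
  have hT0 : 0 ≤ T := mul_nonneg (mul_nonneg (mul_nonneg (mul_nonneg (pow_nonneg hE0.le _)
    (Real.rpow_nonneg hX0.le _)) (inv_nonneg.2 (mul_pos hX0 hPL).le)) hb0)
    (pow_nonneg (add_nonneg zero_le_one (abs_nonneg t)) _)
  have c0 : 0 ≤ C * 2 ^ ε * Real.exp a0 := by positivity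
  -- one class
  have one : ∀ k ∈ cls, ∀ s : Finset O, 0 ∉ s →
      ∑ h ∈ s, ‖KD (fun c => vv ν e f t k h c * w c) (P * N h)‖ ≤
        C * 2 ^ ε * Real.exp a0 * T := by
    intro k hk' s hs
    have h1 := hd O s (fun _ => 1) (fun h => N h) (fun h => vv ν e f t k h) K L (X / N e) t P U
      (Real.exp a0 * b * E ^ 50) hL hXe hP hU hPV (by positivity) (fun h hh =>
        ⟨zero_le_one, one_le_N fun e0 : h = 0 => hs (e0 ▸ hh), bd1_vv hA hν he0 (hk k hk') _⟩)
      fun L' hL' eL y X' t' hy l1 l2 => by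
        simpa only [one_mul] using
          moment (t := t) hν he hf hE hX hU hb0 hL' (eL ▸ hS) (hk k hk') s hs t' hy l1 l2
    simp only [one_mul] at h1
    refine h1.trans ?_
    have v2 : (1 + U) ^ ε ≤ 2 ^ ε * X ^ ε := by
      rw [← Real.mul_rpow (by norm_num) hX0.le]
      exact Real.rpow_le_rpow (by positivity) (by linarith) hε.le
    have v3 : (X / N e * PL L)⁻¹ ≤ E * (X * PL L)⁻¹ := by
      rw [div_mul_eq_mul_div, inv_div, div_eq_mul_inv]
      gcongr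
    calc C * (1 + U) ^ ε * (X / N e * PL L)⁻¹ * (Real.exp a0 * b * E ^ 50) * (1 + |t|) ^ 16
        ≤ C * (2 ^ ε * X ^ ε) * (E * (X * PL L)⁻¹) * (Real.exp a0 * b * E ^ 50) *
            (1 + |t|) ^ 16 := by gcongr
      _ = _ := by rw [hT]; ring
  set D : O → ℂ := fun h => ∑ k ∈ cls, κ k * KD (fun c => vv ν e f t k h c * w c) (P * N h)
    with hD
  have hDn : ∀ h, ‖D h‖ ≤ ∑ k ∈ cls, ‖κ k‖ * ‖KD (fun c => vv ν e f t k h c * w c) (P * N h)‖ :=
    fun h => norm_sum_le_of_le _ fun k _ => (norm_mul _ _).le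
  have hsq : ∀ a, uu ν e f t a * w a ≠ 0 → SQO a := fun a ha =>
    sqo_uu hQ hν he (left_ne_zero_of_mul ha)
  obtain ⟨r1, r2⟩ := hp (fun a => uu ν e f t a * w a) KK
    (fun a c h => conj (psi a h) * psi c h)
    (fun a c => mu a * mu c * gam (a * c) * bb a * conj (bb c)) P
    (2 * (C * 2 ^ ε * Real.exp a0 * T)) hP (by simp [uu_zero hν])
    (summable_mul (norm_uu hν he0) hw (by norm_num))
    (fun a c m ha hc => by
      have s1 := hsq a ha
      have s2 := hsq c hc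
      refine ⟨hA.k.2.2.2.2.1 a c m s1.1 s2.1, le_trans (norm_mul_le_one ?_ (norm_psi_le _ _))
        (one_le_N s1.1.ne_zero), norm_mul_le_one (norm_mul_le_one (norm_mul_le_one
          (norm_mul_le_one (norm_mu_le _) (norm_mu_le _))
          (hA.gam.2.2.1 _ (od_mul.2 ⟨s1.2, s2.2⟩)).le) (norm_bb hA s1.1)) ?_⟩
      · rw [Complex.norm_conj]; exact norm_psi_le _ _
      · rw [Complex.norm_conj]; exact norm_bb hA s2.1)
    (fun a c ha hc => by
      have s1 := hsq a ha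
      have s2 := hsq c hc
      have h1 := hA.p2 a c P s1 s2 hP
      have m1 := mu_sq s1.1.2
      have m2 := mu_sq s2.1.2
      generalize (∑' m : O, KK a c m * ((G (N m / P) : ℝ) : ℂ)) = S at h1 ⊢
      linear_combination (mu a * mu c) * h1 - (mu c ^ 2 * S) * m1 - S * m2)
    D (fun h => by
      simp only [dual_eq hA hQ hν he hκ]
      rw [Summable.tsum_finsetSum fun k hk' => (summable_kd (bd1_vv hA hν he0 (hk k hk') h).2 hw
        (by positivity)).mul_left _]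
      exact sum_congr rfl fun k _ => tsum_mul_left.symm)
    (fun s hs => by
      refine (sum_le_sum fun h _ => hDn h).trans ?_
      rw [sum_comm]
      refine le_trans (sum_le_sum fun k hk' => ?_)
        ((sum_mul _ _ _).symm.le.trans (mul_le_mul_of_nonneg_right hκ1 (mul_nonneg c0 hT0)))
      rw [← mul_sum]
      exact mul_le_mul_of_nonneg_left (one k hk' s hs) (norm_nonneg _))
  have d0 : ‖D 0‖ ≤ 2 := (hDn 0).trans (le_trans (sum_le_sum fun k hk' =>
    mul_le_of_le_one_right (norm_nonneg _)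
      (norm_KD_zero hA hν he0 (hk k hk') hw1 (by positivity))) hκ1)
  refine ⟨r1, r2.trans ?_⟩
  generalize C * 2 ^ ε * Real.exp a0 = c at c0 ⊢
  rw [mul_right_comm, mul_comm _ P]
  refine mul_le_mul_of_nonneg_left ?_ hP.le
  nlinarith [mul_nonneg c0 hT0]

end Pool.Agent.P.MP_323ce2_nt.Q1
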