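import Pool.Agent.P.MP_323ce2_nt.Q1.St
import Pool.Agent.P.MP_26a8c3_nt.QB.I
import Pool.Agent.P.MP_26a8c3_nt.QB.Split

/-! The first step of the bootstrap: head and tail together. -/

namespace Pool.Agent.P.MP_323ce2_nt.Q1

open Finset Pool.Agent.P.MP_26a8c3_nt Pool.Agent.P.MP_26a8c3_nt.QO Pool.Agent.P.MP_26a8c3_nt.QA
open Pool.Agent.P.MP_26a8c3_nt.QB (ML ML0 Bd1 ps al cd Base S_PT S_SW)
open scoped Classical ComplexConjugate

namespace IP

lemma le_Rt {κ X P : ℝ} (hκ : 0 ≤ κ) (hX : 1 ≤ X) : X * P ^ 2 ≤ Rt κ X P := by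
  have h1 : X ≤ X ^ (1 + κ) := by
    have := Real.rpow_le_rpow_of_exponent_le hX (show 1 ≤ 1 + κ by linarith)
    rwa [Real.rpow_one] at this
  have h2 := mul_le_mul_of_nonneg_right h1 (sq_nonneg P)
  have h3 : 0 ≤ min X 1 ^ 2 * P ^ 4 := by positivity
  unfold Rt
  linarith

lemma le_Nm {κ Z M X P : ℝ} (hκ : 0 ≤ κ) (hM : 0 < M) (hX : 1 ≤ X) (hP : 1 ≤ P) :
    M ≤ Nm κ Z M X P := by
  have h3 := (Rt_pos κ (one_pos.trans_le hX) (one_pos.trans_le hP)).le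
  unfold Nm
  have h1 : 1 ≤ (X * P) ^ (1 + κ) :=
    Real.one_le_rpow (one_le_mul_of_one_le_of_one_le hX hP) (by linarith)
  have h2 : 1 ≤ (1 + M / Z ^ 4) ^ 10 := one_le_pow₀ (le_add_of_nonneg_right (by positivity))
  calc M = M * 1 * 1 := by ring
    _ ≤ _ := by gcongr; linarith

/-- the splitting of the square -/
lemma split (hA : Alg) (hb : Base) (ho : Om) {Q : O} {ν : O → ℂ} (hν : IsNu Q ν) {K : ℝ} {J : ℕ}
    {L : List Pi} (hL : Good K J L) {X : ℝ} (hX : 0 < X) (E t : ℝ) (m : O) :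
    ((‖V (uA ν 1 m) L X t‖ ^ 2 : ℝ) : ℂ) = ∑ e ∈ (ball E).filter SQ, jj e m * HH (aV ν L X t) e m +
      RR (aV ν L X t) (QB.Split.kap E) m := by
  have hd := ho.dc K J L X t hL hX
  have hs : ∀ {u : O → ℂ}, (∀ c, ‖u c‖ ≤ 1) → ∀ k ≤ 4,
      Summable fun c => ‖u c * om L X t c‖ * (N c : ℝ) ^ k := fun {u} hu k hk =>
    Summable.of_nonneg_of_le (fun _ => by positivity) (fun c => by
      rw [norm_mul]
      exact mul_le_mul_of_nonneg_right (mul_le_of_le_one_left (norm_nonneg _) (hu c))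
        (by positivity)) (hd.summable hk)
  have h := QB.Split.main hA hb E m (f := aV ν L X t)
    (fun c hc => QB.Split.sq_of_al (left_ne_zero_of_mul hc)) (hs (QB.bd1_al hν).2 1 (by norm_num))
    (by simpa only [pow_zero, mul_one, aV] using hs (QB.bd1_al hν).2 0 (by norm_num))
  rw [← ho.adj K J L _ X t hL (Bd1.bn (QB.bd1_uA hν 1 m)) hX, QB.norm_sq_tsum
    (by simpa only [pow_zero, mul_one] using hs (QB.bd1_uA hν 1 m).2 0 (by norm_num))]
  refine Eq.trans (tsum_congr fun x => ?_) h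
  simp only [QB.uA_one, aV, map_mul]
  ring

end IP

open IP in
theorem pI (hA : Alg) (hb : Base) (ho : Om) (h2 : S_ITail) (h3 : S_Head) : S_I := by
  intro κ J ε hκ hκ1 hε
  obtain ⟨C2, hC2, h2⟩ := h2 κ J ε hκ hκ1 hε
  obtain ⟨C3, hC3, h3⟩ := h3 J ε hε
  obtain ⟨Cc, hCc, hc⟩ := hb.cnt
  obtain ⟨Cd, hCd, hd⟩ := hb.dv_le
  refine ⟨C2 + Cc * Cd * C3, by positivity, ?_⟩
  intro Q ν K₀ L Z Bd E M X t b hQ hν hL hH hBd hE hEK hX hXZ hM hMZ hb0 hSB s
  have hX0 : 0 < X := by linarith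
  have hP1 := hL.one_le_PL
  have hP0 := hL.PL_pos
  have hE1 : 1 ≤ E := le_trans (by linarith [Real.add_one_le_exp (2 : ℝ)]) hE
  have hRt := le_Rt (P := PL L) hκ.le hX
  have hR0 := Rt_pos κ hX0 hP0
  have hM1 : 1 ≤ M :=
    ((one_le_mul_of_one_le_of_one_le hX (one_le_pow₀ hP1)).trans hRt).trans hM
  have hM0 : 0 < M := by linarith
  have hXZ' : X ≤ Z := (le_mul_of_one_le_right hX0.le hP1).trans hXZ
  have hZ1 : 1 ≤ Z := hX.trans hXZ'
  have hU0 := Vv_pos κ hX0 hP0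
  have hUX : Vv κ X (PL L) ≤ X := by
    rw [Vv, div_le_iff₀ hR0]
    nlinarith [mul_le_mul_of_nonneg_left hRt hX0.le]
  have hMU : (X * PL L) ^ 2 ≤ M * Vv κ X (PL L) := by
    rw [Vv, ← mul_div_assoc, le_div_iff₀ hR0, mul_comm M]
    exact mul_le_mul_of_nonneg_left hM (sq_nonneg _)
  set α := aV ν L X t with hα
  set τ : ℝ := (1 + |t|) ^ 16 with hτ
  have hτ1 : 1 ≤ τ := one_le_pow₀ (by linarith [abs_nonneg t])
  set K : ℝ := 1 + E ^ 51 * X ^ ε * (X * PL L)⁻¹ * b * τ with hK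
  have hK0 : 0 ≤ K := by positivity
  set S := (ball E).filter SQ with hS
  set g : O → ℂ := fun m => ((G (N m / M) : ℝ) : ℂ) with hg
  set T : O → O → ℂ := fun e f =>
    ∑' m : O, ((G (N m / (M / (N f : ℝ) ^ 2)) : ℝ) : ℂ) * HH α e (f ^ 2 * m) with hT
  have hmem : ∀ e ∈ S, SQ e ∧ (N e : ℝ) ≤ E := fun e he =>
    ⟨(mem_filter.1 he).2, mem_ball.1 (mem_filter.1 he).1⟩
  have hf0 : ∀ e ∈ S, ∀ f ∈ pdiv e, f ≠ 0 := fun e he f hf =>
    ((mem_pdiv (hmem e he).1.ne_zero).1 hf).1.ne_zero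
  have h3' := fun e (he : e ∈ S) f (hf : f ∈ pdiv e) => h3 Q ν e f K₀ L E M X t _ b hQ hν hL
    (hmem e he).1 hf (hmem e he).2 hEK hX hM0 hU0 hUX hMU hb0 hSB
  have hhead : HasSum (fun m : O => ∑ e ∈ S, ∑ f ∈ pdiv e,
      if f ^ 2 ∣ m then mu f * (N f : ℂ) * (g m * HH α e m) else 0)
      (∑ e ∈ S, ∑ f ∈ pdiv e, mu f * (N f : ℂ) * T e f) :=
    hasSum_sum fun e he => hasSum_sum fun f hf => QB.IP.hasSum_sq (hf0 e he f hf) _
      (h3' e he f hf).1.hasSum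
  have hRb := fun s => h2 Q ν (QB.Split.kap E) K₀ L Z Bd E M X t s hν hL hH hBd hE hX hXZ hM1 hMZ
    (fun e _ => QB.Split.norm_kap E e) fun e => QB.Split.kap_zero
  have hn : ∀ m, ‖g m * RR α (QB.Split.kap E) m‖ = G (N m / M) * ‖RR α (QB.Split.kap E) m‖ :=
    fun m => by rw [norm_mul, hg, Complex.norm_real, Real.norm_of_nonneg (G_pos _).le]
  have hRs : Summable fun m => ‖g m * RR α (QB.Split.kap E) m‖ :=
    summable_of_sum_le (fun _ => norm_nonneg _) fun s => by simpa only [hn] using hRb s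
  have hR : ‖∑' m, g m * RR α (QB.Split.kap E) m‖ ≤
      C2 * (1 + Z ^ ε * E ^ (-(κ / 2)) * Bd) * τ * Nm κ Z M X (PL L) :=
    (norm_tsum_le_tsum_norm hRs).trans
      (hRs.tsum_le_of_sum_le fun s => by simpa only [hn] using hRb s)
  have htot := hhead.add hRs.of_norm.hasSum
  have hre : HasSum (fun m : O => G (N m / M) * ‖V (uA ν 1 m) L X t‖ ^ 2)
      (∑ e ∈ S, ∑ f ∈ pdiv e, mu f * (N f : ℂ) * T e f +
        ∑' m, g m * RR α (QB.Split.kap E) m).re := by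
    refine (Complex.hasSum_re htot).congr_fun ?_
    intro m
    have e : (∑ e ∈ S, ∑ f ∈ pdiv e,
        if f ^ 2 ∣ m then mu f * (N f : ℂ) * (g m * HH α e m) else 0) +
        g m * RR α (QB.Split.kap E) m =
        ((G (N m / M) * ‖V (uA ν 1 m) L X t‖ ^ 2 : ℝ) : ℂ) := by
      rw [Complex.ofReal_mul, split hA hb ho hν hL hX0 E t m, mul_add, mul_sum]
      congr 1
      refine sum_congr rfl fun e _ => ?_
      rw [jj, sum_mul, mul_sum]
      refine sum_congr rfl fun f _ => ?_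
      split_ifs
      · simp only [hg, hα]; ring
      · simp
    rw [e, Complex.ofReal_re]
  have hT1 : ∀ e ∈ S, ∀ f ∈ pdiv e, ‖mu f * (N f : ℂ) * T e f‖ ≤ C3 * M * K := by
    intro e he f hf
    have h4 := (h3' e he f hf).2
    have h5 := one_le_N (hf0 e he f hf)
    rw [norm_mul, norm_mul, Complex.norm_natCast]
    calc ‖mu f‖ * (N f : ℝ) * ‖T e f‖ ≤ 1 * (N f : ℝ) * (C3 * (M / (N f : ℝ) ^ 2) * K) := by
          gcongr
          exact norm_mu_le f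
      _ = C3 * M * K / N f := by field_simp
      _ ≤ C3 * M * K := div_le_self (by positivity) h5
  have hT2 : ‖∑ e ∈ S, ∑ f ∈ pdiv e, mu f * (N f : ℂ) * T e f‖ ≤
      Cc * E * (Cd * E * (C3 * M * K)) := by
    refine (norm_sum_le_of_le (n := fun _ => Cd * E * (C3 * M * K)) _ fun e he => ?_).trans ?_
    · refine (norm_sum_le_of_le _ (hT1 e he)).trans ?_
      rw [sum_const, nsmul_eq_mul]
      have := (hd e (hmem e he).1.ne_zero).trans
        (mul_le_mul_of_nonneg_left (hmem e he).2 hCd.le)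
      exact mul_le_mul_of_nonneg_right this (by positivity)
    · rw [sum_const, nsmul_eq_mul]
      exact mul_le_mul_of_nonneg_right
        (hc E S (by linarith) fun e he => ⟨(hmem e he).1.ne_zero, (hmem e he).2⟩) (by positivity)
  refine (sum_le_hasSum s (fun m _ => mul_nonneg (G_pos _).le (by positivity)) hre).trans ?_
  refine (Complex.re_le_norm _).trans ((norm_add_le _ _).trans ((add_le_add hT2 hR).trans ?_))
  have hN := le_Nm (Z := Z) hκ.le hM0 hX hP1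
  have hN0 := Nm_pos κ Z hM0 hX0 hP0
  have hZε : 1 ≤ Z ^ ε := Real.one_le_rpow hZ1 hε.le
  have hXε : X ^ ε ≤ Z ^ ε := Real.rpow_le_rpow hX0.le hXZ' hε.le
  have hE2 : 1 ≤ E ^ 2 := one_le_pow₀ hE1
  have hq : 0 ≤ E ^ (-(κ / 2)) * Bd := by positivity
  have hY : 0 < X * PL L := by positivity
  set q := E ^ (-(κ / 2)) * Bd with hqd
  set n := Nm κ Z M X (PL L)
  set z := Z ^ ε
  set Y := X * PL L
  have ha : Cc * E * (Cd * E * (C3 * M * K)) ≤
      Cc * Cd * C3 * (z * τ * ((E ^ 2 + q) * n + E ^ 53 * (M / Y) * b)) := by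
    have a1 : E ^ 2 * M ≤ z * τ * ((E ^ 2 + q) * n) :=
      calc E ^ 2 * M = 1 * 1 * ((E ^ 2 + 0) * M) := by ring
        _ ≤ _ := by gcongr
    have a2 : E ^ 2 * M * (E ^ 51 * X ^ ε * Y⁻¹ * b * τ) ≤ z * τ * (E ^ 53 * (M / Y) * b) :=
      calc _ ≤ E ^ 2 * M * (E ^ 51 * z * Y⁻¹ * b * τ) := by gcongr
        _ = _ := by ring
    calc _ = Cc * Cd * C3 * (E ^ 2 * M + E ^ 2 * M * (E ^ 51 * X ^ ε * Y⁻¹ * b * τ)) := by
          rw [hK]; ring
      _ ≤ Cc * Cd * C3 * (z * τ * ((E ^ 2 + q) * n) + z * τ * (E ^ 53 * (M / Y) * b)) := by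
          gcongr
      _ = _ := by ring
  have hb' : C2 * (1 + z * E ^ (-(κ / 2)) * Bd) * τ * n ≤
      C2 * (z * τ * ((E ^ 2 + q) * n + E ^ 53 * (M / Y) * b)) := by
    have a1 : 1 + z * q ≤ z * (E ^ 2 + q) := by nlinarith
    calc _ = C2 * (τ * ((1 + z * q) * n + 0)) := by rw [hqd]; ring
      _ ≤ C2 * (τ * (z * (E ^ 2 + q) * n + z * (E ^ 53 * (M / Y) * b))) := by
          gcongr; positivity
      _ = _ := by ring
  calc _ ≤ _ := add_le_add ha hb'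
    _ = _ := by ring

end Pool.Agent.P.MP_323ce2_nt.Q1
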