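import Pool.Agent.P.MP_323ce2_nt.Q1.St
import Pool.Agent.P.MP_26a8c3_nt.QB.IIIa

/-! Poisson summation from the theta side back to the Moebius side, with a general weight. -/

namespace Pool.Agent.P.MP_323ce2_nt.Q1

open Finset Pool.Agent.P.MP_26a8c3_nt Pool.Agent.P.MP_26a8c3_nt.QO Pool.Agent.P.MP_26a8c3_nt.QA
open Pool.Agent.P.MP_26a8c3_nt.QB (ML ML0 Bd1 ps al cd Base S_PT S_SW)
open scoped Classical ComplexConjugate

namespace IIIa

open Pool.Agent.P.MP_26a8c3_nt.QB (bd1_al bd1_uB norm_mul_le_one norm_jj_le'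
  not_sq_zero norm_sq_tsum)
open Pool.Agent.P.MP_26a8c3_nt.QB.IIIa (vv ph vv_le sqo_of_vv norm_ph poi conj_xi vv_mul)

/-- the coefficient of the dual double sum -/
noncomputable def FF (ν w : O → ℂ) (P : ℝ) (m : O) (x : O × O) : ℂ :=
  al ν x.1 * w x.1 / (ab x.1 : ℂ) * conj (al ν x.2 * w x.2 / (ab x.2 : ℂ)) *
    (G (P * N m / (nr x.1 * nr x.2)) : ℝ)

variable {Q : O} {ν w : O → ℂ}

lemma smN {u : O → ℂ} (hu : ∀ c, ‖u c‖ ≤ 1) (hw : Dc w) {k : ℕ} (hk : k ≤ 4) :
    Summable fun c => ‖u c * w c‖ * (N c : ℝ) ^ k := by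
  refine Summable.of_nonneg_of_le (fun _ => by positivity) (fun c => ?_) (hw.summable hk)
  rw [norm_mul]
  exact mul_le_mul_of_nonneg_right (mul_le_of_le_one_left (norm_nonneg _) (hu c)) (by positivity)

lemma sm1 {u : O → ℂ} (hu : ∀ c, ‖u c‖ ≤ 1) (hw : Dc w) : Summable fun c => ‖u c * w c‖ := by
  simpa using smN hu hw (k := 0) (by norm_num)

lemma FF_sq {P : ℝ} {m : O} {x : O × O} (h : FF ν w P m x ≠ 0) : SQ x.1 ∧ SQ x.2 := by
  by_contra hc
  rcases not_and_or.1 hc with e | e <;> simp [FF, al, e] at h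

lemma norm_div_ab (h : IsNu Q ν) (c : O) :
    ‖al ν c * w c / (ab c : ℂ)‖ ≤ ‖al ν c * w c‖ := by
  rcases eq_or_ne c 0 with rfl | hc
  · simp [(bd1_al h).1]
  · rw [norm_div, Complex.norm_real, Real.norm_of_nonneg (ab_nonneg c)]
    refine div_le_self (norm_nonneg _) ?_
    rw [ab_eq]; exact Real.one_le_sqrt.2 (one_le_N hc)

lemma summable_FF (h : IsNu Q ν) (hw : Dc w) {P : ℝ} (hP : 0 < P) (m : O) :
    Summable fun x : O × O => ‖FF ν w P m x‖ * (N x.1 : ℝ) ^ 4 := by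
  have h1 := (smN (bd1_al h).2 hw le_rfl).mul_of_nonneg (sm1 (bd1_al h).2 hw)
    (fun _ => by positivity) (fun _ => by positivity)
  refine Summable.of_nonneg_of_le (fun _ => by positivity) (fun x => ?_) h1
  have h2 := norm_div_ab (w := w) h x.1
  have h3 := norm_div_ab (w := w) h x.2
  have h4 : G (P * N m / (nr x.1 * nr x.2)) ≤ 1 :=
    G_le_one (by have := nr_pos x.1; have := nr_pos x.2; positivity)
  rw [FF, norm_mul, norm_mul, Complex.norm_conj, Complex.norm_real,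
    Real.norm_of_nonneg (G_pos _).le]
  have h5 := (G_pos (P * N m / (nr x.1 * nr x.2))).le
  calc _ ≤ ‖al ν x.1 * w x.1‖ * ‖al ν x.2 * w x.2‖ * 1 * (N x.1 : ℝ) ^ 4 := by
        gcongr
    _ = _ := by ring

lemma summable_FK (hA : Alg) (h : IsNu Q ν) (hw : Dc w) {P : ℝ} (hP : 0 < P) (m : O) :
    Summable fun x : O × O => FF ν w P m x * KK x.1 x.2 m := by
  refine Summable.of_norm_bounded (summable_FF h hw hP m) fun x => ?_
  by_cases e : FF ν w P m x = 0
  · simp [e]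
  obtain ⟨h1, h2⟩ := FF_sq e
  rw [norm_mul]
  refine mul_le_mul_of_nonneg_left ((hA.k.2.2.2.2.1 _ _ m h1 h2).trans ?_) (norm_nonneg _)
  exact le_self_pow₀ (one_le_N h1.ne_zero) (by norm_num)

/-- the nonzero frequencies, for one class -/
lemma main (hA : Alg) (hb : Base) (hs : S_SW) (h : IsNu Q ν) (hw : Dc w) {P b : ℝ} (hP : 0 < P)
    (s : Finset O) (H : ∀ T : Finset O, (∀ e ∈ T, SQ e) → ∑ m ∈ s, ∑ e ∈ T,
      ‖jj e m‖ * ‖KD (fun c => al ν c * ps e c m * w c) (P * N m)‖ ≤ b) :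
    ∑ m ∈ s, ‖∑' x : O × O, FF ν w P m x * KK x.1 x.2 m‖ ≤ b := by
  obtain ⟨C, hC, hd⟩ := hb.dv_le
  have := hs s (fun _ => 1) (FF ν w P) (fun m e => mu e * jj e m) C b (fun _ _ => zero_le_one)
    (fun m _ => summable_FF h hw hP m) (fun m _ x => FF_sq) (fun m _ e he => ?_) fun T hT => ?_
  · refine le_trans (le_of_eq (sum_congr rfl fun m _ => ?_)) this
    rw [one_mul]
    congr 1
    refine tsum_congr fun x => ?_
    by_cases e : FF ν w P m x = 0
    · simp [e]
    obtain ⟨h1, h2⟩ := FF_sq e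
    rw [hA.k.2.1 _ _ m h1 h2, cd]
  · have h1 := one_le_N he.ne_zero
    rw [norm_mul]
    calc _ ≤ 1 * (dv e * N e) :=
          mul_le_mul (norm_mu_le e) (norm_jj_le' he.ne_zero m) (norm_nonneg _) zero_le_one
      _ ≤ 1 * (C * N e * N e) := by gcongr; exact hd e he.ne_zero
      _ ≤ _ := by nlinarith [mul_pos hC (mul_pos (zero_lt_one.trans_le h1) (zero_lt_one.trans_le h1))]
  · refine le_trans (sum_le_sum fun m _ => sum_le_sum fun e _ => ?_) (H T hT)
    have e1 : ∑' x : O × O, FF ν w P m x * (ps e x.1 m * conj (ps e x.2 m)) =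
        KD (fun c => al ν c * ps e c m * w c) (P * N m) := by
      refine tsum_congr fun x => ?_
      simp only [FF, map_mul, map_div₀]
      ring
    rw [e1, one_mul, norm_mul]
    exact mul_le_mul_of_nonneg_right (mul_le_of_le_one_left (norm_nonneg _) (norm_mu_le e))
      (norm_nonneg _)

/-- the zero frequency, for one class -/
lemma zero (hA : Alg) (h : IsNu Q ν) {P Y : ℝ} {z : O → ℝ} (h1 : HasSum z Y) (hz0 : ∀ c, 0 ≤ z c)
    (hz : ∀ c, c ≠ 0 → ‖w c‖ ^ 2 ≤ z c) :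
    ‖∑' x : O × O, FF ν w P 0 x * KK x.1 x.2 0‖ ≤ Y := by
  have h2 : HasSum (fun x : O × O => if x.1 = x.2 then z x.1 else 0) Y := by
    refine (Function.Injective.hasSum_iff (g := fun c : O => (c, c))
      (fun a b e => congrArg Prod.fst e) fun x hx => if_neg fun e => hx ⟨x.1, Prod.ext rfl e⟩).1 ?_
    simpa [Function.comp_def] using h1
  refine tsum_of_norm_bounded h2 fun x => ?_
  by_cases e : FF ν w P 0 x = 0
  · rw [e, zero_mul, norm_zero]
    split_ifs
    exacts [hz0 _, le_rfl]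
  obtain ⟨a, c⟩ := x
  obtain ⟨h3, h4⟩ := FF_sq e
  by_cases hac : a = c
  · subst hac
    have h5 := hA.k.2.2.2.2.1 a a 0 h3 h3
    have h6 := ab_pos h3.ne_zero
    have h7 := (bd1_al h).2 a
    have h9 : G 0 = 1 := by simp [G]
    simp only [FF, if_true, map_zero, Nat.cast_zero, mul_zero, zero_div, h9, norm_mul,
      Complex.norm_conj, norm_div, Complex.norm_real, Real.norm_of_nonneg h6.le, norm_one, mul_one]
    rw [← ab_sq] at h5
    calc _ ≤ 1 * ‖w a‖ / ab a * (1 * ‖w a‖ / ab a) * ab a ^ 2 := by gcongr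
      _ = ‖w a‖ ^ 2 := by field_simp
      _ ≤ _ := hz a h3.ne_zero
  · rw [hA.k.2.2.1 a c h3 h4, if_neg hac, if_neg hac]; simp

/-- the statement for a general weight -/
lemma core (hA : Alg) (hb : Base) (hp : S_PT) (hs : S_SW) (hQ : 36 ∣ Q) (hν : IsNu Q ν) (hw : Dc w)
    {P Y b : ℝ} (hP : 0 < P) {z : O → ℝ} (hzY : HasSum z Y) (hz0 : ∀ c, 0 ≤ z c)
    (hz : ∀ c, c ≠ 0 → ‖w c‖ ^ 2 ≤ z c)
    (H : ∀ ν', IsNu Q ν' → ∀ s T : Finset O, 0 ∉ s → (∀ e ∈ T, SQ e) → ∑ m ∈ s, ∑ e ∈ T,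
      ‖jj e m‖ * ‖KD (fun c => al ν' c * ps e c m * w c) (P * N m)‖ ≤ b) :
    ML (fun h => ∑' c, uB ν h c * w c) P (P * (2 * Y + 2 * b)) := by
  obtain ⟨κ, hκ, hg⟩ := hA.gam.2.2.2.2.2.2.2.2.2.2.2
  have hb0 : 0 ≤ b := by simpa using H ν hν ∅ ∅ (by simp) (by simp)
  have hY : 0 ≤ Y := hzY.nonneg hz0
  have hsq : ∀ a, vv ν a * w a ≠ 0 → SQO a := fun a ha =>
    sqo_of_vv hQ hν (left_ne_zero_of_mul ha)
  have hk : ∀ k ∈ cls, IsNu Q fun c => ν c * xi k c * chi c 2 := fun k hk => (hb.nu Q ν k hQ hν hk).2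
  have key := hp (fun c => vv ν c * w c) (fun a c m => conj (psi a m) * psi c m) KK ph P
    (2 * b) hP (by simp [vv, not_sq_zero]) (smN (vv_le hA hν) hw (by norm_num))
    (fun a c m ha hc => ⟨(norm_mul_le_one (by rw [Complex.norm_conj]; exact norm_psi_le _ _)
      (norm_psi_le _ _)).trans (one_le_N (hsq a ha).1.ne_zero),
      hA.k.2.2.2.2.1 a c m (hsq a ha).1 (hsq c hc).1, norm_ph hA (hsq a ha) (hsq c hc)⟩)
    (fun a c ha hc => poi hA (hsq a ha) (hsq c hc) hP)
    (fun m => ∑ k ∈ cls, conj (κ k) *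
      ∑' x : O × O, FF (fun c => ν c * xi k c * chi c 2) w P m x * KK x.1 x.2 m)
    (fun m => ?_) fun s h0 => ?_
  · obtain ⟨k1, k2⟩ := key
    have e : ∀ m : O, ((G (N m / P) : ℝ) : ℂ) * ∑' x : O × O, vv ν x.1 * w x.1 *
        conj (vv ν x.2 * w x.2) * (conj (psi x.1 m) * psi x.2 m) =
        ((G (N m / P) * ‖∑' c, uB ν m c * w c‖ ^ 2 : ℝ) : ℂ) := fun m => by
      rw [Complex.ofReal_mul, norm_sq_tsum (sm1 (bd1_uB hA hν m).2 hw)]
      congr 1
      refine tsum_congr fun x => ?_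
      by_cases h1 : SQ x.1 <;> by_cases h2 : SQ x.2 <;> simp [vv, uB, Phi, h1, h2]
      ring
    simp only [e] at k1 k2
    rw [← Complex.ofReal_tsum, Complex.norm_real] at k2
    have k3 := Complex.summable_ofReal.1 k1
    intro s
    refine (k3.sum_le_tsum s fun m _ => mul_nonneg (G_pos _).le (by positivity)).trans
      ((le_abs_self _).trans (k2.trans ?_))
    have k6 : ‖∑ k ∈ cls, conj (κ k) * ∑' x : O × O,
        FF (fun c => ν c * xi k c * chi c 2) w P 0 x * KK x.1 x.2 0‖ ≤ 2 * Y := by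
      refine (norm_sum_le_of_le (n := fun k => ‖κ k‖ * Y) _ fun k h => ?_).trans ?_
      · rw [norm_mul, Complex.norm_conj]
        exact mul_le_mul_of_nonneg_left (zero hA (hk k h) hzY hz0 hz) (norm_nonneg _)
      · rw [← sum_mul]; gcongr
    gcongr
  · simp only [← tsum_mul_left]
    rw [← Summable.tsum_finsetSum fun k h => (summable_FK hA (hk k h) hw hP m).mul_left _]
    refine tsum_congr fun x => ?_
    by_cases h1 : vv ν x.1 = 0
    · have : ∀ k, al (fun c => ν c * xi k c * chi c 2) x.1 = 0 := fun k => by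
        by_cases h : SQ x.1
        · have h2 := hA.r4.2.1 _ h
          have h3 := norm_ang h.ne_zero
          have : ν x.1 = 0 := by
            rw [vv, if_pos h] at h1
            rcases mul_eq_zero.1 h1 with h1 | h1
            · rcases mul_eq_zero.1 h1 with h1 | h1
              · simp [h1] at h2
              · simp [h1] at h3
            · exact h1
          simp [al, this]
        · simp [al, h]
      simp [FF, h1, this]
    by_cases h2 : vv ν x.2 = 0
    · have : ∀ k, al (fun c => ν c * xi k c * chi c 2) x.2 = 0 := fun k => by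
        by_cases h : SQ x.2
        · have h3 := hA.r4.2.1 _ h
          have h4 := norm_ang h.ne_zero
          have : ν x.2 = 0 := by
            rw [vv, if_pos h] at h2
            rcases mul_eq_zero.1 h2 with h2 | h2
            · rcases mul_eq_zero.1 h2 with h2 | h2
              · simp [h2] at h3
              · simp [h2] at h4
            · exact h2
          simp [al, this]
        · simp [al, h]
      simp [FF, h2, this]
    have s1 := sqo_of_vv hQ hν h1
    have s2 := sqo_of_vv hQ hν h2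
    rw [ph, hg _ (od_mul.2 ⟨s1.2, s2.2⟩), map_sum]
    simp only [mul_sum, sum_mul]
    refine sum_congr rfl fun k h => ?_
    have hko := hA.gam.2.2.2.2.2.2.2.1 k h
    rw [FF, ← vv_mul hA s1, ← vv_mul hA s2, (hA.gam.2.2.2.2.2.2.1 k hko).mul, nr_eq s1.1.ne_zero,
      nr_eq s2.1.ne_zero]
    simp only [map_mul, map_div₀, Complex.conj_conj, conj_mu, conj_xi hA hko s1.2,
      conj_xi hA hko s2.2]
    ring
  · calc _ ≤ ∑ m ∈ s, ∑ k ∈ cls, ‖κ k‖ * ‖∑' x : O × O,
          FF (fun c => ν c * xi k c * chi c 2) w P m x * KK x.1 x.2 m‖ :=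
          sum_le_sum fun m _ => norm_sum_le_of_le _ fun k _ => by rw [norm_mul, Complex.norm_conj]
      _ ≤ ∑ k ∈ cls, ‖κ k‖ * b := by
          rw [sum_comm]
          refine sum_le_sum fun k h => ?_
          rw [← mul_sum]
          exact mul_le_mul_of_nonneg_left
            (main hA hb hs (hk k h) hw hP s fun T hT => H _ (hk k h) s T h0 hT) (norm_nonneg _)
      _ ≤ _ := by rw [← sum_mul]; gcongr

end IIIa

open IIIa in
theorem pIIIa (hA : Alg) (hb : Base) (ho : Om) (hp : S_PT) (hs : S_SW) : S_IIIa := by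
  intro κ hκ
  obtain ⟨C₁, hC₁, hd⟩ := hb.dvb κ hκ
  obtain ⟨C₂, hC₂, hm⟩ := ho.mass κ (1 + 2 * κ) hκ.le (by linarith)
  refine ⟨2 * (C₁ * C₂ + 1), by positivity, fun Q ν K J L H X t b hQ hν hL hH hX h => ?_⟩
  have hb0 : 0 ≤ b := by simpa using h ν hν ∅ ∅ (by simp) (by simp)
  have hP := hL.PL_pos
  have h0 : ∀ c : O, 0 ≤ ‖om L X t c‖ * nr c ^ κ := fun c =>
    mul_nonneg (norm_nonneg _) (Real.rpow_nonneg (nr_pos c).le _)
  have h1 : Summable fun c : O => ‖om L X t c‖ * nr c ^ κ :=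
    summable_of_sum_le h0 fun s => hm K J L X t s hL hX
  have h2 := h1.tsum_le_of_sum_le fun s => hm K J L X t s hL hX
  have h3 := core hA hb hp hs hQ hν (ho.dc K J L X t hL hX) hH (h1.hasSum.mul_left C₁)
    (fun c => mul_nonneg hC₁.le (h0 c)) (fun c hc => ?_) h
  · intro s
    have h4 := h3 s
    simp only [ho.adj K J L _ X t hL (Bd1.bn (QB.bd1_uB hA hν _)) hX] at h4
    refine h4.trans ?_
    have h5 : 0 ≤ X ^ (1 + 2 * κ) * PL L ^ (1 + κ) := by positivity
    have h6 := mul_le_mul_of_nonneg_left h2 hC₁.le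
    have h7 : 0 ≤ C₁ * C₂ * b := by positivity
    calc _ ≤ H * (2 * (C₁ * C₂ + 1) * (X ^ (1 + 2 * κ) * PL L ^ (1 + κ) + b)) := by
          refine mul_le_mul_of_nonneg_left ?_ hH.le
          nlinarith
      _ = _ := by ring
  · have h4 := (ho.sup K J L X t c hL hc).trans (hd c hc)
    rw [nr_eq hc, sq]
    calc _ ≤ ‖om L X t c‖ * (C₁ * (N c : ℝ) ^ κ) := mul_le_mul_of_nonneg_left h4 (norm_nonneg _)
      _ = _ := by ring

end Pool.Agent.P.MP_323ce2_nt.Q1
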