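import Pool.Agent.P.MP_323ce2_nt.Q1.St
import Pool.Agent.P.MP_26a8c3_nt.QB.IIIb

/-! The dual sums on the Moebius side, with pieces. -/

namespace Pool.Agent.P.MP_323ce2_nt.Q1

open Finset Pool.Agent.P.MP_26a8c3_nt Pool.Agent.P.MP_26a8c3_nt.QO Pool.Agent.P.MP_26a8c3_nt.QA
open Pool.Agent.P.MP_26a8c3_nt.QB (ML ML0 Bd1 ps al cd Base S_PT S_SW)
open scoped Classical ComplexConjugate

namespace IIIb

lemma min_le {X ξ P P' : ℝ} (hX : 0 < X) (hξ : 0 < ξ) (hP' : 0 < P') (h' : P' ≤ P)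
    (h : ξ * P' ≤ Real.exp 9 * (X * P)) :
    min ξ 1 ^ 2 * P' ^ 4 ≤ Real.exp 18 * (min X 1 ^ 2 * P ^ 4) := by
  have m0 : 0 ≤ min ξ 1 := le_min hξ.le zero_le_one
  have hP : 0 < P := hP'.trans_le h'
  rcases le_total X 1 with h1 | h1
  · have m1 := min_le_left ξ 1
    rw [min_eq_left h1, show (18 : ℝ) = 9 + 9 by norm_num, Real.exp_add]
    calc _ ≤ ξ ^ 2 * P' ^ 4 := by gcongr
      _ = (ξ * P') ^ 2 * P' ^ 2 := by ring
      _ ≤ (Real.exp 9 * (X * P)) ^ 2 * P ^ 2 := by gcongr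
      _ = _ := by ring
  · have m1 := min_le_right ξ 1
    rw [min_eq_right h1]
    calc _ ≤ 1 ^ 2 * P ^ 4 := by gcongr
      _ ≤ _ := le_mul_of_one_le_left (by positivity) (Real.one_le_exp (by norm_num))

/-- the moment with divisor weights, over a sharp range -/
lemma mom {Q : O} {ν : O → ℂ} {κ K Z b₁ b₂ b₃ D y X P ξ t t' : ℝ} {J : ℕ} {s : Finset O}
    {L : List Pi} (hκ : 0 < κ) (hκ1 : κ ≤ 1) (hν : IsNu Q ν) (hL : Good K J L) (hP : PL L ≤ P)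
    (hH : Hyp Q κ K J Z b₁ b₂ b₃) (h₁ : 0 ≤ b₁) (h₂ : 0 ≤ b₂) (h₃ : 0 ≤ b₃) (hD : 0 ≤ D)
    (hy : 0 < y) (hX : 0 < X) (hξ : 0 < ξ) (hξX : ξ * PL L ≤ Real.exp 9 * (X * P))
    (hXZ : Real.exp 9 * (X * P) ≤ Z) (ht : |t' - t| ≤ 4)
    (hs : ∀ m ∈ s, (N m : ℝ) ≤ y ∧ dv m ^ (2 * J + 4) ≤ D) :
    ∑ m ∈ s, 1 * dv m ^ (2 * J + 4) * ‖V (uA ν 1 m) L ξ t'‖ ^ 2 ≤
      D * (Real.exp a0 * ((5 * (1 + |t|)) ^ 16 * ((b₁ * y + Real.exp 18 *
        (b₂ * (X ^ (1 + κ) * P ^ 2) + b₃ * (min X 1 ^ 2 * P ^ 4))) * (1 + y / Z ^ 4) ^ 10))) *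
        (ξ * PL L) ^ (1 + κ) := by
  have h1 := (hH ν hν L hL y ξ t' hy hξ (hξX.trans hXZ)).sharp hy s fun m hm => (hs m hm).1
  have h2 : 1 + |t'| ≤ 5 * (1 + |t|) := by
    have := abs_sub_abs_le_abs_sub t' t
    have := abs_nonneg t
    linarith
  have p0 := hL.PL_pos
  have P0 : 0 < P := p0.trans_le hP
  have h3 : ξ ^ (1 + κ) * PL L ^ 2 ≤ Real.exp 18 * (X ^ (1 + κ) * P ^ 2) := by
    refine (crit_le hκ.le hκ1 hX hξ p0 hP (Real.exp_pos 9) hξX).trans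
      (mul_le_mul_of_nonneg_right ?_ (by positivity))
    rw [← Real.exp_mul]
    exact Real.exp_le_exp.2 (by linarith)
  have h4 := min_le hX hξ p0 hP hξX
  have h5 : b₁ * y + b₂ * (ξ ^ (1 + κ) * PL L ^ 2) + b₃ * (min ξ 1 ^ 2 * PL L ^ 4) ≤
      b₁ * y + Real.exp 18 * (b₂ * (X ^ (1 + κ) * P ^ 2) + b₃ * (min X 1 ^ 2 * P ^ 4)) := by
    linarith [mul_le_mul_of_nonneg_left h3 h₂, mul_le_mul_of_nonneg_left h4 h₃]
  calc _ ≤ ∑ m ∈ s, D * ‖V (uA ν 1 m) L ξ t'‖ ^ 2 := sum_le_sum fun m hm => by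
        rw [one_mul]
        exact mul_le_mul_of_nonneg_right (hs m hm).2 (sq_nonneg _)
    _ ≤ D * (Real.exp a0 * ((1 + |t'|) ^ 16 * Nq κ Z b₁ b₂ b₃ y ξ (PL L))) := by
        rw [← mul_sum]
        gcongr
    _ ≤ D * (Real.exp a0 * ((5 * (1 + |t|)) ^ 16 * ((b₁ * y + Real.exp 18 *
        (b₂ * (X ^ (1 + κ) * P ^ 2) + b₃ * (min X 1 ^ 2 * P ^ 4))) * (ξ * PL L) ^ (1 + κ) *
          (1 + y / Z ^ 4) ^ 10))) := by
        unfold Nq
        gcongr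
    _ = _ := by ring

/-- the real inequality -/
lemma num {Z U y b R η ε : ℝ} (hZ : 1 ≤ Z) (hU : 0 < U) (hUZ : U ≤ Z ^ 2) (hy : U ≤ y) (hb : 0 ≤ b)
    (hR : 0 ≤ R) (hη : 0 < η) (hη1 : η ≤ 1) (hε : 2 * η ≤ ε) :
    y ^ η * ((b * y + Real.exp 18 * R) * (1 + y / Z ^ 4) ^ 10) ≤
      Real.exp 18 * 2 ^ 10 * Z ^ ε * (b * U + R) * (y / U) ^ 12 := by
  have hy0 : 0 < y := hU.trans_le hy
  have hZ0 : 0 < Z := by linarith
  have hq : 1 ≤ y / U := (one_le_div hU).2 hy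
  have hyq : y = y / U * U := by field_simp
  have h1 : y ^ η ≤ y / U * Z ^ ε := by
    calc y ^ η = (y / U * U) ^ η := by rw [← hyq]
      _ = (y / U) ^ η * U ^ η := Real.mul_rpow (by positivity) hU.le
      _ ≤ y / U * Z ^ ε := by
          gcongr
          · simpa using Real.rpow_le_rpow_of_exponent_le hq hη1
          · calc U ^ η ≤ (Z ^ 2) ^ η := by gcongr
              _ = Z ^ (2 * η) := by rw [← Real.rpow_two, ← Real.rpow_mul hZ0.le]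
              _ ≤ Z ^ ε := Real.rpow_le_rpow_of_exponent_le hZ hε
  have h2 : b * y + Real.exp 18 * R ≤ Real.exp 18 * (y / U * (b * U + R)) := by
    have e2 : (1 : ℝ) ≤ Real.exp 18 := Real.one_le_exp (by norm_num)
    have e4 : R ≤ y / U * R := le_mul_of_one_le_left hR hq
    have e5 : b * y ≤ Real.exp 18 * (b * y) := le_mul_of_one_le_left (by positivity) e2
    have e6 : Real.exp 18 * R ≤ Real.exp 18 * (y / U * R) := by gcongr
    have e7 : y / U * (b * U + R) = b * y + y / U * R := by field_simp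
    rw [e7, mul_add]
    linarith
  have h3 : 1 + y / Z ^ 4 ≤ 2 * (y / U) := by
    have : U ≤ Z ^ 4 := hUZ.trans (pow_le_pow_right₀ hZ (by norm_num))
    have : y / Z ^ 4 ≤ y / U := by gcongr
    linarith
  calc _ ≤ y / U * Z ^ ε * (Real.exp 18 * (y / U * (b * U + R)) * (2 * (y / U)) ^ 10) := by gcongr
    _ = _ := by ring

end IIIb

theorem pIIIb (hb : Base) (ht : S_Tail) (hd : S_DL) : S_IIIb := by
  intro κ J ε hκ hκ1 hε
  obtain ⟨C₁, hC₁, hd⟩ := hd J (ε / 4) (by linarith)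
  obtain ⟨Ct, hCt, ht⟩ := ht κ J hκ hκ1
  have hη : 0 < min (ε / 4) 1 := lt_min (by linarith) one_pos
  have hη1 : min (ε / 4) 1 ≤ 1 := min_le_right _ _
  have hη2 : 2 * min (ε / 4) 1 ≤ ε / 2 := by linarith [min_le_left (ε / 4) 1]
  generalize min (ε / 4) 1 = η at hη hη1 hη2
  obtain ⟨Cd, hCd, hdv⟩ := hb.dvb (η / (2 * J + 4 : ℕ)) (by positivity)
  set K₀ : ℝ := Ct * Cd ^ (2 * J + 4) * Real.exp a0 * 5 ^ 16 * (Real.exp 18 * 2 ^ 10) * Real.exp 14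
    with hK
  have hK0 : 0 < K₀ := by positivity
  refine ⟨C₁ * 2 ^ (ε / 4) * K₀, by positivity, ?_⟩
  intro Q ν K L Z b₁ b₂ b₃ H X t s T hν hL hH h₁ h₂ h₃ hZ hP hX hXZ h0 hT
  have hZ0 : 0 < Z := by linarith
  have hP0 : 0 < H := by linarith
  have p0 := hL.PL_pos
  have n0 : 0 < X * PL L := by positivity
  have hXZ' : X * PL L ≤ Z :=
    (le_mul_of_one_le_left n0.le (Real.one_le_exp (by norm_num))).trans hXZ
  have hU : 0 < (X * PL L) ^ 2 / H := by positivity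
  have hUZ : (X * PL L) ^ 2 / H ≤ Z ^ 2 := (div_le_self (by positivity) hP).trans (by gcongr)
  have hPU : (X * PL L) ^ 2 ≤ H * ((X * PL L) ^ 2 / H) := le_of_eq (by field_simp)
  generalize (X * PL L) ^ 2 / H = U at hU hUZ hPU
  rw [add_assoc (b₁ * U)]
  set R : ℝ := b₂ * (X ^ (1 + κ) * PL L ^ 2) + b₃ * (min X 1 ^ 2 * PL L ^ 4) with hR
  have R0 : 0 ≤ R := by positivity
  have hs0 : ∀ m ∈ s, m ≠ 0 := fun m hm e => h0 (e ▸ hm)
  have key := hd _ (s ×ˢ T) (fun h => ‖jj h.2 h.1‖) (fun h => (N h.1 : ℝ))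
    (fun h c => al ν c * ps h.2 c h.1) K L X t H U
    (K₀ * Z ^ (ε / 2) * ((b₁ * U + R) * (X * PL L) ^ (1 + κ))) hL hX hP0 hU hPU (by positivity)
    (fun h hh => ⟨norm_nonneg _, one_le_N (hs0 _ (mem_product.1 hh).1), QB.bd1_alps hν _ _⟩) ?_
  · rw [sum_product] at key
    refine key.trans ?_
    have e1 : (1 + U) ^ (ε / 4) ≤ 2 ^ (ε / 4) * Z ^ (ε / 2) := by
      have : 1 + U ≤ 2 * Z ^ 2 := by nlinarith
      calc (1 + U) ^ (ε / 4) ≤ (2 * Z ^ 2) ^ (ε / 4) := by gcongr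
        _ = _ := by
          rw [Real.mul_rpow (by norm_num) (by positivity), ← Real.rpow_two, ← Real.rpow_mul hZ0.le]
          congr 2; ring
    have e2 : (X * PL L) ^ (1 + κ) = X * PL L * (X * PL L) ^ κ := by
      rw [Real.rpow_add n0, Real.rpow_one]
    have e3 : Z ^ ε = Z ^ (ε / 2) * Z ^ (ε / 2) := by rw [← Real.rpow_add hZ0]; congr 1; ring
    calc _ ≤ C₁ * (2 ^ (ε / 4) * Z ^ (ε / 2)) * (X * PL L)⁻¹ *
          (K₀ * Z ^ (ε / 2) * ((b₁ * U + R) * (X * PL L) ^ (1 + κ))) * (1 + |t|) ^ 16 := by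
          gcongr
      _ = _ := by rw [e2, e3]; field_simp
  · intro L₁ hL₁ hP₁ y X' t' hy h1 h2
    have hy0 : 0 < y := hU.trans_le hy
    have hX' : 0 < X' := lt_of_lt_of_le (by positivity) h1
    have hf : (s ×ˢ T).filter (fun h => (N h.1 : ℝ) ≤ y) =
        s.filter (fun m => (N m : ℝ) ≤ y) ×ˢ T := by
      ext h; simp only [mem_filter, mem_product]; tauto
    have h7 : X' * PL L ≤ Real.exp 7 * (X * PL L) := by
      rw [← mul_assoc]
      gcongr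
    have h9 : Real.exp 2 * (X' * PL L₁) / 1 ≤ Real.exp 9 * (X * PL L) := by
      rw [div_one, show (9 : ℝ) = 2 + 7 by norm_num, Real.exp_add, mul_assoc, hP₁]
      gcongr
    have hD : ∀ m ∈ s.filter fun m => (N m : ℝ) ≤ y,
        (N m : ℝ) ≤ y ∧ dv m ^ (2 * J + 4) ≤ Cd ^ (2 * J + 4) * y ^ η := fun m hm => by
      have h3 := (mem_filter.1 hm).2
      have h4 : dv m ≤ Cd * y ^ (η / (2 * J + 4 : ℕ)) :=
        (hdv m (hs0 m (mem_filter.1 hm).1)).trans (by gcongr)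
      refine ⟨h3, (pow_le_pow_left₀ (QB.dv_nonneg m) h4 _).trans (le_of_eq ?_)⟩
      rw [mul_pow, ← Real.rpow_mul_natCast hy0.le, div_mul_cancel₀ _ (by positivity)]
    have k2 := ht Q ν K L₁ (s.filter fun m => (N m : ℝ) ≤ y) T (fun _ => 1) X' t' 1
      (Cd ^ (2 * J + 4) * y ^ η * (Real.exp a0 * ((5 * (1 + |t'|)) ^ 16 *
        ((b₁ * y + Real.exp 18 * R) * (1 + y / Z ^ 4) ^ 10)))) hν hL₁ hX' le_rfl
      (by positivity) (fun m hm => ⟨hs0 m (mem_filter.1 hm).1, zero_le_one⟩)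
      (fun e he => ⟨hT e he, one_le_N (hT e he).ne_zero⟩)
      (fun L₂ hL₂ hP₂ ξ t'' hξ hξ' htt => IIIb.mom hκ hκ1 hν hL₂ (hP₂.trans hP₁.le) hH h₁ h₂ h₃
        (by positivity) hy0 hX hξ (hξ'.trans h9) hXZ htt hD)
    rw [Real.one_rpow, mul_one, hP₁] at k2
    have e1 := IIIb.num hZ hU hUZ hy h₁ R0 hη hη1 hη2
    have e2 : (X' * PL L) ^ (1 + κ) ≤ Real.exp 14 * (X * PL L) ^ (1 + κ) := by
      have := QB.IIIb.exp_rpow (a := 7) (p := 1 + κ) (by norm_num) (by linarith) n0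
      rw [show (2 * 7 : ℝ) = 14 by norm_num] at this
      refine le_trans ?_ this
      gcongr
    rw [hf, sum_product]
    refine le_trans (sum_le_sum fun m _ => sum_le_sum fun e he => ?_) (k2.trans ?_)
    · refine mul_le_mul_of_nonneg_right ?_ (sq_nonneg _)
      rw [one_mul]
      exact le_mul_of_one_le_left (norm_nonneg _) (QB.one_le_dv (hT e he).ne_zero)
    · calc _ = Ct * Cd ^ (2 * J + 4) * Real.exp a0 * 5 ^ 16 * (1 + |t'|) ^ 16 * (y ^ η *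
            ((b₁ * y + Real.exp 18 * R) * (1 + y / Z ^ 4) ^ 10)) * (X' * PL L) ^ (1 + κ) := by
            rw [mul_pow 5]
            generalize (1 + |t'|) ^ 16 = u
            generalize (1 + y / Z ^ 4) ^ 10 = v
            ring
        _ ≤ Ct * Cd ^ (2 * J + 4) * Real.exp a0 * 5 ^ 16 * (1 + |t'|) ^ 16 *
            (Real.exp 18 * 2 ^ 10 * Z ^ (ε / 2) * (b₁ * U + R) * (y / U) ^ 12) *
            (Real.exp 14 * (X * PL L) ^ (1 + κ)) := by gcongr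
        _ = _ := by
            rw [hK]
            generalize (1 + |t'|) ^ 16 = u
            generalize (y / U) ^ 12 = v
            ring

end Pool.Agent.P.MP_323ce2_nt.Q1
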