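import Pool.Agent.P.MP_323ce2_nt.Q1.St
import Pool.Agent.P.MP_26a8c3_nt.QB.ITail

/-! The tail of the first step of the bootstrap, with pieces. -/

namespace Pool.Agent.P.MP_323ce2_nt.Q1

open Finset Pool.Agent.P.MP_26a8c3_nt Pool.Agent.P.MP_26a8c3_nt.QO Pool.Agent.P.MP_26a8c3_nt.QA
open Pool.Agent.P.MP_26a8c3_nt.QB (ML ML0 Bd1 ps al cd Base S_PT S_SW)
open scoped Classical ComplexConjugate

namespace ITail

lemma sm0 {w u : O → ℂ} (h : Dc w) (hu : ∀ c, ‖u c‖ ≤ 1) : Summable fun c => ‖u c * w c‖ :=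
  Summable.of_nonneg_of_le (fun _ => norm_nonneg _) (fun c => by
    rw [norm_mul, pow_zero, mul_one]; exact mul_le_of_le_one_left (norm_nonneg _) (hu c))
    (h.summable (Nat.zero_le 4))

/-- at `m = 0` only the term `c = e` survives -/
lemma norm_V_zero (ho : Om) {Q : O} {ν : O → ℂ} (h : IsNu Q ν) {K : ℝ} {J : ℕ} {L : List Pi}
    (hL : Good K J L) {e : O} (he : SQ e) {X : ℝ} (hX : 0 < X) (t : ℝ) :
    ‖V (fun c => al ν c * ps e c 0) L X t‖ ≤ ‖om L X t e‖ := by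
  rw [← ho.adj K J L _ X t hL (Bd1.bn (QB.bd1_alps h e 0)) hX, tsum_eq_single e, norm_mul]
  · exact mul_le_of_le_one_left (norm_nonneg _) ((QB.bd1_alps h e 0).2 e)
  · intro c hc
    unfold al ps
    split_ifs with hq hd
    · obtain ⟨q, rfl⟩ := hd
      have pq : Primary q := hq.1.of_mul he.1
      rw [quo_mul he.ne_zero, (psi_eq_zero pq.ne_zero).2, mul_zero, zero_mul]
      intro hu
      exact hc (by rw [pq.eq_one_of_isUnit (isCoprime_zero_left.1 hu), mul_one])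
    all_goals simp

/-- the term `m = 0` -/
lemma zero_term (hb : Base) (ho : Om) {κ : ℝ} (hκ : 0 < κ) : ∃ C : ℝ, 0 < C ∧
    ∀ (Q : O) (ν : O → ℂ) (K : ℝ) (J : ℕ) (L : List Pi) (X t : ℝ) (T : Finset O),
    IsNu Q ν → Good K J L → 0 < X → (∀ e ∈ T, SQ e) →
    ∑ e ∈ T, (dv e * ‖jj e 0‖) * ‖V (fun c => al ν c * ps e c 0) L X t‖ ^ 2 ≤
      C * (X ^ (2 + κ) * PL L ^ (1 + (1 + κ / 2))) := by
  obtain ⟨C1, hC1, h1⟩ := hb.dvb (κ / 6) (by positivity)
  obtain ⟨C2, hC2, h2⟩ := ho.mass (1 + κ / 2) (2 + κ) (by positivity) (by linarith)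
  refine ⟨C1 ^ 3 * C2, by positivity, fun Q ν K J L X t T hν hL hX hT => ?_⟩
  rw [mul_assoc, ← mul_assoc C2]
  refine le_trans ?_ (mul_le_mul_of_nonneg_left (h2 K J L X t T hL hX) (by positivity))
  rw [mul_sum]
  refine sum_le_sum fun e he => ?_
  have h0 := (hT e he).ne_zero
  have hN := N_pos_real h0
  have hd := dv_nonneg e
  have a1 := norm_V_zero ho hν hL (hT e he) hX t
  have a2 : ‖V (fun c => al ν c * ps e c 0) L X t‖ ^ 2 ≤ dv e * ‖om L X t e‖ := by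
    calc _ ≤ ‖om L X t e‖ ^ 2 := by gcongr
      _ ≤ _ := by
        rw [sq]; exact mul_le_mul_of_nonneg_right (ho.sup K J L X t e hL h0) (norm_nonneg _)
  have a3 : (N e : ℝ) ^ (1 + κ / 2) =
      (N e : ℝ) ^ (κ / 6) * ((N e : ℝ) ^ (κ / 6) * N e) * (N e : ℝ) ^ (κ / 6) := by
    rw [show 1 + κ / 2 = κ / 6 + (κ / 6 + 1) + κ / 6 by ring, Real.rpow_add hN, Real.rpow_add hN,
      Real.rpow_add hN, Real.rpow_one]
  rw [nr_eq h0, a3]
  calc dv e * ‖jj e 0‖ * ‖V (fun c => al ν c * ps e c 0) L X t‖ ^ 2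
      ≤ dv e * (dv e * N e) * (dv e * ‖om L X t e‖) := by
        gcongr
        exact QB.norm_jj_le' h0 0
    _ ≤ (C1 * (N e : ℝ) ^ (κ / 6)) * ((C1 * (N e : ℝ) ^ (κ / 6)) * N e) *
          ((C1 * (N e : ℝ) ^ (κ / 6)) * ‖om L X t e‖) := by
        gcongr <;> exact h1 e h0
    _ = _ := by ring

/-- a power of the divisor function is absorbed by half of the Gaussian -/
lemma dv_G (hb : Base) {ε : ℝ} (hε : 0 < ε) {j : ℕ} (hj : 0 < j) : ∃ C : ℝ, 0 < C ∧
    ∀ (m : O) (M Z : ℝ), m ≠ 0 → 0 < M → 1 ≤ Z → M ≤ Z ^ 5 →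
    G (N m / M) * dv m ^ j ≤ C * Z ^ ε * G (N m / (2 * M)) := by
  set η := min (ε / 5) 1 with hη
  have h0 : 0 < η := lt_min (by positivity) one_pos
  have h1 : η ≤ 1 := min_le_right _ _
  have h3 : η ≤ ε / 5 := min_le_left _ _
  have hj' : (0 : ℝ) < j := by exact_mod_cast hj
  obtain ⟨C, hC, h⟩ := hb.dvb (η / j) (by positivity)
  refine ⟨C ^ j * 2, by positivity, fun m M Z hm hM hZ hMZ => ?_⟩
  have hN := N_pos_real hm
  have hG := QB.G_pos (N m / (2 * M))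
  have hd := dv_nonneg m
  have e1 : G (N m / M) = G (N m / (2 * M)) * G (N m / (2 * M)) := by
    rw [← QB.G_add]; congr 1; field_simp; ring
  have e2 : dv m ^ j ≤ C ^ j * (N m : ℝ) ^ η := by
    calc dv m ^ j ≤ (C * (N m : ℝ) ^ (η / j)) ^ j := by gcongr; exact h m hm
      _ = _ := by
        rw [mul_pow, ← Real.rpow_natCast ((N m : ℝ) ^ (η / j)), ← Real.rpow_mul hN.le,
          div_mul_cancel₀ _ hj'.ne']
  have e3 : (N m : ℝ) ^ η = (2 * M) ^ η * (N m / (2 * M)) ^ η := by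
    rw [← Real.mul_rpow (by positivity) (by positivity)]; congr 1; field_simp
  have e4 : (2 * M) ^ η ≤ 2 * Z ^ ε := by
    rw [Real.mul_rpow (by norm_num) hM.le]
    have b1 : (2 : ℝ) ^ η ≤ 2 := by
      simpa using Real.rpow_le_rpow_of_exponent_le (one_le_two (α := ℝ)) h1
    have b2 : M ^ η ≤ Z ^ ε := by
      calc M ^ η ≤ (Z ^ 5) ^ η := Real.rpow_le_rpow hM.le hMZ h0.le
        _ = Z ^ (5 * η) := by
          rw [← Real.rpow_natCast, ← Real.rpow_mul (by linarith)]; norm_num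
        _ ≤ _ := Real.rpow_le_rpow_of_exponent_le hZ (by linarith)
    gcongr
  have e5 := QB.ITail.rpow_mul_G (y := N m / (2 * M)) (by positivity) h0.le h1
  have hZ0 : 0 < Z := by linarith
  calc G (N m / M) * dv m ^ j
      ≤ G (N m / (2 * M)) * G (N m / (2 * M)) * (C ^ j * ((2 * M) ^ η * (N m / (2 * M)) ^ η)) := by
        rw [e1, ← e3]; gcongr
    _ = C ^ j * (2 * M) ^ η * G (N m / (2 * M)) * ((N m / (2 * M)) ^ η * G (N m / (2 * M))) := by
        ring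
    _ ≤ C ^ j * (2 * Z ^ ε) * G (N m / (2 * M)) * 1 := by gcongr
    _ = _ := by ring

lemma Nm_two {κ Z M X P ξ P' : ℝ} (hκ : 0 ≤ κ) (hκ1 : κ ≤ 1) (hM : 0 < M) (hX : 1 ≤ X)
    (h0 : 0 < ξ) (hP' : 0 < P') (hP : P' ≤ P) (h : ξ * P' ≤ X * P) :
    Nm κ Z (2 * M) ξ P' ≤
      2 ^ 11 * ((M + Rt κ X P) * (1 + M / Z ^ 4) ^ 10) * (ξ * P') ^ (1 + κ) := by
  have hX0 : 0 < X := by linarith
  have h1 := crit_le hκ hκ1 hX0 h0 hP' hP one_pos (by rwa [one_mul])
  rw [Real.one_rpow, one_mul] at h1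
  have h2 : min ξ 1 ^ 2 * P' ^ 4 ≤ min X 1 ^ 2 * P ^ 4 := by
    have : 0 ≤ min ξ 1 := le_min h0.le zero_le_one
    rw [min_eq_right hX]
    gcongr
    exact min_le_right _ _
  have h5 : Rt κ ξ P' ≤ Rt κ X P := add_le_add h1 h2
  have h6 := Rt_pos κ h0 hP'
  have h3 : 0 ≤ M / Z ^ 4 := by positivity
  have h4 : 1 + 2 * M / Z ^ 4 ≤ 2 * (1 + M / Z ^ 4) := by rw [mul_div_assoc]; linarith
  calc Nm κ Z (2 * M) ξ P'
      ≤ (2 * (M + Rt κ X P)) * (ξ * P') ^ (1 + κ) * (2 * (1 + M / Z ^ 4)) ^ 10 := by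
        unfold Nm
        have : 0 ≤ 2 * (M + Rt κ X P) := by linarith
        gcongr
        linarith
    _ = _ := by ring

lemma le_Nm {κ Z M X P : ℝ} (hκ : 0 ≤ κ) (hM : 0 < M) (hX : 1 ≤ X) (hP : 1 ≤ P) :
    X ^ (2 + κ) * P ^ (1 + (1 + κ / 2)) ≤ Nm κ Z M X P := by
  have h0 : 0 < X := by linarith
  have h0' : 0 < P := by linarith
  have h1 : (1 : ℝ) ≤ (1 + M / Z ^ 4) ^ 10 := one_le_pow₀ (le_add_of_nonneg_right (by positivity))
  have h2 : X ^ (1 + κ) * P ^ 2 ≤ M + Rt κ X P := by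
    have : 0 ≤ min X 1 ^ 2 * P ^ 4 := by positivity
    unfold Rt; linarith
  calc X ^ (2 + κ) * P ^ (1 + (1 + κ / 2)) ≤ X ^ ((1 + κ) + (1 + κ)) * P ^ (2 + (1 + κ)) :=
        mul_le_mul (Real.rpow_le_rpow_of_exponent_le hX (by linarith))
          (Real.rpow_le_rpow_of_exponent_le hP (by linarith)) (by positivity) (by positivity)
    _ = X ^ (1 + κ) * P ^ 2 * (X * P) ^ (1 + κ) * 1 := by
        rw [Real.rpow_add h0, Real.rpow_add h0' 2, Real.rpow_two, Real.mul_rpow h0.le h0'.le]; ring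
    _ ≤ _ := by
        unfold Nm
        have := Rt_pos κ h0 h0'
        gcongr

end ITail

open ITail in
theorem pITail (hb : Base) (ho : Om) (ht : S_Tail) (hs : S_SW) : S_ITail := by
  intro κ J ε hκ hκ1 hε
  obtain ⟨C0, hC0, h0⟩ := zero_term hb ho hκ
  obtain ⟨C1, hC1, h1⟩ := dv_G hb hε (j := 2 * J + 4) (by omega)
  obtain ⟨C2, hC2, h2⟩ := ht κ J hκ hκ1
  obtain ⟨C3, hC3, h3⟩ := hb.dv_le
  refine ⟨C0 + C2 * (C1 * 5 ^ 16 * 2 ^ 11), by positivity,
    fun Q ν k K L Z b E M X t s hν hL hH hBd hE hX hXZ hM hMZ hk hk0 => ?_⟩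
  have hX0 : 0 < X := by linarith
  have hP := hL.one_le_PL
  have hP0 := hL.PL_pos
  have hZ : 1 ≤ Z := (one_le_mul_of_one_le_of_one_le hX hP).trans hXZ
  have hZ0 : 0 < Z := by linarith
  have hM0 : 0 < M := by linarith
  have hE1 : 1 ≤ E := le_trans (Real.one_le_exp (by norm_num)) hE
  have hE0 : 0 < E := by linarith
  have hNm := Nm_pos κ Z hM0 hX0 hP0
  have hRt := Rt_pos κ hX0 hP0
  have hD := ho.dc K J L X t hL hX0
  have ht1 : (1 : ℝ) ≤ (1 + |t|) ^ 16 := one_le_pow₀ (le_add_of_nonneg_right (abs_nonneg _))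
  refine hs s (fun m => G (N m / M)) (fun _ x => aV ν L X t x.1 * conj (aV ν L X t x.2))
    (fun m e => k e * jj e m) (C3 ^ 2) _ (fun m _ => (QB.G_pos _).le) (fun m _ => ?_)
    (fun m _ x hx => ?_) (fun m _ e he => ?_) (fun T hT => ?_)
  · refine Summable.of_nonneg_of_le (fun _ => by positivity) (fun x => ?_)
      ((hD.summable le_rfl).mul_of_nonneg (sm0 hD (QB.bd1_al hν).2)
        (fun _ => by positivity) (fun _ => norm_nonneg _))
    have a : ‖aV ν L X t x.1‖ ≤ ‖om L X t x.1‖ := by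
      rw [aV, norm_mul]; exact mul_le_of_le_one_left (norm_nonneg _) ((QB.bd1_al hν).2 _)
    rw [norm_mul, Complex.norm_conj, mul_right_comm]
    exact mul_le_mul_of_nonneg_right (mul_le_mul_of_nonneg_right a (by positivity)) (norm_nonneg _)
  · constructor
    · by_contra hq; exact hx (by simp [aV, al, hq])
    · by_contra hq; exact hx (by simp [aV, al, hq])
  · have he0 := he.ne_zero
    have hd := dv_nonneg e
    rw [norm_mul]
    calc ‖k e‖ * ‖jj e m‖ ≤ dv e * (dv e * N e) := by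
          gcongr
          · exact hk e he
          · exact QB.norm_jj_le' he0 m
      _ ≤ (C3 * N e) * ((C3 * N e) * N e) := by gcongr <;> exact h3 e he0
      _ = _ := by ring
  set T' := T.filter fun e => E ≤ (N e : ℝ) with hT'
  have hT1 : ∀ e ∈ T', SQ e ∧ E ≤ (N e : ℝ) := fun e he =>
    ⟨hT e (mem_filter.1 he).1, (mem_filter.1 he).2⟩
  set g : O → ℝ := fun m => ∑ e ∈ T', G (N m / M) * (dv e * ‖jj e m‖) *
    ‖V (fun c => al ν c * ps e c m) L X t‖ ^ 2 with hg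
  have hg0 : ∀ m, 0 ≤ g m := fun m => sum_nonneg fun e _ => by
    have := QB.G_pos (N m / M); have := dv_nonneg e; positivity
  have hmain := h2 Q ν K L (s.erase 0) T' (fun m => G (N m / M)) X t E
    (C1 * Z ^ ε * (b * (5 * (1 + |t|)) ^ 16 *
      (2 ^ 11 * ((M + Rt κ X (PL L)) * (1 + M / Z ^ 4) ^ 10)))) hν hL hX0 hE1 (by positivity)
    (fun m hm => ⟨ne_of_mem_erase hm, (QB.G_pos _).le⟩) hT1 (fun L' hL' hPP ξ t' hξ hξ' htt => by
      have hP' := hL'.PL_pos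
      have hξX : ξ * PL L' ≤ X * PL L := hξ'.trans (by
        rw [div_le_iff₀ hE0, mul_comm]; exact mul_le_mul_of_nonneg_left hE (by positivity))
      have b1 := hH ν hν L' hL' (2 * M) ξ t' (by positivity) hξ (hξX.trans hXZ) (s.erase 0)
      rw [Nq_eq] at b1
      have b2 : 1 + |t'| ≤ 5 * (1 + |t|) := by
        have := abs_sub_abs_le_abs_sub t' t
        have := abs_nonneg t
        linarith
      have b3 := Nm_two (Z := Z) hκ.le hκ1 hM0 hX hξ hP' hPP hξX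
      have b4 := Nm_pos κ Z (M := 2 * M) (by positivity) hξ hP'
      calc ∑ m ∈ s.erase 0, G (N m / M) * dv m ^ (2 * J + 4) * ‖V (uA ν 1 m) L' ξ t'‖ ^ 2
          ≤ ∑ m ∈ s.erase 0, C1 * Z ^ ε * (G (N m / (2 * M)) * ‖V (uA ν 1 m) L' ξ t'‖ ^ 2) := by
            refine sum_le_sum fun m hm => ?_
            rw [← mul_assoc]
            exact mul_le_mul_of_nonneg_right (h1 m M Z (ne_of_mem_erase hm) hM0 hZ hMZ)
              (by positivity)
        _ ≤ C1 * Z ^ ε * ((1 + |t'|) ^ 16 * (b * Nm κ Z (2 * M) ξ (PL L'))) := by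
            rw [← mul_sum]; gcongr
        _ ≤ C1 * Z ^ ε * ((5 * (1 + |t|)) ^ 16 * (b *
            (2 ^ 11 * ((M + Rt κ X (PL L)) * (1 + M / Z ^ 4) ^ 10) * (ξ * PL L') ^ (1 + κ)))) := by
            gcongr
        _ = _ := by ring)
  have hzero : g 0 ≤ C0 * Nm κ Z M X (PL L) := by
    refine le_trans ?_ ((h0 Q ν K J L X t T' hν hL hX0 fun e he => (hT1 e he).1).trans
      (mul_le_mul_of_nonneg_left (le_Nm hκ.le hM0 hX hP) hC0.le))
    refine sum_le_sum fun e _ => le_of_eq ?_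
    simp [G]
  have hY : 0 ≤ Z ^ ε * E ^ (-(κ / 2)) * b := by positivity
  calc _ ≤ ∑ m ∈ s, g m := by
        refine sum_le_sum fun m _ => ?_
        rw [hg, hT']
        simp only
        rw [sum_filter]
        refine sum_le_sum fun e he => ?_
        split_ifs with hc
        · have c1 := QB.norm_sq_tsum (sm0 hD (QB.bd1_alps hν e m).2)
          have c2 : (∑' x : O × O, aV ν L X t x.1 * conj (aV ν L X t x.2) *
              (ps e x.1 m * conj (ps e x.2 m))) =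
              ((‖V (fun c => al ν c * ps e c m) L X t‖ ^ 2 : ℝ) : ℂ) := by
            rw [← ho.adj K J L _ X t hL (Bd1.bn (QB.bd1_alps hν e m)) hX0, c1]
            refine tsum_congr fun x => ?_
            simp only [aV, map_mul]; ring
          rw [c2, Complex.norm_real, Real.norm_of_nonneg (by positivity), norm_mul]
          have := QB.G_pos (N m / M)
          have := dv_nonneg e
          gcongr
          exact hk e (hT e he)
        · simp [hk0 e (le_of_not_ge hc)]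
    _ ≤ g 0 + ∑ m ∈ s.erase 0, g m := by
        by_cases h : (0 : O) ∈ s
        · rw [add_sum_erase _ _ h]
        · rw [erase_eq_of_notMem h]; linarith [hg0 0]
    _ ≤ C0 * Nm κ Z M X (PL L) + C2 * (C1 * 5 ^ 16 * 2 ^ 11) *
          ((Z ^ ε * E ^ (-(κ / 2)) * b) * (1 + |t|) ^ 16 * Nm κ Z M X (PL L)) := by
        refine add_le_add hzero (hmain.trans (le_of_eq ?_))
        unfold Nm; ring
    _ ≤ C0 * ((1 + Z ^ ε * E ^ (-(κ / 2)) * b) * (1 + |t|) ^ 16 * Nm κ Z M X (PL L)) +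
          C2 * (C1 * 5 ^ 16 * 2 ^ 11) *
          ((1 + Z ^ ε * E ^ (-(κ / 2)) * b) * (1 + |t|) ^ 16 * Nm κ Z M X (PL L)) := by
        gcongr
        · exact le_mul_of_one_le_left hNm.le (one_le_mul_of_one_le_of_one_le (by linarith) ht1)
        · linarith
    _ = _ := by ring

end Pool.Agent.P.MP_323ce2_nt.Q1
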