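import Pool.Agent.P.MP_323ce2_nt.Q1.St

/-! Analytic facts on the weight of a list of pieces. -/

namespace Pool.Agent.P.MP_323ce2_nt.Q1

open Finset Pool.Agent.P.MP_26a8c3_nt Pool.Agent.P.MP_26a8c3_nt.QO Pool.Agent.P.MP_26a8c3_nt.QA
open Pool.Agent.P.MP_26a8c3_nt.QB (ML ML0 Bd1 ps al cd Base S_PT S_SW)
open scoped Classical ComplexConjugate

namespace OmP

lemma nr_le {D n : O} (hD : D ≠ 0) (h : D ∣ n) : nr n ≤ N D * nr (quo n D) := by
  obtain ⟨c, rfl⟩ := h
  rw [quo_mul hD]
  by_cases hc : c = 0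
  · have : nr (0 : O) = 1 := by simp [nr]
    rw [hc, mul_zero, this, mul_one]
    exact one_le_N hD
  · rw [QB.nr_mul hD hc]

lemma term_le {S : Finset O} {F : O → ℂ} (h : ∀ D ∈ S, ‖F D‖ ≤ 1) (X t : ℝ) (n : O) :
    ‖∑ D ∈ S, if D ∣ n then F D * W X t (nr (quo n D)) else 0‖ ≤
      ∑ D ∈ S, if D ∣ n then ‖W X t (nr (quo n D))‖ else 0 := by
  refine norm_sum_le_of_le _ fun D hD => ?_
  split_ifs
  · rw [norm_mul]
    exact mul_le_of_le_one_left (norm_nonneg _) (h D hD)
  · simp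

lemma sh {K : ℝ} {J : ℕ} {L : List Pi} (h : Good K J L) {X : ℝ} (hX : 0 < X) (t : ℝ) {a : O}
    (ha : a ≠ 0) (hf : Fr L a) : ∀ n, n ≠ 0 →
    om L X t (a * n) = ((N a : ℝ) : ℂ) ^ ((t : ℂ) * Complex.I) * om L (X / N a) t n := by
  induction L with
  | nil =>
    intro n hn
    rw [om, om, QB.nr_mul ha hn, W_mul hX (N_pos_real ha) (nr_pos n)]
  | cons s L ih =>
    intro n hn
    rw [om, om, mul_sum]
    refine sum_congr rfl fun p hp => ?_
    have p1 := (h.head.pr p hp).1
    have p2 := hf s List.mem_cons_self p hp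
    by_cases hd : p ∣ n
    · obtain ⟨c, rfl⟩ := hd
      rw [if_pos ((dvd_mul_right p c).mul_left a), if_pos (dvd_mul_right p c), mul_left_comm a,
        quo_mul p1.ne_zero, quo_mul p1.ne_zero,
        ih h.tail (fun s' hs' => hf s' (List.mem_cons_of_mem _ hs')) c (right_ne_zero_of_mul hn),
        mul_left_comm]
    · rw [if_neg hd, if_neg fun k => (p1.dvd_or_dvd k).elim p2 hd, mul_zero]

end OmP

open OmP in
theorem pOm (hb : Base) (hf : S_Flat) : Om := by
  refine ⟨fun K J L X t hL hX => ?_, fun K J L u X t hL hu hX => ?_, fun K J L X t n hL hn => ?_,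
    fun ρ σ hρ hσ => ?_, fun K J L X t a n hL hX ha hn h => sh hL hX t ha h n hn⟩
  · obtain ⟨S, F, h1, -, h3⟩ := hf K J L hL
    refine ⟨∑ D ∈ S, Real.exp (6 ^ 2 / 4) * X ^ (6 : ℝ) * (N D : ℝ) ^ (6 : ℝ), fun n => ?_⟩
    rw [h3, sum_mul]
    refine (term_le (fun D hD => (h1 D hD).2.2) X t n).trans (sum_le_sum fun D hD => ?_)
    have d0 := (h1 D hD).1.ne_zero
    have d1 := N_pos_real d0
    have n1 := nr_pos n
    split_ifs with hd
    · refine (norm_W_le hX (nr_pos _) t 6).trans ?_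
      have q1 := nr_pos (quo n D)
      have := Real.rpow_le_rpow_of_nonpos n1 (nr_le d0 hd) (show (-6 : ℝ) ≤ 0 by norm_num)
      rw [Real.mul_rpow d1.le q1.le, Real.rpow_neg d1.le, inv_mul_le_iff₀ (by positivity)] at this
      rw [mul_assoc (_ * _)]
      gcongr
    · positivity
  · obtain ⟨S, F, h1, h2, h3⟩ := hf K J L hL
    have hs : ∀ D, Summable fun c => F D * (u (D * c) * W X t (nr c)) := fun D =>
      ((Bn.summable (u := fun c => u (D * c)) (hu.imp fun _ h _ => h _) hX t).of_norm).mul_left _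
    have e : ∀ D ∈ S, HasSum (fun n => u n * if D ∣ n then F D * W X t (nr (quo n D)) else 0)
        (∑' c, F D * (u (D * c) * W X t (nr c))) := fun D hD => by
      have d0 := (h1 D hD).1.ne_zero
      refine ((mul_right_injective₀ d0).hasSum_iff fun n hn => ?_).1 ?_
      · rw [if_neg fun ⟨c, hc⟩ => hn ⟨c, hc.symm⟩, mul_zero]
      · convert (hs D).hasSum using 2 with c
        simp only [Function.comp, if_pos (dvd_mul_right D c), quo_mul d0]
        ring
    simp only [h3, mul_sum, V, Wsum, h2, sum_mul, mul_assoc]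
    rw [(hasSum_sum e).tsum_eq, Summable.tsum_finsetSum fun D _ => hs D]
  · obtain ⟨S, F, h1, -, h3⟩ := hf K J L hL
    rw [h3]
    refine (term_le (fun D hD => (h1 D hD).2.2) X t n).trans ?_
    rw [← sum_filter]
    refine (sum_le_card_nsmul _ _ 1 fun D _ => norm_W_le_one _ _ _).trans ?_
    rw [nsmul_eq_mul, mul_one, dv]
    exact_mod_cast card_le_card fun D hD =>
      (mem_pdiv hn).2 ⟨(h1 D (mem_filter.1 hD).1).1.1, (mem_filter.1 hD).2⟩
  · obtain ⟨C, hC, h⟩ := QB.sum_W_pow hσ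
    obtain ⟨C', hC', h'⟩ := hb.cnt
    refine ⟨C' * C, by positivity, fun K J L X t s hL hX => ?_⟩
    obtain ⟨S, F, h1, -, h3⟩ := hf K J L hL
    have P0 := hL.PL_pos
    have k : ∀ D ∈ S, ∑ n ∈ s, (if D ∣ n then ‖W X t (nr (quo n D))‖ else 0) * nr n ^ ρ ≤
        PL L ^ ρ * (C * X ^ σ) := fun D hD => by
      have d0 := (h1 D hD).1.ne_zero
      have inj : Set.InjOn (fun n => quo n D) (s.filter (D ∣ ·) : Finset O) := fun a ha b hb e => by
        rw [← mul_quo (mem_filter.1 ha).2, ← mul_quo (mem_filter.1 hb).2]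
        exact congrArg _ e
      refine le_trans ?_ (mul_le_mul_of_nonneg_left (h X t ((s.filter (D ∣ ·)).image
        fun n => quo n D) hX) (by positivity))
      rw [sum_image inj, mul_sum, sum_filter]
      refine sum_le_sum fun n _ => ?_
      split_ifs with hd
      · have := nr_pos n
        rw [mul_left_comm, ← Real.mul_rpow P0.le (nr_pos _).le]
        gcongr
        exact (nr_le d0 hd).trans (mul_le_mul_of_nonneg_right (h1 D hD).2.1 (nr_pos _).le)
      · simp
    calc _ ≤ ∑ n ∈ s, ∑ D ∈ S, (if D ∣ n then ‖W X t (nr (quo n D))‖ else 0) * nr n ^ ρ := by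
          refine sum_le_sum fun n _ => ?_
          rw [← sum_mul, h3]
          exact mul_le_mul_of_nonneg_right (term_le (fun D hD => (h1 D hD).2.2) X t n)
            (Real.rpow_nonneg (nr_pos n).le _)
      _ ≤ S.card * (PL L ^ ρ * (C * X ^ σ)) := by
          rw [sum_comm, ← nsmul_eq_mul]
          exact sum_le_card_nsmul _ _ _ k
      _ ≤ C' * PL L * (PL L ^ ρ * (C * X ^ σ)) := by
          gcongr
          exact h' _ S P0 fun D hD => ⟨(h1 D hD).1.ne_zero, (h1 D hD).2.1⟩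
      _ = _ := by rw [Real.rpow_add P0, Real.rpow_one]; ring

end Pool.Agent.P.MP_323ce2_nt.Q1
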