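import Pool.Agent.P.MP_323ce2_nt.Q1.St

/-! From the sum over coprime arguments to the product of the sum and of the pieces. -/

namespace Pool.Agent.P.MP_323ce2_nt.Q1

open Finset Pool.Agent.P.MP_26a8c3_nt Pool.Agent.P.MP_26a8c3_nt.QO Pool.Agent.P.MP_26a8c3_nt.QA
open Pool.Agent.P.MP_26a8c3_nt.QB (ML ML0 Bd1 ps al cd Base S_PT S_SW)
open scoped Classical ComplexConjugate

namespace Prod

/-- the piece with the inverse coefficients -/
noncomputable def tw (ν : O → ℂ) (s : Pi) : Pi :=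
  ⟨s.S, fun p => s.φ p * (mu p * conj (ν p)), s.hi⟩

lemma FL_cons (s : Pi) (L : List Pi) (m : O) :
    FL (s :: L) m = (∑ p ∈ s.S, s.φ p * psi p m) * FL L m := by simp [FL]

lemma good_tw {Q : O} {ν : O → ℂ} (hν : IsNu Q ν) {K : ℝ} {J : ℕ} {s : Pi} {L₁ L₂ : List Pi}
    (h : Good K J (s :: (L₂ ++ L₁))) : Good K J (L₂ ++ tw ν s :: L₁) := by
  have hp : (tw ν s :: (L₂ ++ L₁)).Perm (L₂ ++ tw ν s :: L₁) := List.perm_middle.symm
  have h1 : (tw ν s).Ok K := ⟨fun p hp => by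
    obtain ⟨a1, a2, a3, a4, a5⟩ := h.head.pr p hp
    exact ⟨a1, a2, a3, a4, QB.norm_mul_le_one a5 (QB.norm_mul_le_one (norm_mu_le p)
      (by rw [Complex.norm_conj]; exact hν.le p))⟩, h.head.lo, h.head.up⟩
  refine ⟨h.one, by rw [← hp.length_eq]; exact h.len, fun x hx => ?_, ?_⟩
  · rcases List.mem_cons.1 (hp.mem_iff.2 hx) with rfl | hx
    exacts [h1, h.tail.ok x hx]
  · refine (hp.pairwise_iff fun hd => Disjoint.symm hd).1 ?_
    exact List.pairwise_cons.2 (List.pairwise_cons.1 h.dj)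

lemma fr_tw {ν : O → ℂ} {s : Pi} {L₁ L₂ : List Pi} {r : O} (h : Fr (s :: (L₂ ++ L₁)) r) :
    Fr (L₂ ++ tw ν s :: L₁) r := fun x hx => by
  rcases List.mem_cons.1 (List.perm_middle.mem_iff.1 hx) with rfl | hx
  exacts [h s List.mem_cons_self, h x (List.mem_cons_of_mem _ hx)]

lemma point (hr : Rx) {Q : O} {ν : O → ℂ} (hν : IsNu Q ν) {K : ℝ} {J : ℕ} {s : Pi} {L : List Pi}
    (h : Good K J (s :: L)) (hQ : ∀ p ∈ s.S, IsCoprime p Q) {r : O} (hf : ∀ p ∈ s.S, ¬ p ∣ r)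
    {ξ : ℝ} (hξ : 0 < ξ) (t : ℝ) (m : O) (w : ℂ) :
    ‖V (uA ν r m) L ξ t * ((∑ p ∈ s.S, s.φ p * psi p m) * w)‖ ^ 2 ≤
      2 * ‖V (uA ν r m) (tw ν s :: L) ξ t * w‖ ^ 2 +
        2 * (s.S.card * ∑ p ∈ s.S, ‖V (uA ν (p * r) m) L (ξ / N p) t * w‖ ^ 2) := by
  have h1 : ∀ p ∈ s.S, ∃ z : ℂ, ‖z‖ ≤ 1 ∧ V (uA ν r m) L ξ t =
      V (uA ν (p * r) m) L ξ t + z * V (uA ν (p * r) m) L (ξ / N p) t := fun p hp =>
    hr.rec1 Q ν p r m K J L ξ t hν (h.head.pr p hp).1 (h.head.pr p hp).2.1 (hf p hp) h.tail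
      (h.fr hp) hξ
  choose! z hz hz' using h1
  have h2 : V (uA ν r m) (tw ν s :: L) ξ t =
      ∑ p ∈ s.S, s.φ p * psi p m * V (uA ν (p * r) m) L ξ t := by
    rw [hr.cons Q ν r m K J (tw ν s) L ξ t hν (good_tw (L₂ := []) hν h) hξ]
    refine sum_congr (filter_true_of_mem hf) fun p hp => ?_
    have e1 := mu_sq (h.head.pr p hp).1.squarefree
    have e2 := hν.mul_conj (hQ p hp)
    have e3 : (tw ν s).φ p * (mu p * ν p * psi p m) =
        s.φ p * psi p m * (mu p ^ 2 * (ν p * conj (ν p))) := by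
      simp only [tw]; ring
    rw [e3, e1, e2, mul_one, mul_one]
  have h3 : V (uA ν r m) L ξ t * ((∑ p ∈ s.S, s.φ p * psi p m) * w) =
      V (uA ν r m) (tw ν s :: L) ξ t * w +
        ∑ p ∈ s.S, s.φ p * psi p m * z p * (V (uA ν (p * r) m) L (ξ / N p) t * w) := by
    rw [h2, sum_mul, sum_mul, mul_sum, ← sum_add_distrib]
    refine sum_congr rfl fun p hp => ?_
    rw [hz' p hp]
    ring
  have h4 : ‖∑ p ∈ s.S, s.φ p * psi p m * z p * (V (uA ν (p * r) m) L (ξ / N p) t * w)‖ ^ 2 ≤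
      s.S.card * ∑ p ∈ s.S, ‖V (uA ν (p * r) m) L (ξ / N p) t * w‖ ^ 2 := by
    refine le_trans (pow_le_pow_left₀ (norm_nonneg _) (norm_sum_le_of_le _ fun p hp => ?_) 2)
      sq_sum_le_card_mul_sum_sq
    rw [norm_mul]
    exact mul_le_of_le_one_left (norm_nonneg _) (QB.norm_mul_le_one
      (QB.norm_mul_le_one (h.head.pr p hp).2.2.2.2 (norm_psi_le _ _)) (hz p hp))
  rw [h3]
  refine (pow_le_pow_left₀ (norm_nonneg _) (norm_add_le _ _) 2).trans ?_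
  nlinarith [sq_nonneg (‖V (uA ν r m) (tw ν s :: L) ξ t * w‖ -
    ‖∑ p ∈ s.S, s.φ p * psi p m * z p * (V (uA ν (p * r) m) L (ξ / N p) t * w)‖)]

lemma gain {κ y h n : ℝ} (h0 : 0 ≤ κ) (h1 : κ ≤ 1) (hy : 0 ≤ y) (hh : 1 ≤ h) (hn : h ≤ 2 * n) :
    h ^ 2 * (y / n) ^ (1 + κ) ≤ 4 * (y * h) ^ (1 + κ) := by
  have n0 : 0 < n := by linarith
  have e1 : h ^ 2 ≤ (h ^ 2) ^ (1 + κ) :=
    Real.self_le_rpow_of_one_le (one_le_pow₀ hh) (by linarith)
  have e2 : h ^ 2 * (y / n) ≤ 2 * (y * h) := by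
    rw [← mul_div_assoc, div_le_iff₀ n0]
    nlinarith [mul_le_mul_of_nonneg_left hn (mul_nonneg hy (by linarith : 0 ≤ h))]
  have e3 : (2 : ℝ) ^ (1 + κ) ≤ 4 :=
    (Real.rpow_le_rpow_of_exponent_le one_le_two (by linarith : 1 + κ ≤ 2)).trans_eq (by norm_num)
  calc h ^ 2 * (y / n) ^ (1 + κ) ≤ (h ^ 2) ^ (1 + κ) * (y / n) ^ (1 + κ) := by gcongr
    _ = (h ^ 2 * (y / n)) ^ (1 + κ) := (Real.mul_rpow (by positivity) (by positivity)).symm
    _ ≤ (2 * (y * h)) ^ (1 + κ) := by gcongr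
    _ = 2 ^ (1 + κ) * (y * h) ^ (1 + κ) := Real.mul_rpow (by positivity) (by positivity)
    _ ≤ _ := by gcongr

lemma ind (hb : Base) (hr : Rx) {κ C₀ : ℝ} (h0 : 0 ≤ κ) (h1 : κ ≤ 1) (hC : 0 < C₀)
    (hcnt : ∀ (Y : ℝ) (s : Finset O), 0 < Y → (∀ m ∈ s, m ≠ 0 ∧ (N m : ℝ) ≤ Y) →
      (s.card : ℝ) ≤ C₀ * Y)
    {Q : O} {ν : O → ℂ} (hν : IsNu Q ν) {K : ℝ} {J : ℕ} {I : Finset O} {wt : O → ℝ}
    (hw : ∀ m, 0 ≤ wt m) {X P t β : ℝ} (hβ : 0 ≤ β)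
    (base : ∀ L r ξ, Good K J L → PL L ≤ P → SQ r → Fr L r → 0 < ξ → ξ ≤ X →
      ∑ m ∈ I, wt m * ‖V (uA ν r m) L ξ t‖ ^ 2 ≤ dv r ^ 2 * β * (ξ * PL L) ^ (1 + κ))
    (L₂ : List Pi) : ∀ (L₁ : List Pi) (r : O) (ξ : ℝ), Good K J (L₂ ++ L₁) →
      (∀ s ∈ L₂, ∀ p ∈ s.S, IsCoprime p Q) → PL L₂ * PL L₁ ≤ P → SQ r → Fr (L₂ ++ L₁) r → 0 < ξ →
      ξ ≤ X → ∑ m ∈ I, wt m * ‖V (uA ν r m) L₁ ξ t * FL L₂ m‖ ^ 2 ≤
        (2 + 32 * C₀ ^ 2) ^ L₂.length * (dv r ^ 2 * β * (ξ * (PL L₂ * PL L₁)) ^ (1 + κ)) := by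
  induction L₂ with
  | nil =>
    intro L₁ r ξ hg _ hP hs hf hξ hX
    simpa [FL] using base L₁ r ξ hg (by simpa using hP) hs hf hξ hX
  | cons s L₂ ih =>
    intro L₁ r ξ hg hQ hP hs hf hξ hX
    rw [List.cons_append] at hg hf
    rw [PL_cons] at hP ⊢
    set c := (2 + 32 * C₀ ^ 2) ^ L₂.length with hc
    have c0 : 0 ≤ c := by positivity
    have hhi : 2 < s.hi := hg.two_lt List.mem_cons_self
    have y0 : 0 < PL L₂ * PL L₁ := by rw [← PL_append]; exact hg.tail.PL_pos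
    have hQ' : ∀ x ∈ L₂, ∀ p ∈ x.S, IsCoprime p Q := fun x hx => hQ x (List.mem_cons_of_mem _ hx)
    have hfs := hf s List.mem_cons_self
    have g1 : Good K J (s :: L₁) := hg.sub ((List.sublist_append_right L₂ L₁).cons_cons s)
    have e0 : PL L₂ * PL (tw ν s :: L₁) = s.hi * PL L₂ * PL L₁ := by
      rw [PL_cons]; simp only [tw]; ring
    have i1 := ih (tw ν s :: L₁) r ξ (good_tw hν hg) hQ' (by rw [e0]; exact hP) hs (fr_tw hf) hξ hX
    rw [e0] at i1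
    set T := dv r ^ 2 * β * (ξ * (s.hi * PL L₂ * PL L₁)) ^ (1 + κ) with hT
    have hcard : (s.S.card : ℝ) ≤ C₀ * s.hi := hcnt _ _ (by linarith) fun p hp =>
      ⟨(hg.head.pr p hp).1.ne_zero, (hg.head.pr p hp).2.2.2.1⟩
    have i2 : ∀ p ∈ s.S, s.hi ^ 2 *
        ∑ m ∈ I, wt m * ‖V (uA ν (p * r) m) L₁ (ξ / N p) t * FL L₂ m‖ ^ 2 ≤ c * (16 * T) := by
      intro p hp
      obtain ⟨a1, a2, a3, a4, -⟩ := hg.head.pr p hp
      have a5 : (1 : ℝ) ≤ N p := by linarith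
      have j1 := ih L₁ (p * r) (ξ / N p) hg.tail hQ'
        (le_trans (by nlinarith) hP)
        (SQ.mul ⟨a2, a1.squarefree⟩ hs (a1.coprime_iff_not_dvd.2 (hfs p hp)))
        (Fr.mul hg.tail (hg.fr hp) fun x hx => hf x (List.mem_cons_of_mem _ hx))
        (by positivity) ((div_le_self hξ.le a5).trans hX)
      have j2 := gain h0 h1 (mul_pos hξ y0).le (by linarith : 1 ≤ s.hi) a3
      rw [hb.dv_prime p r a1 a2 hs.1 (hfs p hp), div_mul_eq_mul_div] at j1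
      refine (mul_le_mul_of_nonneg_left j1 (by positivity)).trans ?_
      rw [mul_left_comm]
      refine mul_le_mul_of_nonneg_left ?_ c0
      have j3 := mul_le_mul_of_nonneg_left j2 (by positivity : 0 ≤ 4 * (dv r ^ 2 * β))
      rw [show ξ * (PL L₂ * PL L₁) * s.hi = ξ * (s.hi * PL L₂ * PL L₁) by ring] at j3
      rw [hT]
      linarith
    have T0 : 0 ≤ T := by
      have : 0 < ξ * (s.hi * PL L₂ * PL L₁) := by rw [mul_assoc s.hi]; positivity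
      rw [hT]; positivity
    have i3 : (s.S.card : ℝ) * ∑ p ∈ s.S,
        ∑ m ∈ I, wt m * ‖V (uA ν (p * r) m) L₁ (ξ / N p) t * FL L₂ m‖ ^ 2 ≤
        C₀ ^ 2 * (c * (16 * T)) := by
      have k1 := sum_le_card_nsmul _ _ _ i2
      rw [← mul_sum, nsmul_eq_mul] at k1
      have k2 : 0 < s.hi ^ 2 := by positivity
      refine le_of_mul_le_mul_left ?_ k2
      calc _ = (s.S.card : ℝ) * (s.hi ^ 2 * ∑ p ∈ s.S,
            ∑ m ∈ I, wt m * ‖V (uA ν (p * r) m) L₁ (ξ / N p) t * FL L₂ m‖ ^ 2) := by ring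
        _ ≤ (s.S.card : ℝ) * ((s.S.card : ℝ) * (c * (16 * T))) := by gcongr
        _ ≤ (C₀ * s.hi) * ((C₀ * s.hi) * (c * (16 * T))) := by gcongr
        _ = _ := by ring
    calc ∑ m ∈ I, wt m * ‖V (uA ν r m) L₁ ξ t * FL (s :: L₂) m‖ ^ 2
        ≤ ∑ m ∈ I, (2 * (wt m * ‖V (uA ν r m) (tw ν s :: L₁) ξ t * FL L₂ m‖ ^ 2) +
            2 * (s.S.card *
              ∑ p ∈ s.S, wt m * ‖V (uA ν (p * r) m) L₁ (ξ / N p) t * FL L₂ m‖ ^ 2)) := by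
          refine sum_le_sum fun m _ => ?_
          rw [FL_cons, ← mul_sum]
          refine (mul_le_mul_of_nonneg_left
            (point hr hν g1 (hQ s List.mem_cons_self) hfs hξ t m (FL L₂ m)) (hw m)).trans_eq ?_
          ring
      _ ≤ 2 * (c * T) + 2 * (C₀ ^ 2 * (c * (16 * T))) := by
          rw [sum_add_distrib, ← mul_sum, ← mul_sum, ← mul_sum, sum_comm]
          linarith
      _ = _ := by rw [List.length_cons, pow_succ _ L₂.length, ← hc]; ring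

end Prod

theorem pProd (hb : Base) (hr : Rx) (hc : S_Cop) : S_Prod := by
  intro κ J h0 h1
  obtain ⟨C₀, hC, hcnt⟩ := hb.cnt
  refine ⟨(2 + 32 * C₀ ^ 2) ^ J, by positivity,
    fun Q ν K L Z b M X t hH hb0 hν hg hQ hM hX hZ I => ?_⟩
  have hP := hg.PL_pos
  have hR := Rt_pos κ hX hP
  set β := b * (1 + |t|) ^ 16 * ((M + Rt κ X (PL L)) * (1 + M / Z ^ 4) ^ 10) with hβ
  have β0 : 0 ≤ β := by positivity
  have h := Prod.ind hb hr h0.le h1 hC hcnt hν (K := K) (J := J) (I := I)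
    (wt := fun m => G (N m / M)) (fun _ => (QB.G_pos _).le) (X := X) (P := PL L) (t := t) β0
    (fun L' r ξ hg' hP' hs hf hξ hξ' => ?_) L [] 1 X (by simpa using hg) hQ (by simp) sq_one
    (fun s hs p hp hd => ((hg.ok s (by simpa using hs)).pr p hp).1.not_unit (isUnit_of_dvd_one hd))
    hX le_rfl
  · refine h.trans ?_
    have e : (2 + 32 * C₀ ^ 2) ^ L.length ≤ (2 + 32 * C₀ ^ 2) ^ J :=
      pow_le_pow_right₀ (by nlinarith [sq_nonneg C₀]) hg.len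
    rw [dv_one, PL_nil, mul_one]
    refine (mul_le_mul_of_nonneg_right e (by positivity)).trans_eq ?_
    rw [hβ, Nm]
    ring
  · have hP0 := hg'.PL_pos
    have := hc κ Q ν K J L' I (fun m => G (N m / M)) X t (β * PL L' ^ (1 + κ)) h0.le h1 hν hg'
      (fun _ _ => (QB.G_pos _).le) (by positivity) (fun x hx hx' => ?_) r hs hf ξ hξ hξ'
    · refine this.trans_eq ?_
      rw [Real.mul_rpow hξ.le hP0.le]
      ring
    · refine (hH ν hν L' hg' M x t hM hx (le_trans (by gcongr) hZ) I).trans ?_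
      have e := Rt_mono h0.le hx hx' hP0.le hP'
      rw [Nq_eq, Nm, Real.mul_rpow hx.le hP0.le, hβ]
      calc _ = b * (1 + |t|) ^ 16 * ((M + Rt κ x (PL L')) * (1 + M / Z ^ 4) ^ 10) *
            PL L' ^ (1 + κ) * x ^ (1 + κ) := by ring
        _ ≤ _ := by gcongr

theorem pDy {Q : O} (h1 : S_Boot Q) (h2 : S_Prod) : S_Dy Q := by
  intro J ε η hε hη
  set κ := min (ε / 2) (1 / 2) with hκ
  have k0 : 0 < κ := lt_min (by positivity) (by norm_num)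
  have k1 : κ ≤ 1 / 2 := min_le_right _ _
  have k2 : κ ≤ ε / 2 := min_le_left _ _
  obtain ⟨C₁, Z₀, hC₁, H₁⟩ := h1 κ J η k0 k1 hη
  obtain ⟨C₂, hC₂, H₂⟩ := h2 κ J k0 (by linarith)
  refine ⟨C₂ * C₁ * 2 ^ 10, max Z₀ 1, by positivity,
    fun ν K L Z M X t hZ hK hν hg hQ hM hM' hX hXZ => ?_⟩
  have Z1 : 1 ≤ Z := (le_max_right _ _).trans hZ
  have K0 : 0 < K := one_pos.trans_le hg.one
  have P1 := hg.one_le_PL
  refine (H₂ Q ν K L Z _ M X t (H₁ Z K ((le_max_left _ _).trans hZ) hK) (by positivity) hν hg hQ hM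
    hX hXZ).mono hM le_rfl ?_
  have e1 : 1 ≤ Z ^ κ := Real.one_le_rpow Z1 k0.le
  have e2 : X ^ (1 + κ) ≤ X * Z ^ κ := by
    rw [Real.rpow_add hX, Real.rpow_one]
    gcongr
    exact (le_mul_of_one_le_right hX.le P1).trans hXZ
  have e3 : (X * PL L) ^ (1 + κ) ≤ X * PL L * Z ^ κ := by
    rw [Real.rpow_add (by positivity), Real.rpow_one]
    gcongr
  have e4 : min X 1 ^ 2 ≤ Z ^ κ :=
    (pow_le_one₀ (le_min hX.le zero_le_one) (min_le_right _ _)).trans e1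
  have e5 : M + Rt κ X (PL L) ≤ Z ^ κ * (M + X * PL L ^ 2 + PL L ^ 4) := by
    have a1 := le_mul_of_one_le_left hM.le e1
    have a2 := mul_le_mul_of_nonneg_right e2 (by positivity : 0 ≤ PL L ^ 2)
    have a3 := mul_le_mul_of_nonneg_right e4 (by positivity : 0 ≤ PL L ^ 4)
    unfold Rt
    linarith
  have e6 : 1 + M / Z ^ 4 ≤ 2 := by
    have := (div_le_one (by positivity : 0 < Z ^ 4)).2 hM'
    linarith
  have e7 : Z ^ κ * Z ^ κ ≤ Z ^ ε := by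
    rw [← Real.rpow_add (by linarith)]
    exact Real.rpow_le_rpow_of_exponent_le Z1 (by linarith)
  have e8 := Rt_pos κ hX hg.PL_pos
  calc C₂ * (C₁ * K ^ 23) * (1 + |t|) ^ 16 * Nm κ Z M X (PL L)
      ≤ C₂ * (C₁ * K ^ 23) * (1 + |t|) ^ 16 *
          (Z ^ κ * (M + X * PL L ^ 2 + PL L ^ 4) * (X * PL L * Z ^ κ) * 2 ^ 10) := by
        unfold Nm
        gcongr
    _ = C₂ * C₁ * 2 ^ 10 * (Z ^ κ * Z ^ κ) * K ^ 23 * (1 + |t|) ^ 16 *
          ((M + X * PL L ^ 2 + PL L ^ 4) * (X * PL L)) := by ring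
    _ ≤ _ := by gcongr

end Pool.Agent.P.MP_323ce2_nt.Q1
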