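import Pool.Agent.P.MP_323ce2_nt.Q1.St
import Pool.Agent.P.MP_26a8c3_nt.QB.Rx

/-! Reindexing of the Moebius side sums with pieces. -/

namespace Pool.Agent.P.MP_323ce2_nt.Q1

open Finset Pool.Agent.P.MP_26a8c3_nt Pool.Agent.P.MP_26a8c3_nt.QO Pool.Agent.P.MP_26a8c3_nt.QA
open Pool.Agent.P.MP_26a8c3_nt.QB (ML ML0 Bd1 ps al cd Base S_PT S_SW)
open scoped Classical ComplexConjugate

namespace RxP

variable {Q : O} {ν : O → ℂ}

lemma bn (hν : IsNu Q ν) (r m : O) : Bn (uA ν r m) := Bd1.bn (QB.bd1_uA hν r m)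

lemma tsum_dvd {d : O} (hd : d ≠ 0) {u : O → ℂ} (h0 : ∀ c, ¬ d ∣ c → u c = 0) (w : O → ℂ) :
    ∑' n, u n * w n = ∑' c, u (d * c) * w (d * c) := by
  refine ((mul_right_injective₀ hd).tsum_eq (f := fun c => u c * w c) fun c hc => ?_).symm
  by_contra hn
  exact hc (mul_eq_zero_of_left (h0 c fun ⟨x, hx⟩ => hn ⟨x, hx.symm⟩) _)

lemma V_add {u v : O → ℂ} (hu : Bn u) (hv : Bn v) (L : List Pi) {X : ℝ} (hX : 0 < X) (t : ℝ) :
    V (fun c => u c + v c) L X t = V u L X t + V v L X t := by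
  simpa using V_sum (univ : Finset Bool) (fun _ => 1) (u := fun b => bif b then u else v)
    (fun b _ => by cases b <;> assumption) L hX t

lemma uA_mul (hν : IsNu Q ν) {p r : O} (hp : Prime p) (h1 : Primary p) (hr : ¬ p ∣ r) (m c : O) :
    uA ν r m (p * c) = mu p * ν p * psi p m * uA ν (p * r) m c := by
  have hs : SQ p := ⟨h1, hp.squarefree⟩
  have hpr : IsCoprime p r := hp.coprime_iff_not_dvd.2 hr
  rw [uA, uA]
  by_cases h : SQ c ∧ IsCoprime c (p * r)
  · have h2 := IsCoprime.mul_right_iff.1 h.2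
    rw [if_pos h, if_pos ⟨(QB.Rx.sq_mul_iff hs).2 ⟨h.1, h2.1⟩, hpr.mul_left h2.2⟩,
      mu_mul h2.1.symm, hν.mul, psi_mul_left hp.ne_zero h.1.ne_zero]
    ring
  · rw [if_neg h, mul_zero, if_neg]
    rintro ⟨h2, h3⟩
    have h4 := (QB.Rx.sq_mul_iff hs).1 h2
    exact h ⟨h4.1, h4.2.mul_right h3.of_mul_left_right⟩

lemma not_cop {p r : O} (hp : Prime p) (hr : p ∣ r) (c : O) : ¬ IsCoprime (p * c) r :=
  fun h => hp.not_isUnit (h.isUnit_of_dvd' (dvd_mul_right p c) hr)

lemma uA_split {p : O} (hp : Prime p) (r m c : O) :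
    uA ν r m c = uA ν (p * r) m c + if p ∣ c then uA ν r m c else 0 := by
  by_cases hc : p ∣ c
  · rw [if_pos hc, uA.eq_1 ν (p * r), if_neg, zero_add]
    exact fun h => hp.not_isUnit (h.2.isUnit_of_dvd' hc (dvd_mul_right p r))
  · rw [if_neg hc, add_zero, uA, uA]
    refine if_congr (and_congr_right fun _ => ?_) rfl rfl
    rw [IsCoprime.mul_right_iff]
    exact ⟨fun h => ⟨(hp.coprime_iff_not_dvd.2 hc).symm, h⟩, fun h => h.2⟩

lemma op_cut {K : ℝ} {J : ℕ} {L : List Pi} (hL : Good K J L) (r : O) {u : O → ℂ}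
    (hu : ∀ c, ¬ IsCoprime c r → u c = 0) : op (cut r L) u = op L u := by
  induction L generalizing u with
  | nil => rfl
  | cons s L ih =>
    have e : (s.cut r).T u = s.T u := by
      funext c
      refine sum_filter_of_ne fun p hp h hd => h ?_
      rw [hu _ (not_cop (hL.head.pr p hp).1 hd c), mul_zero]
    rw [cut_cons, op, op, e]
    refine ih hL.tail fun c hc => sum_eq_zero fun p _ => ?_
    rw [hu _ fun h => hc h.of_mul_left_right, mul_zero]

end RxP

open RxP in
theorem pRx (ho : Om) : Rx where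
  div := fun Q ν e m K J L X t hν he hL hX => by
    rw [← ho.adj K J L _ X t hL (Bd1.bn (QB.bd1_alps hν e m)) hX,
      tsum_dvd he.ne_zero (u := fun c => al ν c * ps e c m)
        fun c hc => by rw [ps, if_neg hc, mul_zero]]
    have h1 : ∀ c, al ν (e * c) * ps e (e * c) m * om L X t (e * c) =
        mu e * ν e * (uA ν e m c * om L X t (e * c)) := fun c => by
      rw [ps, if_pos (dvd_mul_right e c), quo_mul he.ne_zero, al, uA]
      by_cases h : SQ c ∧ IsCoprime c e
      · rw [if_pos h, if_pos ((QB.Rx.sq_mul_iff he).2 h), mu_mul h.2.symm, hν.mul]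
        ring
      · rw [if_neg h, if_neg (mt (QB.Rx.sq_mul_iff he).1 h)]
        ring
    rw [tsum_congr h1, tsum_mul_left, norm_mul]
    exact mul_le_of_le_one_left (norm_nonneg _) (QB.norm_mul_le_one (norm_mu_le e) (hν.le e))
  cut := fun ν r m K J L X t hL => by
    rw [V, V, op_cut hL r (u := uA ν r m) fun c hc => if_neg fun h => hc h.2]
  rec1 := fun Q ν p r m K J L X t hν hp h1 hr hL hF hX => by
    have hb : Bn fun c => if p ∣ c then uA ν r m c else 0 := ⟨1, fun c => by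
      dsimp only
      split_ifs
      · exact (QB.bd1_uA hν r m).2 c
      · simp⟩
    refine ⟨_, QB.Rx.norm_coef (QB.norm_mul_le_one (QB.norm_mul_le_one (norm_mu_le p) (hν.le p))
      (norm_psi_le p m)) hp.ne_zero t, ?_⟩
    rw [show uA ν r m = fun c => uA ν (p * r) m c + if p ∣ c then uA ν r m c else 0 from
      funext (uA_split hp r m), V_add (bn hν _ m) hb L hX, ← ho.adj K J L _ X t hL hb hX,
      tsum_dvd hp.ne_zero (u := fun c => if p ∣ c then uA ν r m c else 0) fun c hc => if_neg hc,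
      ← ho.adj K J L _ (X / N p) t hL (bn hν _ m) (div_pos hX (N_pos_real hp.ne_zero)),
      ← tsum_mul_left]
    refine congrArg _ (tsum_congr fun c => ?_)
    rw [if_pos (dvd_mul_right p c), uA_mul hν hp h1 hr]
    rcases eq_or_ne c 0 with rfl | hc
    · simp [(QB.bd1_uA hν (p * r) m).1]
    · rw [ho.sh K J L X t p c hL hX hp.ne_zero hc hF]
      ring
  cons := fun Q ν r m K J s L X t hν hL hX => by
    rw [V_cons, ← V_sum _ _ (fun p _ => bn hν (p * r) m) L hX t]
    congr 1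
    funext c
    rw [Pi.T, sum_filter]
    refine sum_congr rfl fun p hp => ?_
    obtain ⟨h1, h2, -⟩ := hL.head.pr p hp
    by_cases h : p ∣ r
    · rw [if_neg (not_not.2 h), uA, if_neg fun e => not_cop h1 h c e.2, mul_zero]
    · rw [if_pos h, uA_mul hν h1 h2 h]
      ring

end Pool.Agent.P.MP_323ce2_nt.Q1
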