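import Pool.Agent.P.MP_323ce2_nt.Q1.St

/-! The weight at a multiple. -/

namespace Pool.Agent.P.MP_323ce2_nt.Q1

open Finset Pool.Agent.P.MP_26a8c3_nt Pool.Agent.P.MP_26a8c3_nt.QO Pool.Agent.P.MP_26a8c3_nt.QA
open Pool.Agent.P.MP_26a8c3_nt.QB (ML ML0 Bd1 ps al cd Base S_PT S_SW)
open scoped Classical ComplexConjugate

namespace Sh

variable {K X t b : ℝ} {J : ℕ}

lemma sm (ho : Om) {L : List Pi} (hL : Good K J L) (hX : 0 < X) {u : O → ℂ} (hu : Bn u) {a : O}
    (ha : a ≠ 0) : Summable fun n => u n * om L X t (a * n) := by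
  obtain ⟨B, hB⟩ := hu
  have h := ((ho.dc K J L X t hL hX).summable (k := 0) (by norm_num)).comp_injective
    (mul_right_injective₀ ha)
  refine Summable.of_norm_bounded (h.mul_left B) fun n => ?_
  simp only [Function.comp, pow_zero, mul_one, norm_mul]
  exact mul_le_mul_of_nonneg_right (hB n) (norm_nonneg _)

lemma cut_mul {L : List Pi} (hL : Good K J L) {p : O} (hp : Fr L p) (a : O) :
    cut (p * a) L = cut a L := by
  refine List.map_congr_left fun s hs => ?_
  simp only [Pi.cut]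
  congr 1
  exact filter_congr fun q hq => not_congr
    ⟨fun h => (((hL.ok s hs).pr q hq).1.dvd_or_dvd h).resolve_left (hp s hs q hq),
      fun h => h.mul_left p⟩

lemma hs1 (ho : Om) {L : List Pi} (hL : Good K J L) (hX : 0 < X) {u : O → ℂ} (hu : Bn u) {p a : O}
    (hp : p ≠ 0) (ha : a ≠ 0) (z : ℂ) :
    HasSum (fun n => u n * if p ∣ p * a * n then z * om L X t (quo (p * a * n) p) else 0)
      (z * ∑' n, u n * om L X t (a * n)) := by
  refine ((sm ho hL hX hu ha).hasSum.mul_left z).congr_fun fun n => ?_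
  rw [mul_assoc p, if_pos (dvd_mul_right _ _), quo_mul hp, mul_left_comm]

lemma hs2 (ho : Om) {L : List Pi} (hL : Good K J L) (hX : 0 < X) {u : O → ℂ} (hu : Bn u) {p a : O}
    (hp : Prime p) (ha : a ≠ 0) (h : ¬ p ∣ a) (z : ℂ) :
    HasSum (fun n => u n * if p ∣ a * n then z * om L X t (quo (a * n) p) else 0)
      (∑' c, z * u (p * c) * om L X t (a * c)) := by
  obtain ⟨B, hB⟩ := hu
  have h1 : Bn fun c => z * u (p * c) := ⟨‖z‖ * B, fun c => by
    rw [norm_mul]; exact mul_le_mul_of_nonneg_left (hB _) (norm_nonneg _)⟩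
  refine ((mul_right_injective₀ hp.ne_zero).hasSum_iff fun n hn => ?_).1
    ((sm ho hL hX h1 ha).hasSum.congr_fun fun c => ?_)
  · rw [if_neg fun e => hn ?_, mul_zero]
    obtain ⟨c, rfl⟩ := (hp.dvd_or_dvd e).resolve_left h
    exact ⟨c, rfl⟩
  · simp only [Function.comp]
    rw [mul_left_comm a, if_pos (dvd_mul_right _ _), quo_mul hp.ne_zero]
    ring

lemma main (ho : Om) (hX : 0 < X) (hb : 0 ≤ b) (L : List Pi) : Good K J L → ∀ (u : O → ℂ) (a : O),
    Bn u → u 0 = 0 → Primary a → (∀ g ∈ pdiv a, ∀ L', L'.Sublist L → PL L' * N g ≤ PL L →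
      ‖V u (cut a L') (X * N g / N a) t‖ ≤ b) →
    ‖∑' n, u n * om L X t (a * n)‖ ≤ (2 * dv a) ^ L.length * b := by
  induction L with
  | nil =>
    intro _ u a _ h0 ha h
    have a0 := ha.ne_zero
    have h1 := h 1 ((mem_pdiv a0).2 ⟨primary_one, one_dvd _⟩) [] (List.Sublist.refl _) (by simp)
    have e : ∀ n, u n * om [] X t (a * n) =
        ((N a : ℝ) : ℂ) ^ ((t : ℂ) * Complex.I) * (u n * W (X / N a) t (nr n)) := fun n => by
      rcases eq_or_ne n 0 with rfl | hn
      · simp [h0]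
      · rw [om, QB.nr_mul a0 hn, W_mul hX (N_pos_real a0) (nr_pos n), mul_left_comm]
    rw [tsum_congr e, tsum_mul_left, norm_mul, Complex.norm_cpow_eq_rpow_re_of_pos (N_pos_real a0)]
    simpa [V, cut, op, Wsum] using h1
  | cons s L ih =>
    intro hL u a hu h0 ha h
    have a0 := ha.ne_zero
    have hT := hL.tail
    have hd := QB.one_le_dv a0
    have hs : 0 < s.hi := by linarith [hL.two_lt List.mem_cons_self]
    have e1 : HasSum (fun n => ∑ p ∈ s.S.filter (· ∣ a),
        u n * if p ∣ a * n then s.φ p * om L X t (quo (a * n) p) else 0)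
        (∑ p ∈ s.S.filter (· ∣ a), s.φ p * ∑' n, u n * om L X t (quo a p * n)) :=
      hasSum_sum fun p hp => by
        obtain ⟨h1, c, rfl⟩ := mem_filter.1 hp
        have p0 := (hL.head.pr p h1).1.ne_zero
        rw [quo_mul p0]
        exact hs1 ho hT hX hu p0 (right_ne_zero_of_mul a0) _
    have e2 : HasSum (fun n => ∑ p ∈ s.S.filter (fun p => ¬ p ∣ a),
        u n * if p ∣ a * n then s.φ p * om L X t (quo (a * n) p) else 0)
        (∑' c, (s.cut a).T u c * om L X t (a * c)) := by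
      obtain ⟨B, hB⟩ := hu
      simp only [Pi.T, Pi.cut, sum_mul]
      rw [Summable.tsum_finsetSum fun p _ => sm ho hT hX ⟨‖s.φ p‖ * B, fun c => by
        rw [norm_mul]; exact mul_le_mul_of_nonneg_left (hB _) (norm_nonneg _)⟩ a0]
      exact hasSum_sum fun p hp => hs2 ho hT hX ⟨B, hB⟩ (hL.head.pr p (mem_filter.1 hp).1).1 a0
        (mem_filter.1 hp).2 _
    have e3 := (e1.add e2).tsum_eq
    simp only [← mul_sum, ← mul_add, sum_filter_add_sum_filter_not] at e3
    have b1 : ∀ p ∈ s.S.filter (· ∣ a),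
        ‖s.φ p * ∑' n, u n * om L X t (quo a p * n)‖ ≤ (2 * dv a) ^ L.length * b := by
      intro p hp
      obtain ⟨h1, c, rfl⟩ := mem_filter.1 hp
      obtain ⟨p1, p2, -, p4, p5⟩ := hL.head.pr p h1
      have p0 := p1.ne_zero
      have hc := ha.of_mul p2
      rw [quo_mul p0, norm_mul]
      refine (mul_le_of_le_one_left (norm_nonneg _) p5).trans
        ((ih hT u c hu h0 hc fun g hg L' k1 k2 => ?_).trans ?_)
      · obtain ⟨g1, g2⟩ := (mem_pdiv hc.ne_zero).1 hg
        have := h (p * g) ((mem_pdiv a0).2 ⟨p2.mul g1, mul_dvd_mul_left p g2⟩) L'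
          (k1.cons s) (by
            rw [map_mul, Nat.cast_mul, mul_left_comm, PL_cons]
            exact mul_le_mul p4 k2 (mul_nonneg (hT.sub k1).PL_pos.le (Nat.cast_nonneg _)) hs.le)
        rwa [cut_mul (hT.sub k1) (fun s' k q => hL.fr h1 s' (k1.subset k) q), map_mul, map_mul,
          Nat.cast_mul, Nat.cast_mul, mul_left_comm,
          mul_div_mul_left _ _ (N_pos_real p0).ne'] at this
      · have := QB.dv_mono (dvd_mul_left c p) a0
        have := QB.dv_nonneg c
        gcongr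
    have b2 := ih hT ((s.cut a).T u) a (hu.T _) (by simp [Pi.T, h0]) ha fun g hg L' k1 k2 => by
      rw [← V_cons, ← cut_cons]
      refine h g hg _ (k1.cons_cons s) ?_
      rw [PL_cons, PL_cons, mul_assoc]
      exact mul_le_mul_of_nonneg_left k2 hs.le
    have b3 : ((s.S.filter (· ∣ a)).card : ℝ) ≤ dv a := by
      unfold dv
      exact_mod_cast card_le_card fun p hp =>
        (mem_pdiv a0).2 ⟨(hL.head.pr p (mem_filter.1 hp).1).2.1, (mem_filter.1 hp).2⟩
    have b4 := (norm_sum_le _ _).trans (sum_le_card_nsmul _ _ _ b1)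
    have b5 : 0 ≤ (2 * dv a) ^ L.length * b := by positivity
    rw [nsmul_eq_mul] at b4
    simp only [om]
    rw [e3, List.length_cons, pow_succ]
    refine (norm_add_le_of_le b4 b2).trans ?_
    nlinarith [mul_le_mul_of_nonneg_right b3 b5, mul_le_mul_of_nonneg_right hd b5]

end Sh

theorem pSh (ho : Om) : S_Sh := by
  intro K J L u a X t b hL hu h0 ha hX hb h
  have hd := QB.one_le_dv ha.ne_zero
  exact (Sh.main ho hX hb L hL u a hu h0 ha h).trans
    (mul_le_mul_of_nonneg_right (pow_le_pow_right₀ (by linarith) hL.len) hb)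

end Pool.Agent.P.MP_323ce2_nt.Q1
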