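import Pool.Agent.P.MP_323ce2_nt.Q1.St
import Pool.Agent.P.MP_26a8c3_nt.QO.P2
import Pool.Agent.P.MP_26a8c3_nt.QO.Cnt

/-! The trivial large sieve for the sextic symbols. -/

namespace Pool.Agent.P.MP_323ce2_nt.Q1

open Finset Pool.Agent.P.MP_26a8c3_nt Pool.Agent.P.MP_26a8c3_nt.QO Pool.Agent.P.MP_26a8c3_nt.QA
open Pool.Agent.P.MP_26a8c3_nt.QB (ML ML0 Bd1 ps al cd Base S_PT S_SW)
open scoped Classical ComplexConjugate

namespace TS

lemma norm_pp (a b m : O) : ‖psi a m * conj (psi b m)‖ ≤ 1 :=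
  QB.norm_mul_le_one (norm_psi_le _ _) (by rw [Complex.norm_conj]; exact norm_psi_le _ _)

/-- a bounded periodic function with mean zero against the Gaussian -/
lemma poi0 (hA : Alg) {q : O} (hq : q ≠ 0) {F : O → ℂ} (hF : Per q F) (h1 : ∀ x, ‖F x‖ ≤ 1)
    (h0 : sm q F = 0) {M : ℝ} (hM : 0 < M) :
    ‖∑' m : O, F m * (G (N m / M) : ℝ)‖ ≤ th * N q := by
  have hN := N_pos_real hq
  have hU : 0 < (N q : ℝ) / M := by positivity
  have h2 : ‖∑' h : O, ft F q h * (G (M * N h / N q) : ℝ)‖ ≤ N q * (th * (N q / M)) := by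
    refine (tsum_of_norm_bounded ((summable_G_ne hU).mul_left (N q : ℝ)).hasSum fun h => ?_).trans ?_
    · split_ifs with e
      · rw [e, ft_zero, h0]; simp
      · rw [norm_mul, Complex.norm_real, Real.norm_of_nonneg (QB.G_pos _).le,
          show M * N h / N q = N h / (N q / M) by field_simp]
        exact mul_le_mul_of_nonneg_right (by simpa using norm_ft_le hq h1 h) (QB.G_pos _).le
    · rw [tsum_mul_left]
      exact mul_le_mul_of_nonneg_left (tsum_G_ne_le hU) hN.le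
  rw [hA.poi q F M hq hF hM, norm_mul, Complex.norm_real, Real.norm_of_nonneg (by positivity)]
  refine (mul_le_mul_of_nonneg_left h2 (by positivity)).trans (le_of_eq ?_)
  field_simp

/-- the off-diagonal kernel -/
lemma ker (hA : Alg) {a b : O} (ha : SQO a) (hb : SQO b) (hab : a ≠ b) {M : ℝ} (hM : 0 < M) :
    ‖∑' m : O, psi a m * conj (psi b m) * (G (N m / M) : ℝ)‖ ≤ th * (N a * N b) := by
  obtain ⟨g, a', b', rfl, rfl, hg, hc⟩ := P2.exists_dec ha.1 b
  have sa : SQO a' := ⟨ha.1.right hg, (od_mul.1 ha.2).2⟩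
  have sb : SQO b' := ⟨hb.1.right hg, (od_mul.1 hb.2).2⟩
  have g0 := hg.ne_zero
  have a0 := sa.1.ne_zero
  have b0 := sb.1.ne_zero
  have hp : Per (a' * b') fun m => psi a' m * conj (psi b' m) := fun x y e => by
    simp only [psi_congr ((dvd_mul_right a' b').trans e), psi_congr ((dvd_mul_left b' a').trans e)]
  have hp' : Per g fun m => psi g m * conj (psi g m) := fun x y e => by simp only [psi_congr e]
  have e : ∀ m, psi (g * a') m * conj (psi (g * b') m) =
      psi g m * conj (psi g m) * (psi a' m * conj (psi b' m)) := fun m => by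
    rw [psi_mul_left g0 a0, psi_mul_left g0 b0, map_mul]; ring
  have hz : conj (psi a' 0) * psi b' 0 = 0 := by
    by_contra hne
    have u1 : IsUnit a' := isCoprime_zero_left.1 (by_contra fun h =>
      hne (by rw [(psi_eq_zero a0).2 h]; simp))
    have u2 : IsUnit b' := isCoprime_zero_left.1 (by_contra fun h =>
      hne (by rw [(psi_eq_zero b0).2 h]; simp))
    exact hab (by rw [sa.1.1.eq_one_of_isUnit u1, sb.1.1.eq_one_of_isUnit u2])
  have h0 : sm (a' * b') (fun m => psi a' m * conj (psi b' m)) = 0 := by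
    have e1 := hA.r4.2.2.2 a' b' 0 sa sb hc
    rw [hz, mul_zero, ft_zero] at e1
    linear_combination (mu a' * mu b') * e1 -
      sm (a' * b') (fun m => psi a' m * conj (psi b' m)) * (mu b' ^ 2 * mu_sq sa.1.2 + mu_sq sb.1.2)
  simp only [e]
  refine (poi0 hA (mul_ne_zero g0 (mul_ne_zero a0 b0))
    ((hp'.mono (dvd_mul_right _ _)).mul (hp.mono (dvd_mul_left _ _)))
    (fun x => QB.norm_mul_le_one (norm_pp _ _ _) (norm_pp _ _ _)) ?_ hM).trans ?_
  · rw [sm_crt_mul g0 (mul_ne_zero a0 b0) (ha.1.coprime.mul_right hb.1.coprime) hp' hp, h0,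
      mul_zero]
  · have := one_le_th
    have h1 := one_le_N g0
    simp only [map_mul, Nat.cast_mul]
    refine mul_le_mul_of_nonneg_left ?_ (by linarith)
    nlinarith [mul_nonneg (mul_nonneg (N_pos_real g0).le (mul_nonneg (N_pos_real a0).le
      (N_pos_real b0).le)) (sub_nonneg.2 h1)]

/-- the diagonal kernel -/
lemma ker0 (a b : O) {M : ℝ} (hM : 0 < M) :
    ‖∑' m : O, psi a m * conj (psi b m) * (G (N m / M) : ℝ)‖ ≤ th * (1 + M) := by
  refine (tsum_of_norm_bounded (summable_G hM).hasSum fun m => ?_).trans (tsum_G_le hM)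
  rw [norm_mul, Complex.norm_real, Real.norm_of_nonneg (QB.G_pos _).le]
  exact mul_le_of_le_one_left (QB.G_pos _).le (norm_pp _ _ _)

end TS

open TS in
theorem pTS (hA : Alg) (_hb : Base) : S_TS := by
  have ht := one_le_th
  refine ⟨17 * th, by positivity, fun S a P M hP hM hS s => ?_⟩
  have e : ∀ m : O, ((G (N m / M) * ‖∑ d ∈ S, a d * psi d m‖ ^ 2 : ℝ) : ℂ) =
      ∑ d ∈ S, ∑ c ∈ S, a d * conj (a c) * (psi d m * conj (psi c m) * (G (N m / M) : ℝ)) :=
    fun m => by
      rw [Complex.ofReal_mul, Complex.ofReal_pow, ← Complex.mul_conj', map_sum, sum_mul_sum,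
        mul_sum]
      refine sum_congr rfl fun d _ => ?_
      rw [mul_sum]
      refine sum_congr rfl fun c _ => ?_
      rw [map_mul]; ring
  have hs : HasSum (fun m : O => ((G (N m / M) * ‖∑ d ∈ S, a d * psi d m‖ ^ 2 : ℝ) : ℂ))
      (∑ d ∈ S, ∑ c ∈ S, a d * conj (a c) *
        ∑' m : O, psi d m * conj (psi c m) * (G (N m / M) : ℝ)) := by
    simp only [e]
    exact hasSum_sum fun d _ => hasSum_sum fun c _ =>
      (summable_mul_real (norm_pp d c) (summable_G hM)).hasSum.mul_left _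
  have h1 := sum_le_hasSum s (fun m _ => by
    rw [Complex.ofReal_re]; exact mul_nonneg (QB.G_pos _).le (sq_nonneg _)) (Complex.hasSum_re hs)
  simp only [Complex.ofReal_re] at h1
  refine h1.trans ((Complex.re_le_norm _).trans ?_)
  have hc : (S.card : ℝ) ≤ 16 * P :=
    card_le_of_N_le (by linarith) fun n hn => ⟨(hS n hn).1.1.ne_zero, (hS n hn).2⟩
  have h2 : (∑ d ∈ S, ‖a d‖) ^ 2 ≤ 16 * P * ∑ d ∈ S, ‖a d‖ ^ 2 :=
    sq_sum_le_card_mul_sum_sq.trans
      (mul_le_mul_of_nonneg_right hc (sum_nonneg fun _ _ => sq_nonneg _))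
  have h3 : 0 ≤ ∑ d ∈ S, ‖a d‖ ^ 2 := sum_nonneg fun _ _ => sq_nonneg _
  calc _ ≤ ∑ d ∈ S, ∑ c ∈ S, ((if d = c then th * (1 + M) * ‖a d‖ ^ 2 else 0) +
        th * P ^ 2 * (‖a d‖ * ‖a c‖)) := by
        refine norm_sum_le_of_le _ fun d hd => norm_sum_le_of_le _ fun c hc => ?_
        rw [norm_mul, norm_mul, Complex.norm_conj]
        split_ifs with h
        · subst h
          have := mul_le_mul_of_nonneg_left (ker0 d d hM) (mul_self_nonneg ‖a d‖)
          have : 0 ≤ th * P ^ 2 * (‖a d‖ * ‖a d‖) := by positivity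
          linarith
        · have k1 : (N d : ℝ) * N c ≤ P ^ 2 := by
            rw [sq]; exact mul_le_mul (hS d hd).2 (hS c hc).2 (Nat.cast_nonneg _) (by linarith)
          have k2 := (ker hA (hS d hd).1 (hS c hc).1 h hM).trans
            (mul_le_mul_of_nonneg_left k1 (by linarith))
          rw [zero_add, mul_comm]
          exact mul_le_mul_of_nonneg_right k2 (by positivity)
    _ = th * (1 + M) * ∑ d ∈ S, ‖a d‖ ^ 2 + th * P ^ 2 * (∑ d ∈ S, ‖a d‖) ^ 2 := by
        simp only [sum_add_distrib, sum_ite_eq, ← mul_sum]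
        rw [sq (∑ d ∈ S, ‖a d‖), ← sum_mul, sum_congr rfl fun d hd => if_pos hd, ← mul_sum]
    _ ≤ th * (1 + M) * ∑ d ∈ S, ‖a d‖ ^ 2 + th * P ^ 2 * (16 * P * ∑ d ∈ S, ‖a d‖ ^ 2) := by
        gcongr
    _ = th * (1 + M + 16 * P ^ 3) * ∑ d ∈ S, ‖a d‖ ^ 2 := by ring
    _ ≤ th * (17 * (M + P ^ 3)) * ∑ d ∈ S, ‖a d‖ ^ 2 := by
        have : 1 ≤ P ^ 3 := one_le_pow₀ hP
        gcongr
        linarith
    _ = _ := by ring

end Pool.Agent.P.MP_323ce2_nt.Q1
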