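import Pool.Agent.P.MP_323ce2_nt.Q1.St
import Pool.Agent.P.MP_26a8c3_nt.QB.Cube2

/-! The trivial bounds for the second moment with pieces. -/

namespace Pool.Agent.P.MP_323ce2_nt.Q1

open Finset Pool.Agent.P.MP_26a8c3_nt Pool.Agent.P.MP_26a8c3_nt.QO Pool.Agent.P.MP_26a8c3_nt.QA
open Pool.Agent.P.MP_26a8c3_nt.QB (ML ML0 Bd1 ps al cd Base S_PT S_SW)
open scoped Classical ComplexConjugate

namespace Triv

lemma small {κ M X P : ℝ} (hκ : 0 < κ) (hκ1 : κ ≤ 1) (hM : 0 ≤ M) (hX : 0 < X) (h : X ≤ 1)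
    (hP : 1 ≤ P) : X ^ 4 * ((M + P ^ 3) * P) ≤ (M + Rt κ X P) * (X * P) ^ (1 + κ) := by
  have hP0 : 0 < P := one_pos.trans_le hP
  have h1 : X ^ 2 ≤ X ^ (1 + κ) := by
    rw [← Real.rpow_two]
    exact Real.rpow_le_rpow_of_exponent_ge hX h (by linarith)
  have h2 : P ≤ P ^ (1 + κ) := Real.self_le_rpow_of_one_le hP (by linarith)
  have h3 : X ^ 2 * P ≤ (X * P) ^ (1 + κ) := by
    rw [Real.mul_rpow hX.le hP0.le]; gcongr
  have h4 : X ^ 2 * (M + P ^ 3) ≤ M + Rt κ X P := by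
    have a : X ^ 2 ≤ 1 := pow_le_one₀ hX.le h
    have b : P ^ 3 ≤ P ^ 4 := pow_le_pow_right₀ hP (by norm_num)
    have c : 0 ≤ X ^ (1 + κ) * P ^ 2 := by positivity
    have d : X ^ 2 * M ≤ M := mul_le_of_le_one_left hM a
    have e : X ^ 2 * P ^ 3 ≤ X ^ 2 * P ^ 4 := by gcongr
    rw [Rt, min_eq_left h]; linarith
  calc _ = X ^ 2 * (M + P ^ 3) * (X ^ 2 * P) := by ring
    _ ≤ _ := mul_le_mul h4 h3 (by positivity) ((by positivity : (0 : ℝ) ≤ _).trans h4)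

lemma large {κ M X P Z : ℝ} (hκ : 0 < κ) (hM : 0 ≤ M) (h : 1 ≤ X) (hP : 1 ≤ P)
    (hZ : X * P ≤ Z) :
    X ^ 4 * ((M + P ^ 3) * P) ≤ Z ^ 3 * ((M + Rt κ X P) * (X * P) ^ (1 + κ)) := by
  have hX : 0 < X := one_pos.trans_le h
  have hP0 : 0 < P := one_pos.trans_le hP
  have h1 : X ≤ Z := (le_mul_of_one_le_right hX.le hP).trans hZ
  have h2 : X * P ≤ (X * P) ^ (1 + κ) :=
    Real.self_le_rpow_of_one_le (one_le_mul_of_one_le_of_one_le h hP) (by linarith)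
  have h4 : M + P ^ 3 ≤ M + Rt κ X P := by
    have b : P ^ 3 ≤ P ^ 4 := pow_le_pow_right₀ hP (by norm_num)
    have c : 0 ≤ X ^ (1 + κ) * P ^ 2 := by positivity
    rw [Rt, min_eq_right h]; linarith
  have h5 : 0 ≤ M + Rt κ X P := (by positivity : (0 : ℝ) ≤ _).trans h4
  have hZ0 : 0 < Z := hX.trans_le h1
  calc _ = X ^ 3 * ((M + P ^ 3) * (X * P)) := by ring
    _ ≤ _ := by gcongr

lemma key (hb : Base) (hf : S_Flat) (ht : S_TS) : ∃ C : ℝ, 0 < C ∧ ∀ (Q : O) (ν : O → ℂ) (K : ℝ)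
    (J : ℕ) (L : List Pi) (M X t : ℝ), 36 ∣ Q → IsNu Q ν → Good K J L → 0 < M → 0 < X →
    ML (fun m => V (uA ν 1 m) L X t) M (C * (X ^ 4 * ((M + PL L ^ 3) * PL L))) := by
  obtain ⟨C₁, hC₁, h1⟩ := QB.sum_W_pow (σ := 2) (ρ := 0) (by norm_num)
  obtain ⟨C₂, hC₂, h2⟩ := ht
  obtain ⟨C₃, hC₃, h3⟩ := hb.cnt
  refine ⟨C₁ ^ 2 * C₂ * C₃, by positivity, fun Q ν K J L M X t hQ hν hL hM hX s => ?_⟩
  obtain ⟨S, F, hS, hop, -⟩ := hf K J L hL
  have hP := hL.one_le_PL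
  have hP0 := hL.PL_pos
  set S' := S.filter SQO with hS'
  set T : O → O → ℂ := fun c m => ∑ D ∈ S', F D * al ν (D * c) * psi D m with hT
  have e1 : ∀ m c, op L (uA ν 1 m) c = psi c m * T c m := fun m c => by
    rw [hop, hT, hS', mul_sum, sum_filter]
    refine sum_congr rfl fun D hD => ?_
    rw [QB.uA_one]
    by_cases h0 : al ν (D * c) = 0
    · simp [h0]
    have hq := QB.sqo_of_al hQ hν h0
    have hne := hq.1.ne_zero
    rw [if_pos ⟨(hS D hD).1, hq.2.of_mul_left_left⟩,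
      psi_mul_left (left_ne_zero_of_mul hne) (right_ne_zero_of_mul hne)]
    ring
  have hcoef : ∀ c, ∀ D ∈ S', ‖F D * al ν (D * c)‖ ≤ 1 := fun c D hD =>
    QB.norm_mul_le_one (hS D (mem_filter.1 hD).1).2.2 ((QB.bd1_al hν).2 _)
  have hcard : (S'.card : ℝ) ≤ C₃ * PL L := h3 _ _ hP0 fun D hD =>
    ⟨(hS D (mem_filter.1 hD).1).1.ne_zero, (hS D (mem_filter.1 hD).1).2.1⟩
  have hTb : ∀ c m, ‖T c m‖ ≤ S'.card := fun c m => by
    refine (norm_sum_le_of_le (n := fun _ => (1 : ℝ)) _ fun D hD =>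
      QB.norm_mul_le_one (hcoef c D hD) (norm_psi_le _ _)).trans (le_of_eq ?_)
    simp
  have hML : ∀ c, ∑ m ∈ s, G (N m / M) * ‖T c m‖ ^ 2 ≤ C₂ * (M + PL L ^ 3) * (C₃ * PL L) :=
    fun c => by
    refine (h2 S' (fun D => F D * al ν (D * c)) (PL L) M hP hM
      (fun D hD => ⟨(mem_filter.1 hD).2, (hS D (mem_filter.1 hD).1).2.1⟩) s).trans ?_
    refine mul_le_mul_of_nonneg_left (le_trans ?_ hcard) (by positivity)
    refine (sum_le_sum (g := fun _ => (1 : ℝ)) fun D hD =>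
      pow_le_one₀ (norm_nonneg _) (hcoef c D hD)).trans (le_of_eq ?_)
    simp
  set w : O → ℝ := fun c => ‖W X t (nr c)‖ with hw
  have hw0 : ∀ c, 0 ≤ w c := fun c => norm_nonneg _
  have hws : Summable w := by simpa using QB.summable_W1 (u := fun _ => 1) (by simp) hX t
  have hwb : ∀ U : Finset O, ∑ c ∈ U, w c ≤ C₁ * X ^ 2 := fun U => by
    simpa using h1 X t U hX
  have e2 : ∀ m c, √(w c) * (√(w c) * ‖T c m‖) = w c * ‖T c m‖ := fun m c => by
    rw [← mul_assoc, Real.mul_self_sqrt (hw0 c)]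
  have hs2 : ∀ m, Summable fun c => √(w c) * (√(w c) * ‖T c m‖) := fun m => by
    simp only [e2]
    exact Summable.of_nonneg_of_le (fun c => by have := hw0 c; positivity)
      (fun c => mul_le_mul_of_nonneg_left (hTb c m) (hw0 c)) (hws.mul_right _)
  have hV : ∀ m, ‖V (uA ν 1 m) L X t‖ ≤ ∑' c, √(w c) * (√(w c) * ‖T c m‖) := fun m => by
    refine tsum_of_norm_bounded (hs2 m).hasSum fun c => ?_
    rw [e2, e1, norm_mul, norm_mul, mul_comm]
    exact mul_le_mul_of_nonneg_left (mul_le_of_le_one_left (norm_nonneg _) (norm_psi_le _ _))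
      (hw0 c)
  have main := QB.Cube2.cs s (fun m => G (N m / M)) (fun c => √(w c))
    (fun m c => √(w c) * ‖T c m‖) (W₁ := C₁ * X ^ 2)
    (W₂ := C₁ * X ^ 2 * (C₂ * (M + PL L ^ 3) * (C₃ * PL L))) (fun m _ => (QB.G_pos _).le)
    (fun m _ => hs2 m) (fun U => by simpa only [Real.sq_sqrt (hw0 _)] using hwb U) fun U => by
      refine le_trans (sum_le_sum (g := fun c => w c * (C₂ * (M + PL L ^ 3) * (C₃ * PL L)))
        fun c _ => ?_) ?_
      · refine le_trans (le_of_eq ?_) (mul_le_mul_of_nonneg_left (hML c) (hw0 c))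
        rw [mul_sum]
        refine sum_congr rfl fun m _ => ?_
        rw [mul_pow, Real.sq_sqrt (hw0 c)]; ring
      · rw [← sum_mul]
        exact mul_le_mul_of_nonneg_right (hwb U) (by positivity)
  refine le_trans (sum_le_sum fun m _ => ?_) (main.trans (le_of_eq (by ring)))
  exact mul_le_mul_of_nonneg_left (pow_le_pow_left₀ (norm_nonneg _) (hV m) 2) (QB.G_pos _).le

end Triv

open Triv in
theorem pTriv (hb : Base) (hf : S_Flat) (ht : S_TS) : S_Triv := by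
  obtain ⟨C, hC, h⟩ := key hb hf ht
  refine ⟨1 + C, le_add_of_nonneg_right hC.le,
    fun κ Q ν K J L Z M X t hκ hκ1 hQ hν hL hZ hM hX hXZ => ?_⟩
  have k := h Q ν K J L M X t hQ hν hL hM hX
  have hP := hL.one_le_PL
  have hP0 := hL.PL_pos
  have hR := Rt_pos κ hX hP0
  have hZ0 : 0 < Z := one_pos.trans_le hZ
  have hp : 0 ≤ (M + Rt κ X (PL L)) * (X * PL L) ^ (1 + κ) := by positivity
  have hN : (M + Rt κ X (PL L)) * (X * PL L) ^ (1 + κ) ≤ Nm κ Z M X (PL L) :=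
    le_mul_of_one_le_right hp (one_le_pow₀ (le_add_of_nonneg_right (by positivity)))
  have hZ3 : 1 ≤ Z ^ 3 := one_le_pow₀ hZ
  have all : X ^ 4 * ((M + PL L ^ 3) * PL L) ≤
      Z ^ 3 * ((M + Rt κ X (PL L)) * (X * PL L) ^ (1 + κ)) := by
    rcases le_total X 1 with h | h
    · exact (small hκ hκ1 hM.le hX h hP).trans (le_mul_of_one_le_left hp hZ3)
    · exact large hκ hM.le h hP hXZ
  have hC1 : C ≤ 1 + C := by linarith
  refine ⟨k.mono hM le_rfl ?_, fun h => k.mono hM le_rfl ?_⟩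
  · rw [mul_assoc _ (Z ^ 3)]
    exact mul_le_mul hC1 (all.trans (by gcongr)) (by positivity) (by positivity)
  · refine mul_le_mul hC1 ?_ (by positivity) (by positivity)
    rcases h with h | h
    · exact (small hκ hκ1 hM.le hX h hP).trans hN
    · refine all.trans ?_
      rw [Nm, mul_comm]
      refine mul_le_mul_of_nonneg_left ?_ hp
      have : Z ≤ 1 + M / Z ^ 4 := by
        have : Z ≤ M / Z ^ 4 := by rw [le_div_iff₀ (by positivity)]; linarith
        linarith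
      exact (pow_le_pow_right₀ hZ (by norm_num)).trans (pow_le_pow_left₀ (by linarith) this 10)

end Pool.Agent.P.MP_323ce2_nt.Q1
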