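import Pool.Agent.P.MP_323ce2_nt.Q1.St

/-! The twist of the weight with pieces by a power of the norm. -/

namespace Pool.Agent.P.MP_323ce2_nt.Q1

open Finset Pool.Agent.P.MP_26a8c3_nt Pool.Agent.P.MP_26a8c3_nt.QO Pool.Agent.P.MP_26a8c3_nt.QA
open Pool.Agent.P.MP_26a8c3_nt.QB (ML ML0 Bd1 ps al cd Base S_PT S_SW)
open scoped Classical ComplexConjugate

namespace Tw

/-- the largest value of the power of the norm on a piece -/
noncomputable def rho (σ : ℝ) (s : Pi) : ℝ := if 0 ≤ σ then s.hi ^ σ else (s.hi / 2) ^ σ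

/-- the twisted piece -/
noncomputable def tw (σ v : ℝ) (s : Pi) : Pi :=
  ⟨s.S, fun p => s.φ p * ((N p : ℝ) : ℂ) ^ ((σ : ℂ) + v * Complex.I) / (rho σ s : ℝ), s.hi⟩

lemma rho_pos (σ : ℝ) {s : Pi} (h : 0 < s.hi) : 0 < rho σ s := by
  unfold rho; split_ifs <;> positivity

lemma rho_le (σ : ℝ) {s : Pi} (h : 0 < s.hi) : rho σ s ≤ 2 ^ |σ| * s.hi ^ σ := by
  unfold rho
  split_ifs with h0
  · exact le_mul_of_one_le_left (by positivity) (Real.one_le_rpow one_le_two (abs_nonneg _))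
  · rw [abs_of_neg (not_le.1 h0), Real.div_rpow h.le two_pos.le, Real.rpow_neg two_pos.le,
      div_eq_inv_mul]

lemma ok {K : ℝ} {s : Pi} (h : s.Ok K) (h0 : 0 < s.hi) (σ v : ℝ) : (tw σ v s).Ok K := by
  refine ⟨fun p hp => ?_, h.lo, h.up⟩
  obtain ⟨p1, p2, p3, p4, p5⟩ := h.pr p hp
  refine ⟨p1, p2, p3, p4, ?_⟩
  have hN := N_pos_real p1.ne_zero
  have hr := rho_pos σ h0
  have h1 : (N p : ℝ) ^ σ ≤ rho σ s := by
    unfold rho
    split_ifs with hσ
    · exact Real.rpow_le_rpow hN.le p4 hσ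
    · exact Real.rpow_le_rpow_of_nonpos (by positivity) (by linarith) (not_le.1 hσ).le
  show ‖s.φ p * ((N p : ℝ) : ℂ) ^ ((σ : ℂ) + v * Complex.I) / (rho σ s : ℝ)‖ ≤ 1
  rw [norm_div, norm_term hN, Complex.norm_real, Real.norm_of_nonneg hr.le, div_le_one hr]
  exact (mul_le_of_le_one_left (by positivity) p5).trans h1

lemma good {K : ℝ} {J : ℕ} {L : List Pi} (h : Good K J L) (σ v : ℝ) :
    Good K J (L.map (tw σ v)) := by
  refine ⟨h.one, by simpa using h.len, fun s hs => ?_, List.pairwise_map.2 h.dj⟩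
  obtain ⟨s', h1, rfl⟩ := List.mem_map.1 hs
  exact ok (h.ok s' h1) (by linarith [h.two_lt h1]) σ v

lemma summ (ho : Om) {K : ℝ} {J : ℕ} {L : List Pi} (h : Good K J L) {X : ℝ} (hX : 0 < X)
    (t σ : ℝ) : Summable fun c => ‖om L X t c‖ * nr c ^ σ := by
  obtain ⟨C, _, H⟩ := ho.mass (max σ 0) (max σ 0 + 2) (le_max_right _ _) (by linarith)
  refine Summable.of_nonneg_of_le (fun c => by have := nr_pos c; positivity) (fun c => ?_)
    (summable_of_sum_le (fun c => by have := nr_pos c; positivity) fun s => H K J L X t s h hX)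
  exact mul_le_mul_of_nonneg_left
    (Real.rpow_le_rpow_of_exponent_le (one_le_nr c) (le_max_left _ _)) (norm_nonneg _)

lemma step (ho : Om) {K : ℝ} {J : ℕ} {s : Pi} {L : List Pi} (h : Good K J (s :: L)) {u : O → ℂ}
    (hu : Bn u) (u0 : u 0 = 0) {X : ℝ} (hX : 0 < X) (t σ v : ℝ) :
    DS (fun n => u n * om (s :: L) X t n) nr σ v =
      (rho σ s : ℝ) * DS (fun c => (tw σ v s).T u c * om L X t c) nr σ v := by
  obtain ⟨B, hB⟩ := hu
  have hr : ((rho σ s : ℝ) : ℂ) ≠ 0 := by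
    exact_mod_cast (rho_pos σ (by linarith [h.two_lt List.mem_cons_self])).ne'
  set w : ℂ := (σ : ℂ) + v * Complex.I with hw
  let g : O → O → ℂ := fun p c =>
    s.φ p * ((N p : ℝ) : ℂ) ^ w * u (p * c) * (om L X t c * ((nr c : ℝ) : ℂ) ^ w)
  let F : O → O → ℂ := fun p n =>
    u n * (if p ∣ n then s.φ p * om L X t (quo n p) else 0) * ((nr n : ℝ) : ℂ) ^ w
  have h1 : ∀ p ∈ s.S, HasSum (g p) (∑' c, g p c) := fun p _ => by
    refine (Summable.of_norm_bounded
      ((summ ho h.tail hX t σ).mul_left (‖s.φ p * ((N p : ℝ) : ℂ) ^ w‖ * B)) fun c => ?_).hasSum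
    simp only [g]
    rw [norm_mul, norm_mul _ (u _), hw, norm_term (nr_pos c)]
    have := nr_pos c
    gcongr
    exact hB _
  have h2 : ∀ p ∈ s.S, HasSum (F p) (∑' c, g p c) := fun p hp => by
    have p0 := (h.head.pr p hp).1.ne_zero
    refine ((mul_right_injective₀ p0).hasSum_iff fun n hn => ?_).1 ?_
    · have : ¬ p ∣ n := fun ⟨c, e⟩ => hn ⟨c, e.symm⟩
      simp [F, this]
    · have e : F p ∘ (fun c => p * c) = g p := by
        funext c
        simp only [F, g, Function.comp]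
        rcases eq_or_ne c 0 with rfl | hc
        · simp [u0]
        rw [if_pos (dvd_mul_right p c), quo_mul p0, QB.nr_mul p0 hc, Complex.ofReal_mul,
          Complex.mul_cpow_ofReal_nonneg (Nat.cast_nonneg _) (nr_pos c).le]
        ring
      rw [e]; exact h1 p hp
  have e1 : DS (fun n => u n * om (s :: L) X t n) nr σ v = ∑' n, ∑ p ∈ s.S, F p n :=
    tsum_congr fun n => by simp only [om, F, mul_sum, sum_mul, hw]
  rw [e1, (hasSum_sum h2).tsum_eq, ← (hasSum_sum h1).tsum_eq, DS, ← tsum_mul_left]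
  refine tsum_congr fun c => ?_
  simp only [Pi.T, tw, g, sum_mul, mul_sum, ← hw]
  refine sum_congr rfl fun p _ => ?_
  field_simp

lemma main (ho : Om) {K : ℝ} {J : ℕ} (σ v : ℝ) {X : ℝ} (hX : 0 < X) (t : ℝ) (L : List Pi) :
    Good K J L → ∀ u : O → ℂ, Bn u → u 0 = 0 →
      ‖DS (fun n => u n * om L X t n) nr σ v‖ ≤
        ((2 : ℝ) ^ |σ|) ^ L.length * (X * PL L) ^ σ * Real.exp (σ ^ 2 / 4) *
          ‖V u (L.map (tw σ v)) (X * Real.exp (σ / 2)) (t + v)‖ := by
  induction L with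
  | nil =>
    intro _ u _ _
    simp only [om, List.length_nil, pow_zero, PL_nil, mul_one, one_mul, List.map_nil, V_nil, Wsum]
    exact (norm_DS_W u nr_pos hX t σ v).le
  | cons s L ih =>
    intro h u hu u0
    have h0 : 0 < s.hi := by linarith [h.two_lt List.mem_cons_self]
    have hP := h.tail.PL_pos
    have h1 := ih h.tail ((tw σ v s).T u) (hu.T _) (by simp [Pi.T, u0])
    rw [step ho h hu u0 hX, norm_mul, Complex.norm_real, Real.norm_of_nonneg (rho_pos σ h0).le,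
      List.map_cons, V_cons, PL_cons, List.length_cons, mul_left_comm X,
      Real.mul_rpow h0.le (by positivity)]
    refine (mul_le_mul (rho_le σ h0) h1 (norm_nonneg _) (by positivity)).trans (le_of_eq ?_)
    ring

end Tw

theorem pTw (ho : Om) : S_Tw := by
  intro K J L σ v h
  refine ⟨L.map (Tw.tw σ v), Tw.good h σ v, by simp [PL, Function.comp_def, Tw.tw],
    fun u X t hu u0 hX => (Tw.main ho σ v hX t L h u hu u0).trans ?_⟩
  have hP := h.PL_pos
  have h1 : ((2 : ℝ) ^ |σ|) ^ L.length ≤ (2 ^ J : ℝ) ^ |σ| := by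
    rw [← Real.rpow_pow_comm two_pos.le]
    exact pow_le_pow_right₀ (Real.one_le_rpow one_le_two (abs_nonneg _)) h.len
  gcongr

end Pool.Agent.P.MP_323ce2_nt.Q1
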