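import Pool.Agent.P.MP_323ce2_nt.Q1.St
import Pool.Agent.P.MP_26a8c3_nt.QB.Cube1

/-! The Voronoi bound with levels in the form used by the bootstrap. -/

namespace Pool.Agent.P.MP_323ce2_nt.Q1

open Finset Pool.Agent.P.MP_26a8c3_nt Pool.Agent.P.MP_26a8c3_nt.QO Pool.Agent.P.MP_26a8c3_nt.QA
open Pool.Agent.P.MP_26a8c3_nt.QB (ML ML0 Bd1 ps al cd Base S_PT S_SW)
open scoped Classical ComplexConjugate

namespace V1

lemma summ (hA : Alg) {Q : O} {ν : O → ℂ} (hν : IsNu Q ν) (h D : O) {X : ℝ} (hX : 0 < X) (t : ℝ) :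
    Summable fun x : O × O => if SQ x.1 ∧ Primary x.2 ∧ D ∣ x.1 * x.2 ^ 3 then
      (ab x.2 : ℂ) * tau x.1 * Phi ν h (x.1 * x.2 ^ 3) * W X t (nr (x.1 * x.2 ^ 3)) else 0 := by
  refine Summable.of_norm_bounded ((QB.Cube1.s2.mul_of_nonneg QB.Cube1.s2 (fun c => by positivity)
    fun c => by positivity).mul_left (Real.exp (2 ^ 2 / 4) * X ^ (2 : ℝ))) fun x => ?_
  split_ifs with hx
  · have c0 := hx.1.ne_zero
    have d0 := hx.2.1.ne_zero
    have c1 := one_le_N c0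
    have d1 := one_le_N d0
    have w := norm_W_le hX (nr_pos (x.1 * x.2 ^ 3)) t 2
    rw [QB.Cube1.pw, nr_eq (mul_ne_zero c0 (pow_ne_zero _ d0)), map_mul, map_pow] at w
    rw [nr_eq (mul_ne_zero c0 (pow_ne_zero _ d0)), map_mul, map_pow, nr_eq c0, nr_eq d0, norm_mul,
      norm_mul, norm_mul, hA.r4.2.1 _ hx.1, Complex.norm_real, Real.norm_of_nonneg (ab_nonneg _)]
    have a := QB.Cube1.ab_le d0
    have p := QB.norm_Phi_le hν h (x.1 * x.2 ^ 3)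
    calc _ ≤ (N x.2 : ℝ) * 1 * 1 * (Real.exp (2 ^ 2 / 4) * X ^ (2 : ℝ) *
          (((N x.1 * N x.2 ^ 3 : ℕ) : ℝ) ^ 2)⁻¹) := by gcongr
      _ = Real.exp (2 ^ 2 / 4) * X ^ (2 : ℝ) * (((N x.1 : ℝ) ^ 2)⁻¹ * ((N x.2 : ℝ) ^ 5)⁻¹) := by
          push_cast; field_simp
      _ ≤ _ := by gcongr; norm_num
  · rw [norm_zero]; positivity

lemma eq (hA : Alg) {Q : O} {ν : O → ℂ} (hν : IsNu Q ν) (h : O) {S : Finset O} {F w : O → ℂ}
    {X : ℝ} (hX : 0 < X) (t : ℝ) (hS : ∀ D ∈ S, D ≠ 0)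
    (hw : ∀ n, w n = ∑ D ∈ S, if D ∣ n then F D * W X t (nr (quo n D)) else 0) :
    Bsw ν h w = QW.Bd ν h S (fun D => F D / ((N D : ℝ) : ℂ) ^ ((t : ℂ) * Complex.I)) X t := by
  rw [Bsw, QW.Bd]
  simp_rw [← tsum_mul_left]
  rw [← Summable.tsum_finsetSum fun D hD =>
    (summ hA hν h D (mul_pos hX (N_pos_real (hS D hD))) t).mul_left _]
  refine tsum_congr fun x => ?_
  by_cases hx : SQ x.1 ∧ Primary x.2
  · rw [if_pos hx, hw, mul_sum]
    refine sum_congr rfl fun D hD => ?_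
    have h0 := hS D hD
    have hN := N_pos_real h0
    by_cases hd : D ∣ x.1 * x.2 ^ 3
    · have n0 : x.1 * x.2 ^ 3 ≠ 0 := mul_ne_zero hx.1.ne_zero (pow_ne_zero _ hx.2.ne_zero)
      rw [if_pos hd, if_pos ⟨hx.1, hx.2, hd⟩]
      generalize x.1 * x.2 ^ 3 = n at hd n0
      obtain ⟨c, rfl⟩ := hd
      have z : ((N D : ℝ) : ℂ) ^ ((t : ℂ) * Complex.I) ≠ 0 :=
        norm_ne_zero_iff.1 (by rw [norm_cpow_I hN]; exact one_ne_zero)
      rw [quo_mul h0, QB.nr_mul h0 (right_ne_zero_of_mul n0), W_mul (mul_pos hX hN) hN (nr_pos c),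
        mul_div_cancel_right₀ X hN.ne']
      field_simp
    · rw [if_neg hd, if_neg fun e => hd e.2.2, mul_zero, mul_zero]
  · rw [if_neg hx]
    exact (sum_eq_zero fun D _ => by rw [if_neg fun e => hx ⟨e.1, e.2.1⟩, mul_zero]).symm

lemma num {H X P z : ℝ} (hH : 1 ≤ H) (hX : 0 < X) (hz : 1 ≤ z) (hP : 1 ≤ P) (h1 : H ≤ z * X)
    (h2 : H * P ^ 2 ≤ z * X ^ 2) :
    QW.BB H X P ≤ 4 * z ^ 2 * (X * P) ∧ QW.ZZ H X P ≤ 3 * z ^ 2 * (1 + X * P) := by
  have n0 : 0 < X * P := by positivity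
  have a0 : z * (X * P) ≤ z ^ 2 * (X * P) := by gcongr; nlinarith
  have a1 : H ≤ z * (X * P) := h1.trans (by gcongr; nlinarith)
  have a2 : H ^ 2 * P / X ≤ z ^ 2 * (X * P) := by
    rw [div_le_iff₀ hX]
    calc H ^ 2 * P ≤ (z * X) ^ 2 * P := by gcongr
      _ = _ := by ring
  have a3 : (H * X) ^ (1 / 3 : ℝ) ≤ z * X := by
    have e : ((z * X) ^ 3) ^ (1 / 3 : ℝ) = z * X := by
      rw [← Real.rpow_natCast, ← Real.rpow_mul (by positivity)]; norm_num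
    rw [← e]
    refine Real.rpow_le_rpow (by positivity) ?_ (by norm_num)
    have b : 1 ≤ z * (z * X) := by nlinarith
    calc H * X ≤ z * X * X * 1 := by rw [mul_one]; gcongr
      _ ≤ z * X * X * (z * (z * X)) := by gcongr
      _ = _ := by ring
  have a4 : H * P ^ 2 / √X ≤ z * (X * P) := by
    refine (pow_le_pow_iff_left₀ (by positivity) (by positivity) two_ne_zero).1 ?_
    rw [div_pow, Real.sq_sqrt hX.le, div_le_iff₀ hX]
    calc (H * P ^ 2) ^ 2 = H * (H * P ^ 2) * P ^ 2 := by ring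
      _ ≤ z * X * (z * X ^ 2) * P ^ 2 := by gcongr
      _ = _ := by ring
  have a5 : P * (H * X) ^ (1 / 3 : ℝ) ≤ z * (X * P) := by
    calc _ ≤ P * (z * X) := by gcongr
      _ = _ := by ring
  have a6 : P ≤ z * (X * P) := by nlinarith
  have a7 : 1 ≤ z ^ 2 := by nlinarith
  unfold QW.BB QW.ZZ
  constructor <;> linarith

end V1

theorem pV1 (hA : Alg) (hb : Base) (hf : S_Flat) (hV : QW.S_VD) {Q : O} (h0 : Q ≠ 0)
    (hQ : 36 ∣ Q) : S_V1 Q := by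
  intro ε hε
  obtain ⟨C, hC, hV⟩ := hV Q h0 hQ (min ε (1 / 2)) (lt_min hε (by norm_num))
  obtain ⟨C₀, c0, hc⟩ := hb.cnt
  refine ⟨12 * C * C₀, by positivity, fun ν K J L H X z t hν hL hH hX hz h1 h2 s hs => ?_⟩
  obtain ⟨S, F, hS, -, hw⟩ := hf K J L hL
  have hP := hL.one_le_PL
  generalize PL L = P at *
  simp only [V1.eq hA hν _ hX t (fun D hD => (hS D hD).1.ne_zero) (hw X t)]
  refine (hV ν hν H X P t S s _ (by linarith) hX hP (fun D hD => ⟨(hS D hD).1, (hS D hD).2.1⟩)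
    hs).trans ?_
  obtain ⟨b1, b2⟩ := V1.num hH hX hz hP h1 h2
  have n0 : 0 < X * P := by positivity
  have e1 : QW.n2 S (fun D => F D / ((N D : ℝ) : ℂ) ^ ((t : ℂ) * Complex.I)) ≤ C₀ * P := by
    refine (sum_le_card_nsmul _ _ 1 fun D hD => ?_).trans ?_
    · rw [norm_div, norm_cpow_I (N_pos_real (hS D hD).1.ne_zero), div_one]
      exact pow_le_one₀ (norm_nonneg _) (hS D hD).2.2
    · rw [nsmul_eq_mul, mul_one]
      exact hc P S (by linarith) fun D hD => ⟨(hS D hD).1.ne_zero, (hS D hD).2.1⟩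
  have z0 : 0 ≤ QW.ZZ H X P := by unfold QW.ZZ; positivity
  have e2 : QW.ZZ H X P ^ min ε (1 / 2) ≤ 3 * z * (1 + X * P) ^ ε := by
    calc _ ≤ ((3 * z) ^ 2 * (1 + X * P)) ^ min ε (1 / 2) :=
          Real.rpow_le_rpow z0 (b2.trans (by nlinarith)) (by positivity)
      _ = ((3 * z) ^ 2) ^ min ε (1 / 2) * (1 + X * P) ^ min ε (1 / 2) :=
          Real.mul_rpow (by positivity) (by positivity)
      _ ≤ ((3 * z) ^ 2) ^ (1 / 2 : ℝ) * (1 + X * P) ^ ε :=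
          mul_le_mul (Real.rpow_le_rpow_of_exponent_le (by nlinarith) (min_le_right _ _))
            (Real.rpow_le_rpow_of_exponent_le (by linarith) (min_le_left _ _)) (by positivity)
            (by positivity)
      _ = _ := by rw [← Real.sqrt_eq_rpow, Real.sqrt_sq (by positivity)]
  have e3 : 0 ≤ QW.n2 S fun D => F D / ((N D : ℝ) : ℂ) ^ ((t : ℂ) * Complex.I) :=
    sum_nonneg fun _ _ => by positivity
  have e4 : 0 ≤ QW.BB H X P := by unfold QW.BB; positivity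
  unfold QW.RH
  calc _ ≤ C * (1 + |t|) ^ 16 * (3 * z * (1 + X * P) ^ ε) * X * (4 * z ^ 2 * (X * P)) *
        (C₀ * P) := by gcongr
    _ = _ := by ring

end Pool.Agent.P.MP_323ce2_nt.Q1
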