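import Pool.Agent.P.MP_26a8c3_nt.QB.Base
import Pool.Agent.P.MP_26a8c3_nt.QB.PT
import Pool.Agent.P.MP_26a8c3_nt.QB.SW
import Pool.Agent.P.MP_323ce2_nt.Q1.Flat
import Pool.Agent.P.MP_323ce2_nt.Q1.Om
import Pool.Agent.P.MP_323ce2_nt.Q1.Sh
import Pool.Agent.P.MP_323ce2_nt.Q1.Tw
import Pool.Agent.P.MP_323ce2_nt.Q1.Rx
import Pool.Agent.P.MP_323ce2_nt.Q1.CopMax
import Pool.Agent.P.MP_323ce2_nt.Q1.DL
import Pool.Agent.P.MP_323ce2_nt.Q1.Tail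
import Pool.Agent.P.MP_323ce2_nt.Q1.Drop
import Pool.Agent.P.MP_323ce2_nt.Q1.ITail
import Pool.Agent.P.MP_323ce2_nt.Q1.Head
import Pool.Agent.P.MP_323ce2_nt.Q1.I
import Pool.Agent.P.MP_323ce2_nt.Q1.Cube1
import Pool.Agent.P.MP_323ce2_nt.Q1.Cube2
import Pool.Agent.P.MP_323ce2_nt.Q1.IIIa
import Pool.Agent.P.MP_323ce2_nt.Q1.IIIb
import Pool.Agent.P.MP_323ce2_nt.Q1.CT
import Pool.Agent.P.MP_323ce2_nt.Q1.V1
import Pool.Agent.P.MP_323ce2_nt.Q1.SB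
import Pool.Agent.P.MP_323ce2_nt.Q1.TS
import Pool.Agent.P.MP_323ce2_nt.Q1.Triv
import Pool.Agent.P.MP_323ce2_nt.Q1.Boot
import Pool.Agent.P.MP_323ce2_nt.Q1.Prod
import Pool.Agent.P.MP_323ce2_nt.Q1.Fin

/-! Assembly of the layer: the second moment of a Moebius sum times short pieces. -/

namespace Pool.Agent.P.MP_323ce2_nt.Q1

open Pool.Agent.P.MP_26a8c3_nt Pool.Agent.P.MP_26a8c3_nt.QO

theorem dy (hA : Alg) (hV : QW.S_VD) (Q : O) (h0 : Q ≠ 0) (hQ : 36 ∣ Q) : S_Dy Q :=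
  have hb := QB.base hA
  have ho := pOm hb pFlat
  have hr := pRx ho
  have hs := pSh ho
  have hc := pCop hb hr
  have ht := pTail hb hs hr hc pMax
  have hd := pDL ho (pTw ho)
  pDy (pBoot hQ
    (pI hA hb ho (pITail hb ho ht (QB.sw hb)) (pHead hA hb ho (QB.pt hb) hd))
    (pSB hA ho hQ (pV1 hA hb pFlat hV h0 hQ) (pCube1 hA hb) (pCube2 hb)
      (pCT hA hb hs (pDrop hb hr hc) (pIIIa hA hb ho (QB.pt hb) (QB.sw hb)) (pIIIb hb ht hd)))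
    (pTriv hb pFlat (pTS hA hb))) (pProd hb hr hc)

theorem t1 (hA : Alg) (hV : QW.S_VD) : QX.S_T1 := pT1 (QB.base hA) (dy hA hV)

end Pool.Agent.P.MP_323ce2_nt.Q1
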