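import Pool.Agent.P.MP_323ce2_nt.Q1.St

/-! The moment bound on the theta side, with pieces. -/

namespace Pool.Agent.P.MP_323ce2_nt.Q1

open Finset Pool.Agent.P.MP_26a8c3_nt Pool.Agent.P.MP_26a8c3_nt.QO Pool.Agent.P.MP_26a8c3_nt.QA
open Pool.Agent.P.MP_26a8c3_nt.QB (ML ML0 Bd1 ps al cd Base S_PT S_SW)
open scoped Classical ComplexConjugate

namespace SBP

lemma Vv_le {κ X P : ℝ} (hκ : 0 ≤ κ) (hX : 1 ≤ X) (hP : 0 < P) : Vv κ X P ≤ X := by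
  have h0 : 0 < X := by linarith
  rw [Vv, div_le_iff₀ (Rt_pos κ h0 hP), Rt]
  have h1 : X ≤ X ^ (1 + κ) := by
    simpa using Real.rpow_le_rpow_of_exponent_le hX (show 1 ≤ 1 + κ by linarith)
  have h2 : 0 ≤ min X 1 ^ 2 * P ^ 4 := by positivity
  calc (X * P) ^ 2 = X * (X * P ^ 2 + 0) := by ring
    _ ≤ _ := by gcongr

lemma Vv_mul_le {κ X P : ℝ} (hX : 1 ≤ X) (hP : 0 < P) : Vv κ X P * P ^ 2 ≤ X ^ 2 := by
  have h0 : 0 < X := by linarith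
  rw [Vv, div_mul_eq_mul_div, div_le_iff₀ (Rt_pos κ h0 hP), Rt, min_eq_right hX]
  have h2 : 0 ≤ X ^ (1 + κ) * P ^ 2 := by positivity
  calc (X * P) ^ 2 * P ^ 2 = X ^ 2 * (0 + 1 ^ 2 * P ^ 4) := by ring
    _ ≤ _ := by gcongr

/-- the shift by a small cube -/
lemma shift (ho : Om) {K : ℝ} {J : ℕ} {L : List Pi} (hL : Good K J L) (ν : O → ℂ) (h : O)
    {X : ℝ} (hX : 0 < X) (t : ℝ) {d : O} (hd : d ≠ 0) (hK : (N d : ℝ) ≤ K) :
    ‖Bsw ν h fun n => om L X t (d ^ 3 * n)‖ = ‖Bsw ν h (om L (X / (N d : ℝ) ^ 3) t)‖ := by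
  have f1 := hL.fr_of_le hd hK
  have f3 : Fr L (d ^ 3) := by
    rw [pow_succ, sq]
    exact Fr.mul hL (Fr.mul hL f1 f1) f1
  have h3 : d ^ 3 ≠ 0 := pow_ne_zero 3 hd
  have e : (Bsw ν h fun n => om L X t (d ^ 3 * n)) =
      ((N (d ^ 3) : ℝ) : ℂ) ^ ((t : ℂ) * Complex.I) * Bsw ν h (om L (X / (N d : ℝ) ^ 3) t) := by
    unfold Bsw
    rw [← tsum_mul_left]
    refine tsum_congr fun x => ?_
    split_ifs with hx
    · have hn : x.1 * x.2 ^ 3 ≠ 0 := mul_ne_zero hx.1.ne_zero (pow_ne_zero 3 hx.2.ne_zero)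
      simp only
      rw [ho.sh K J L X t _ _ hL hX h3 hn f3, map_pow N d 3, Nat.cast_pow]
      ring
    · simp
  rw [e, norm_mul, Complex.norm_cpow_eq_rpow_re_of_pos (N_pos_real h3)]
  simp

end SBP

open SBP

theorem pSB (hA : Alg) (ho : Om) {Q : O} (hQ : 36 ∣ Q) (hv : S_V1 Q) (h1 : S_Cube1) (h2 : S_Cube2)
    (hc : S_CT) : S_SB Q := by
  intro κ J ε hκ hκ2 hε
  obtain ⟨C1, hC1, hv⟩ := hv ε hε
  obtain ⟨Cc, hCc, h2⟩ := h2 κ (6 * J + 3) hκ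
  obtain ⟨Ct, hCt, hc⟩ := hc κ J ε hκ hκ2 hε
  set C0 := C1 * (2 * Real.exp 7) ^ ε * Real.exp 7 ^ 2 with hC0
  have hC0' : 0 < C0 := by positivity
  refine ⟨Cc * (C0 + Ct), by positivity,
    fun K Z b X P y hH hb hX hZ hy hK ν hν L hL hP z X₁ t hz hzU g1 g2 => ?_⟩
  subst hP
  have hP1 := hL.one_le_PL
  have hP0 := hL.PL_pos
  have hX0 : 0 < X := by linarith
  have hy0 : 0 < y := by linarith
  have hz0 : 0 < z := by linarith
  have hX1 : 0 < X₁ := lt_of_lt_of_le (by positivity) g1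
  have hK1 : 1 ≤ K := hL.one
  have hK0 : 0 < K := by linarith
  have hZ1 : 1 ≤ Z := (one_le_mul_of_one_le_of_one_le hX hP1).trans hZ
  have hZ0 : 0 < Z := by linarith
  have hH0 : 0 < z * Vv κ X (PL L) := by linarith
  have eF : (fun h => V (uB ν h) L X₁ t) = fun h => Bw ν h (om L X₁ t) := funext fun h =>
    (ho.adj K J L _ X₁ t hL (Bd1.bn (QB.bd1_uB hA hν h)) hX1).symm
  rw [eF]
  refine (h2 _ (fun h d => Bsw ν h fun n => om L X₁ t (d ^ 3 * n))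
    (fun h d => Bw ν h fun c => om L X₁ t (d ^ 3 * c)) _ K
    (C0 * (1 + |t|) ^ 16 * Z ^ ε * (X * PL L) ^ 2 * (z * (y * K ^ 3) ^ 2) ^ 3)
    (Ct * Z ^ ε * b * (1 + |t|) ^ 16 * z * (X * PL L) ^ (2 + κ)) hK1 (by positivity) (by positivity)
    (fun h => h1 Q ν h _ K hν (ho.dc K J L X₁ t hL hX1) hK1) (fun d hd hdK => ?_)
    fun d hd hdK => hc Q ν K L Z b X X₁ z t d hQ hν hL hH hb hX hZ hK hX1 g2 hz hzU hd hdK).mono
      hH0 le_rfl ?_
  · have hn := one_le_N hd.ne_zero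
    have hn3 : 1 ≤ (N d : ℝ) ^ 3 := one_le_pow₀ hn
    set X' := X₁ / (N d : ℝ) ^ 3 with hX'
    have hX'0 : 0 < X' := by positivity
    set w := y * K ^ 3 with hw
    have hw1 : 1 ≤ w := one_le_mul_of_one_le_of_one_le hy (one_le_pow₀ hK1)
    have hw2 : 1 ≤ w ^ 2 := one_le_pow₀ hw1
    have a1 : X ≤ w * X' := by
      rw [div_le_iff₀ hy0] at g1
      calc X ≤ X₁ * y := g1
        _ = y * (N d : ℝ) ^ 3 * X' := by rw [hX']; field_simp
        _ ≤ _ := by rw [hw]; gcongr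
    have a2 : X' ≤ Real.exp 7 * X := (div_le_self hX1.le hn3).trans g2
    have a3 : z * Vv κ X (PL L) ≤ z * w ^ 2 * X' :=
      calc _ ≤ z * (w * X') := by gcongr; exact (Vv_le hκ.le hX hP0).trans a1
        _ ≤ z * (w ^ 2 * X') := by gcongr; exact le_self_pow₀ hw1 two_ne_zero
        _ = _ := by ring
    have a4 : z * Vv κ X (PL L) * PL L ^ 2 ≤ z * w ^ 2 * X' ^ 2 :=
      calc _ = z * (Vv κ X (PL L) * PL L ^ 2) := by ring
        _ ≤ z * (w * X') ^ 2 := by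
          gcongr
          exact (Vv_mul_le hX hP0).trans (by gcongr)
        _ = _ := by ring
    have a5 := hv ν K J L _ X' (z * w ^ 2) t hν hL hzU hX'0
      (one_le_mul_of_one_le_of_one_le hz hw2) a3 a4
    intro s hs
    simp only [shift ho hL ν _ hX1 t hd.ne_zero hdK]
    refine (a5 s hs).trans ?_
    have a6 : X' * PL L ≤ Real.exp 7 * (X * PL L) := by rw [← mul_assoc]; gcongr
    have e7 : 1 ≤ Real.exp 7 := Real.one_le_exp (by norm_num)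
    have a7 : 1 + X' * PL L ≤ 2 * Real.exp 7 * Z := by
      have b1 : Real.exp 7 * (X * PL L) ≤ Real.exp 7 * Z := by gcongr
      have b2 : 1 ≤ Real.exp 7 * Z := one_le_mul_of_one_le_of_one_le e7 hZ1
      linarith
    calc _ ≤ C1 * (1 + |t|) ^ 16 * (2 * Real.exp 7 * Z) ^ ε * (Real.exp 7 * (X * PL L)) ^ 2 *
          (z * w ^ 2) ^ 3 := by gcongr
      _ = _ := by rw [hC0, Real.mul_rpow (by positivity) hZ0.le]; ring
  · have a1 : z ≤ z ^ 5 := le_self_pow₀ hz (by norm_num)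
    have a2 : z ^ 3 ≤ z ^ 5 := pow_le_pow_right₀ hz (by norm_num)
    calc _ = Cc * (C0 * ((1 + |t|) ^ 16 * Z ^ ε * (y ^ 6 * K ^ 21 * (X * PL L) ^ 2)) * z ^ 3 +
          Ct * ((1 + |t|) ^ 16 * Z ^ ε * (K ^ (-κ) * b * (X * PL L) ^ (2 + κ))) * z) := by ring
      _ ≤ Cc * ((C0 + Ct) * ((1 + |t|) ^ 16 * Z ^ ε * (y ^ 6 * K ^ 21 * (X * PL L) ^ 2)) * z ^ 5 +
          (C0 + Ct) * ((1 + |t|) ^ 16 * Z ^ ε * (K ^ (-κ) * b * (X * PL L) ^ (2 + κ))) * z ^ 5) := by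
          gcongr <;> linarith
      _ = _ := by ring

end Pool.Agent.P.MP_323ce2_nt.Q1
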