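import Pool.Agent.P.MP_26a8c3_nt.QB.Bas
import Pool.Agent.P.MP_323ce2_nt.QW.St
import Pool.Agent.P.MP_323ce2_nt.QX.Top

/-! Statements of the layer: the second moment of a Moebius sum times short pieces. -/

namespace Pool.Agent.P.MP_323ce2_nt.Q1

open Finset Pool.Agent.P.MP_26a8c3_nt Pool.Agent.P.MP_26a8c3_nt.QO Pool.Agent.P.MP_26a8c3_nt.QA
open Pool.Agent.P.MP_26a8c3_nt.QB (ML ML0 Bd1 ps al cd Base S_PT S_SW)
open scoped Classical ComplexConjugate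

noncomputable section

/-- a piece: a set of primes, coefficients, and the upper end of the range of the norms -/
structure Pi where
  S : Finset O
  φ : O → ℂ
  hi : ℝ

/-- the primes of a piece lie in one dyadic range between `K` and `K ^ 2` -/
structure Pi.Ok (K : ℝ) (s : Pi) : Prop where
  pr : ∀ p ∈ s.S, Prime p ∧ Primary p ∧ s.hi ≤ 2 * N p ∧ (N p : ℝ) ≤ s.hi ∧ ‖s.φ p‖ ≤ 1
  lo : 2 * K < s.hi
  up : s.hi ≤ K ^ 2

/-- admissible lists of pieces -/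
structure Good (K : ℝ) (J : ℕ) (L : List Pi) : Prop where
  one : 1 ≤ K
  len : L.length ≤ J
  ok : ∀ s ∈ L, s.Ok K
  dj : L.Pairwise fun s s' => Disjoint s.S s'.S

/-- the total length of the pieces -/
def PL (L : List Pi) : ℝ := (L.map Pi.hi).prod

/-- no prime of a piece divides `a` -/
def Fr (L : List Pi) (a : O) : Prop := ∀ s ∈ L, ∀ p ∈ s.S, ¬ p ∣ a

/-- the primes dividing `a` are removed -/
def Pi.cut (a : O) (s : Pi) : Pi := ⟨s.S.filter fun p => ¬ p ∣ a, s.φ, s.hi⟩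

/-- the primes dividing `a` are removed from all pieces -/
def cut (a : O) (L : List Pi) : List Pi := L.map (Pi.cut a)

/-- the action of one piece on coefficients -/
def Pi.T (s : Pi) (u : O → ℂ) (c : O) : ℂ := ∑ p ∈ s.S, s.φ p * u (p * c)

/-- the action of a list of pieces on coefficients -/
def op : List Pi → (O → ℂ) → O → ℂ
  | [], u => u
  | s :: L, u => op L (s.T u)

/-- the weighted sum with pieces; the smooth weight sees the cofactor -/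
def V (u : O → ℂ) (L : List Pi) (X t : ℝ) : ℂ := Wsum (op L u) X t

/-- the same weight as a function of the full argument -/
def om : List Pi → ℝ → ℝ → O → ℂ
  | [], X, t, n => W X t (nr n)
  | s :: L, X, t, n => ∑ p ∈ s.S, if p ∣ n then s.φ p * om L X t (quo n p) else 0

/-- the product of the pieces -/
def FL (L : List Pi) (m : O) : ℂ := (L.map fun s => ∑ p ∈ s.S, s.φ p * psi p m).prod

/-- bounded -/
def Bn (u : O → ℂ) : Prop := ∃ B : ℝ, ∀ c, ‖u c‖ ≤ B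

/-- decaying -/
def Dc (w : O → ℂ) : Prop := ∃ B : ℝ, ∀ n, ‖w n‖ ≤ B * nr n ^ (-6 : ℝ)

/-- the critical size of the family -/
def Rt (κ X P : ℝ) : ℝ := X ^ (1 + κ) * P ^ 2 + min X 1 ^ 2 * P ^ 4

/-- the normaliser with three coefficients -/
def Nq (κ Z b₁ b₂ b₃ M X P : ℝ) : ℝ :=
  (b₁ * M + b₂ * (X ^ (1 + κ) * P ^ 2) + b₃ * (min X 1 ^ 2 * P ^ 4)) * (X * P) ^ (1 + κ) *
    (1 + M / Z ^ 4) ^ 10

/-- the normaliser -/
def Nm (κ Z M X P : ℝ) : ℝ := (M + Rt κ X P) * (X * P) ^ (1 + κ) * (1 + M / Z ^ 4) ^ 10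

/-- the size of the dual family -/
def Vv (κ X P : ℝ) : ℝ := (X * P) ^ 2 / Rt κ X P

/-- the bootstrap hypothesis -/
def Hyp (Q : O) (κ K : ℝ) (J : ℕ) (Z b₁ b₂ b₃ : ℝ) : Prop :=
  ∀ ν, IsNu Q ν → ∀ L, Good K J L → ∀ M X t : ℝ, 0 < M → 0 < X → X * PL L ≤ Z →
    ML (fun m => V (uA ν 1 m) L X t) M ((1 + |t|) ^ 16 * Nq κ Z b₁ b₂ b₃ M X (PL L))

/-- the double sum with the dual Gaussian kernel -/
def KD (α : O → ℂ) (β : ℝ) : ℂ :=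
  ∑' x : O × O, α x.1 / (ab x.1 : ℂ) * conj (α x.2 / (ab x.2 : ℂ)) *
    (G (β / (nr x.1 * nr x.2)) : ℝ)

/-- head term -/
def HH (α : O → ℂ) (e m : O) : ℂ :=
  ∑' x : O × O, α x.1 * conj (α x.2) *
    (if e ∣ x.1 ∧ e ∣ x.2 then KK (quo x.1 e) (quo x.2 e) m else 0)

/-- tail term -/
def RR (α k : O → ℂ) (m : O) : ℂ :=
  ∑' x : O × O, α x.1 * conj (α x.2) *
    ∑ e ∈ cd x.1 x.2, k e * jj e m * (psi (quo x.1 e) m * conj (psi (quo x.2 e) m))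

/-- the Moebius side coefficient of the full argument -/
def aV (ν : O → ℂ) (L : List Pi) (X t : ℝ) (c : O) : ℂ := al ν c * om L X t c

/-- theta side sum over squarefree arguments with a general weight -/
def Bw (ν : O → ℂ) (h : O) (w : O → ℂ) : ℂ := ∑' c : O, uB ν h c * w c

/-- theta side sum over all arguments `c * d ^ 3` with a general weight -/
def Bsw (ν : O → ℂ) (h : O) (w : O → ℂ) : ℂ :=
  ∑' x : O × O, if SQ x.1 ∧ Primary x.2 then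
    (ab x.2 : ℂ) * tau x.1 * Phi ν h (x.1 * x.2 ^ 3) * w (x.1 * x.2 ^ 3) else 0

/-- moment bound on the theta side -/
def SB (Q : O) (K : ℝ) (J : ℕ) (P X y U b : ℝ) : Prop :=
  ∀ ν, IsNu Q ν → ∀ L, Good K J L → PL L = P → ∀ z X₁ t : ℝ, 1 ≤ z → 1 ≤ z * U → X / y ≤ X₁ →
    X₁ ≤ Real.exp 7 * X →
    ML0 (fun h => V (uB ν h) L X₁ t) (z * U) (b * z ^ 5 * (1 + |t|) ^ 16)

end

/-- the pieces as one sum over squarefree levels -/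
def S_Flat : Prop :=
  ∀ (K : ℝ) (J : ℕ) (L : List Pi), Good K J L → ∃ (S : Finset O) (F : O → ℂ),
    (∀ D ∈ S, SQ D ∧ (N D : ℝ) ≤ PL L ∧ ‖F D‖ ≤ 1) ∧
    (∀ u c, op L u c = ∑ D ∈ S, F D * u (D * c)) ∧
    ∀ X t n, om L X t n = ∑ D ∈ S, if D ∣ n then F D * W X t (nr (quo n D)) else 0

/-- analytic facts on the weight -/
structure Om : Prop where
  dc : ∀ K J L X t, Good K J L → 0 < X → Dc (om L X t)
  adj : ∀ K J L u X t, Good K J L → Bn u → 0 < X → ∑' n, u n * om L X t n = V u L X t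
  sup : ∀ K J L X t n, Good K J L → n ≠ 0 → ‖om L X t n‖ ≤ dv n
  mass : ∀ ρ σ : ℝ, 0 ≤ ρ → ρ + 1 < σ → ∃ C : ℝ, 0 < C ∧ ∀ K J L X t (s : Finset O), Good K J L →
    0 < X → ∑ n ∈ s, ‖om L X t n‖ * nr n ^ ρ ≤ C * X ^ σ * PL L ^ (1 + ρ)
  sh : ∀ K J L X t a n, Good K J L → 0 < X → a ≠ 0 → n ≠ 0 → Fr L a →
    om L X t (a * n) = ((N a : ℝ) : ℂ) ^ ((t : ℂ) * Complex.I) * om L (X / N a) t n

/-- the weight at a multiple -/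
def S_Sh : Prop :=
  ∀ (K : ℝ) (J : ℕ) (L : List Pi) (u : O → ℂ) (a : O) (X t b : ℝ), Good K J L → Bn u → u 0 = 0 →
    Primary a → 0 < X → 0 ≤ b →
    (∀ g ∈ pdiv a, ∀ L', L'.Sublist L → PL L' * N g ≤ PL L →
      ‖V u (cut a L') (X * N g / N a) t‖ ≤ b) →
    ‖∑' n, u n * om L X t (a * n)‖ ≤ (2 * dv a) ^ J * b

/-- the twist by a power of the norm -/
def S_Tw : Prop :=
  ∀ (K : ℝ) (J : ℕ) (L : List Pi) (σ v : ℝ), Good K J L → ∃ L', Good K J L' ∧ PL L' = PL L ∧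
    ∀ (u : O → ℂ) (X t : ℝ), Bn u → u 0 = 0 → 0 < X →
      ‖DS (fun n => u n * om L X t n) nr σ v‖ ≤
        (2 ^ J : ℝ) ^ |σ| * (X * PL L) ^ σ * Real.exp (σ ^ 2 / 4) *
          ‖V u L' (X * Real.exp (σ / 2)) (t + v)‖

/-- reindexing and recursions on the Moebius side -/
structure Rx : Prop where
  div : ∀ Q ν e m K J L X t, IsNu Q ν → SQ e → Good K J L → 0 < X →
    ‖V (fun c => al ν c * ps e c m) L X t‖ ≤ ‖∑' n, uA ν e m n * om L X t (e * n)‖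
  cut : ∀ ν r m K J L X t, Good K J L → V (uA ν r m) (cut r L) X t = V (uA ν r m) L X t
  rec1 : ∀ Q ν p r m K J L X t, IsNu Q ν → Prime p → Primary p → ¬ p ∣ r → Good K J L → Fr L p →
    0 < X → ∃ z : ℂ, ‖z‖ ≤ 1 ∧
      V (uA ν r m) L X t = V (uA ν (p * r) m) L X t + z * V (uA ν (p * r) m) L (X / N p) t
  cons : ∀ Q ν r m K J (s : Pi) L X t, IsNu Q ν → Good K J (s :: L) → 0 < X →
    V (uA ν r m) (s :: L) X t = ∑ p ∈ s.S.filter (fun p => ¬ p ∣ r),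
      s.φ p * (mu p * ν p * psi p m) * V (uA ν (p * r) m) L X t

/-- maximal inequality in the scale -/
def S_Max : Prop :=
  ∀ κ : ℝ, 0 < κ → κ ≤ 1 → ∃ C : ℝ, 0 < C ∧ ∀ (ι : Type) (s : Finset ι) (wt ξ : ι → ℝ)
    (u : ι → O → ℂ) (X₀ t β : ℝ), 0 < X₀ → 0 ≤ β →
    (∀ j ∈ s, 0 ≤ wt j ∧ 0 < ξ j ∧ ξ j ≤ X₀ ∧ Bn (u j)) →
    (∀ X' t' : ℝ, 0 < X' → X' ≤ Real.exp 2 * X₀ → |t' - t| ≤ 4 →
      ∑ j ∈ s, wt j * ‖Wsum (u j) X' t'‖ ^ 2 ≤ β * X' ^ (1 + κ)) →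
    ∑ j ∈ s, wt j * (ξ j)⁻¹ * ‖Wsum (u j) (ξ j) t‖ ^ 2 ≤ C * β * X₀ ^ κ

/-- removal of a coprimality condition -/
def S_Cop : Prop :=
  ∀ (κ : ℝ) (Q : O) (ν : O → ℂ) (K : ℝ) (J : ℕ) (L : List Pi) (s : Finset O) (wt : O → ℝ)
    (X₀ t β : ℝ), 0 ≤ κ → κ ≤ 1 → IsNu Q ν → Good K J L → (∀ m ∈ s, 0 ≤ wt m) → 0 ≤ β →
    (∀ ξ : ℝ, 0 < ξ → ξ ≤ X₀ → ∑ m ∈ s, wt m * ‖V (uA ν 1 m) L ξ t‖ ^ 2 ≤ β * ξ ^ (1 + κ)) →
    ∀ r : O, SQ r → Fr L r → ∀ ξ : ℝ, 0 < ξ → ξ ≤ X₀ →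
      ∑ m ∈ s, wt m * ‖V (uA ν r m) L ξ t‖ ^ 2 ≤ dv r ^ 2 * β * ξ ^ (1 + κ)

/-- separation of variables in the dual sum -/
def S_DL : Prop :=
  ∀ (J : ℕ) (ε : ℝ), 0 < ε → ∃ C : ℝ, 0 < C ∧ ∀ (ι : Type) (s : Finset ι) (ω n : ι → ℝ)
    (u : ι → O → ℂ) (K : ℝ) (L : List Pi) (X t P U b : ℝ), Good K J L → 0 < X → 0 < P → 0 < U →
    (X * PL L) ^ 2 ≤ P * U → 0 ≤ b → (∀ h ∈ s, 0 ≤ ω h ∧ 1 ≤ n h ∧ Bd1 (u h)) →
    (∀ L', Good K J L' → PL L' = PL L → ∀ y X' t' : ℝ, U ≤ y → Real.exp (-1) * X ≤ X' →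
      X' ≤ Real.exp 7 * X →
      ∑ h ∈ s.filter (fun h => n h ≤ y), ω h * ‖V (u h) L' X' t'‖ ^ 2 ≤
        b * (y / U) ^ 12 * (1 + |t'|) ^ 16) →
    ∑ h ∈ s, ω h * ‖KD (fun c => u h c * om L X t c) (P * n h)‖ ≤
      C * (1 + U) ^ ε * (X * PL L)⁻¹ * b * (1 + |t|) ^ 16

/-- the tail sum -/
def S_Tail : Prop :=
  ∀ (κ : ℝ) (J : ℕ), 0 < κ → κ ≤ 1 → ∃ C : ℝ, 0 < C ∧ ∀ (Q : O) (ν : O → ℂ) (K : ℝ) (L : List Pi)
    (s T : Finset O) (wt : O → ℝ) (X t E β : ℝ), IsNu Q ν → Good K J L → 0 < X → 1 ≤ E → 0 ≤ β →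
    (∀ m ∈ s, m ≠ 0 ∧ 0 ≤ wt m) → (∀ e ∈ T, SQ e ∧ E ≤ (N e : ℝ)) →
    (∀ L', Good K J L' → PL L' ≤ PL L → ∀ ξ t' : ℝ, 0 < ξ →
      ξ * PL L' ≤ Real.exp 2 * (X * PL L) / E → |t' - t| ≤ 4 →
      ∑ m ∈ s, wt m * dv m ^ (2 * J + 4) * ‖V (uA ν 1 m) L' ξ t'‖ ^ 2 ≤
        β * (ξ * PL L') ^ (1 + κ)) →
    ∑ m ∈ s, ∑ e ∈ T, wt m * (dv e * ‖jj e m‖) * ‖V (fun c => al ν c * ps e c m) L X t‖ ^ 2 ≤
      C * β * (X * PL L) ^ (1 + κ) * E ^ (-(κ / 2))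

/-- the trivial removal of pieces -/
def S_Drop : Prop :=
  ∀ (κ : ℝ) (J : ℕ), 0 < κ → κ ≤ 1 → ∃ C : ℝ, 0 < C ∧ ∀ (Q : O) (K Z b μ : ℝ), 0 ≤ b → K ≤ μ →
    Hyp Q κ K J Z b b b → Hyp Q κ K J Z (C * b * μ ^ 3) (C * b) (C * b / μ ^ 3)

/-- the tail of the first step -/
def S_ITail : Prop :=
  ∀ (κ : ℝ) (J : ℕ) (ε : ℝ), 0 < κ → κ ≤ 1 → 0 < ε → ∃ C : ℝ, 0 < C ∧ ∀ (Q : O) (ν k : O → ℂ)
    (K : ℝ) (L : List Pi) (Z b E M X t : ℝ) (s : Finset O), IsNu Q ν → Good K J L →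
    Hyp Q κ K J Z b b b → 1 ≤ b → Real.exp 2 ≤ E → 1 ≤ X → X * PL L ≤ Z → 1 ≤ M → M ≤ Z ^ 5 →
    (∀ e, SQ e → ‖k e‖ ≤ dv e) → (∀ e, (N e : ℝ) ≤ E → k e = 0) →
    ∑ m ∈ s, G (N m / M) * ‖RR (aV ν L X t) k m‖ ≤
      C * (1 + Z ^ ε * E ^ (-(κ / 2)) * b) * (1 + |t|) ^ 16 * Nm κ Z M X (PL L)

/-- the head of the first step, one pair `f ∣ e` -/
def S_Head : Prop :=
  ∀ (J : ℕ) (ε : ℝ), 0 < ε → ∃ C : ℝ, 0 < C ∧ ∀ (Q : O) (ν : O → ℂ) (e f : O) (K : ℝ)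
    (L : List Pi) (E M X t U b : ℝ), 36 ∣ Q → IsNu Q ν → Good K J L → SQ e → f ∈ pdiv e →
    (N e : ℝ) ≤ E → E ≤ K → 1 ≤ X → 0 < M → 0 < U → U ≤ X → (X * PL L) ^ 2 ≤ M * U → 0 ≤ b →
    SB Q K J (PL L) X (3 * E) U b →
    (Summable fun m : O =>
      ((G (N m / (M / (N f : ℝ) ^ 2)) : ℝ) : ℂ) * HH (aV ν L X t) e (f ^ 2 * m)) ∧
    ‖∑' m : O, ((G (N m / (M / (N f : ℝ) ^ 2)) : ℝ) : ℂ) * HH (aV ν L X t) e (f ^ 2 * m)‖ ≤
      C * (M / (N f : ℝ) ^ 2) * (1 + E ^ 51 * X ^ ε * (X * PL L)⁻¹ * b * (1 + |t|) ^ 16)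

/-- the first step -/
def S_I : Prop :=
  ∀ (κ : ℝ) (J : ℕ) (ε : ℝ), 0 < κ → κ ≤ 1 → 0 < ε → ∃ C : ℝ, 0 < C ∧ ∀ (Q : O) (ν : O → ℂ)
    (K : ℝ) (L : List Pi) (Z b E M X t b' : ℝ), 36 ∣ Q → IsNu Q ν → Good K J L →
    Hyp Q κ K J Z b b b → 1 ≤ b → Real.exp 2 ≤ E → E ≤ K → 1 ≤ X → X * PL L ≤ Z →
    Rt κ X (PL L) ≤ M → M ≤ Z ^ 5 → 0 ≤ b' → SB Q K J (PL L) X (3 * E) (Vv κ X (PL L)) b' →
    ML (fun m => V (uA ν 1 m) L X t) M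
      (C * Z ^ ε * (1 + |t|) ^ 16 * ((E ^ 2 + E ^ (-(κ / 2)) * b) * Nm κ Z M X (PL L) +
        E ^ 53 * (M / (X * PL L)) * b'))

/-- truncated removal of the cubes, pointwise -/
def S_Cube1 : Prop :=
  ∀ (Q : O) (ν : O → ℂ) (h : O) (w : O → ℂ) (D : ℝ), IsNu Q ν → Dc w → 1 ≤ D →
    (Summable fun d : O => if Primary d ∧ D < (N d : ℝ) then
      dv d * ab d * ‖Bw ν h fun c => w (d ^ 3 * c)‖ else 0) ∧
    ‖Bw ν h w‖ ≤ ∑ d ∈ (ball D).filter Primary, ab d * ‖Bsw ν h fun n => w (d ^ 3 * n)‖ +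
      ∑' d : O, if Primary d ∧ D < (N d : ℝ) then
        dv d * ab d * ‖Bw ν h fun c => w (d ^ 3 * c)‖ else 0

/-- truncated removal of the cubes, moments -/
def S_Cube2 : Prop :=
  ∀ (κ : ℝ) (j : ℕ), 0 < κ → ∃ C : ℝ, 0 < C ∧ ∀ (F : O → ℂ) (F₁ F₂ : O → O → ℂ)
    (P D b₁ b₂ : ℝ), 1 ≤ D → 0 ≤ b₁ → 0 ≤ b₂ →
    (∀ h, (Summable fun d : O => if Primary d ∧ D < (N d : ℝ) then
        dv d * ab d * ‖F₂ h d‖ else 0) ∧
      ‖F h‖ ≤ ∑ d ∈ (ball D).filter Primary, ab d * ‖F₁ h d‖ +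
        ∑' d : O, if Primary d ∧ D < (N d : ℝ) then dv d * ab d * ‖F₂ h d‖ else 0) →
    (∀ d, Primary d → (N d : ℝ) ≤ D → ML0 (fun h => F₁ h d) P b₁) →
    (∀ d, Primary d → D < (N d : ℝ) →
      ML0 (fun h => F₂ h d) P (b₂ * dv d ^ j * (N d : ℝ) ^ (-(3 * (1 + κ))))) →
    ML0 F P (C * (D ^ 3 * b₁ + D ^ (-κ) * b₂))

/-- Poisson summation back to the Moebius side -/
def S_IIIa : Prop :=
  ∀ κ : ℝ, 0 < κ → ∃ C : ℝ, 0 < C ∧ ∀ (Q : O) (ν : O → ℂ) (K : ℝ) (J : ℕ) (L : List Pi)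
    (H X t b : ℝ), 36 ∣ Q → IsNu Q ν → Good K J L → 0 < H → 0 < X →
    (∀ ν', IsNu Q ν' → ∀ s T : Finset O, 0 ∉ s → (∀ e ∈ T, SQ e) → ∑ m ∈ s, ∑ e ∈ T,
      ‖jj e m‖ * ‖KD (fun c => al ν' c * ps e c m * om L X t c) (H * N m)‖ ≤ b) →
    ML (fun h => V (uB ν h) L X t) H (C * H * (X ^ (1 + 2 * κ) * PL L ^ (1 + κ) + b))

/-- the dual sums on the Moebius side -/
def S_IIIb : Prop :=
  ∀ (κ : ℝ) (J : ℕ) (ε : ℝ), 0 < κ → κ ≤ 1 → 0 < ε → ∃ C : ℝ, 0 < C ∧ ∀ (Q : O) (ν : O → ℂ)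
    (K : ℝ) (L : List Pi) (Z b₁ b₂ b₃ H X t : ℝ) (s T : Finset O), IsNu Q ν → Good K J L →
    Hyp Q κ K J Z b₁ b₂ b₃ → 0 ≤ b₁ → 0 ≤ b₂ → 0 ≤ b₃ → 1 ≤ Z → 1 ≤ H → 0 < X →
    Real.exp 9 * (X * PL L) ≤ Z → 0 ∉ s → (∀ e ∈ T, SQ e) →
    ∑ m ∈ s, ∑ e ∈ T, ‖jj e m‖ * ‖KD (fun c => al ν c * ps e c m * om L X t c) (H * N m)‖ ≤
      C * Z ^ ε * (1 + |t|) ^ 16 * ((b₁ * ((X * PL L) ^ 2 / H) + b₂ * (X ^ (1 + κ) * PL L ^ 2) +
        b₃ * (min X 1 ^ 2 * PL L ^ 4)) * (X * PL L) ^ κ)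

/-- the moment of one term of the tail of the cubes -/
def S_CT : Prop :=
  ∀ (κ : ℝ) (J : ℕ) (ε : ℝ), 0 < κ → κ ≤ 1 / 2 → 0 < ε → ∃ C : ℝ, 0 < C ∧ ∀ (Q : O) (ν : O → ℂ)
    (K : ℝ) (L : List Pi) (Z b X X₁ z t : ℝ) (d : O), 36 ∣ Q → IsNu Q ν → Good K J L →
    Hyp Q κ K J Z b b b → 1 ≤ b → 1 ≤ X → X * PL L ≤ Z → Real.exp 6 ≤ K → 0 < X₁ →
    X₁ ≤ Real.exp 7 * X → 1 ≤ z → 1 ≤ z * Vv κ X (PL L) → Primary d → K < (N d : ℝ) →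
    ML0 (fun h => Bw ν h fun c => om L X₁ t (d ^ 3 * c)) (z * Vv κ X (PL L))
      (C * Z ^ ε * b * (1 + |t|) ^ 16 * z * (X * PL L) ^ (2 + κ) * dv d ^ (6 * J + 3) *
        (N d : ℝ) ^ (-(3 * (1 + κ))))

/-- the form of the Voronoi bound used here -/
def S_V1 (Q : O) : Prop :=
  ∀ ε : ℝ, 0 < ε → ∃ C : ℝ, 0 < C ∧ ∀ (ν : O → ℂ) (K : ℝ) (J : ℕ) (L : List Pi) (H X z t : ℝ),
    IsNu Q ν → Good K J L → 1 ≤ H → 0 < X → 1 ≤ z → H ≤ z * X → H * PL L ^ 2 ≤ z * X ^ 2 →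
    ML0 (fun h => Bsw ν h (om L X t)) H
      (C * (1 + |t|) ^ 16 * (1 + X * PL L) ^ ε * (X * PL L) ^ 2 * z ^ 3)

/-- the moment bound on the theta side -/
def S_SB (Q : O) : Prop :=
  ∀ (κ : ℝ) (J : ℕ) (ε : ℝ), 0 < κ → κ ≤ 1 / 2 → 0 < ε → ∃ C : ℝ, 0 < C ∧ ∀ K Z b X P y : ℝ,
    Hyp Q κ K J Z b b b → 1 ≤ b → 1 ≤ X → X * P ≤ Z → 1 ≤ y → Real.exp 6 ≤ K →
    SB Q K J P X y (Vv κ X P)
      (C * Z ^ ε * (y ^ 6 * K ^ 21 * (X * P) ^ 2 + K ^ (-κ) * b * (X * P) ^ (2 + κ)))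

/-- the trivial large sieve for the sextic symbols -/
def S_TS : Prop :=
  ∃ C : ℝ, 0 < C ∧ ∀ (S : Finset O) (a : O → ℂ) (P M : ℝ), 1 ≤ P → 0 < M →
    (∀ d ∈ S, SQO d ∧ (N d : ℝ) ≤ P) →
    ML (fun m => ∑ d ∈ S, a d * psi d m) M (C * (M + P ^ 3) * ∑ d ∈ S, ‖a d‖ ^ 2)

/-- the trivial bounds -/
def S_Triv : Prop :=
  ∃ C : ℝ, 1 ≤ C ∧ ∀ (κ : ℝ) (Q : O) (ν : O → ℂ) (K : ℝ) (J : ℕ) (L : List Pi) (Z M X t : ℝ),
    0 < κ → κ ≤ 1 → 36 ∣ Q → IsNu Q ν → Good K J L → 1 ≤ Z → 0 < M → 0 < X → X * PL L ≤ Z →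
    ML (fun m => V (uA ν 1 m) L X t) M (C * Z ^ 3 * Nm κ Z M X (PL L)) ∧
    (X ≤ 1 ∨ Z ^ 5 ≤ M → ML (fun m => V (uA ν 1 m) L X t) M (C * Nm κ Z M X (PL L)))

/-- the result of the bootstrap -/
def S_Boot (Q : O) : Prop :=
  ∀ (κ : ℝ) (J : ℕ) (η : ℝ), 0 < κ → κ ≤ 1 / 2 → 0 < η → ∃ C Z₀ : ℝ, 0 < C ∧ ∀ Z K : ℝ, Z₀ ≤ Z →
    Z ^ η ≤ K → Hyp Q κ K J Z (C * K ^ 23) (C * K ^ 23) (C * K ^ 23)

/-- from the sum over coprime arguments to the product -/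
def S_Prod : Prop :=
  ∀ (κ : ℝ) (J : ℕ), 0 < κ → κ ≤ 1 → ∃ C : ℝ, 0 < C ∧ ∀ (Q : O) (ν : O → ℂ) (K : ℝ)
    (L : List Pi) (Z b M X t : ℝ), Hyp Q κ K J Z b b b → 0 ≤ b → IsNu Q ν → Good K J L →
    (∀ s ∈ L, ∀ p ∈ s.S, IsCoprime p Q) → 0 < M → 0 < X → X * PL L ≤ Z →
    ML (fun m => A ν 1 m X t * FL L m) M (C * b * (1 + |t|) ^ 16 * Nm κ Z M X (PL L))

/-- the result for dyadic pieces -/
def S_Dy (Q : O) : Prop :=
  ∀ (J : ℕ) (ε η : ℝ), 0 < ε → 0 < η → ∃ C Z₀ : ℝ, 0 < C ∧ ∀ (ν : O → ℂ) (K : ℝ) (L : List Pi)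
    (Z M X t : ℝ), Z₀ ≤ Z → Z ^ η ≤ K → IsNu Q ν → Good K J L →
    (∀ s ∈ L, ∀ p ∈ s.S, IsCoprime p Q) → 0 < M → M ≤ Z ^ 4 → 0 < X → X * PL L ≤ Z →
    ML (fun m => A ν 1 m X t * FL L m) M
      (C * Z ^ ε * K ^ 23 * (1 + |t|) ^ 16 * ((M + X * PL L ^ 2 + PL L ^ 4) * (X * PL L)))

@[simp] lemma PL_nil : PL [] = 1 := by simp [PL]

@[simp] lemma PL_cons (s : Pi) (L : List Pi) : PL (s :: L) = s.hi * PL L := by simp [PL]

@[simp] lemma PL_append (L L' : List Pi) : PL (L ++ L') = PL L * PL L' := by simp [PL]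

@[simp] lemma PL_cut (a : O) (L : List Pi) : PL (cut a L) = PL L := by
  simp [PL, cut, Function.comp_def, Pi.cut]

lemma V_nil (u : O → ℂ) (X t : ℝ) : V u [] X t = Wsum u X t := rfl

lemma V_cons (u : O → ℂ) (s : Pi) (L : List Pi) (X t : ℝ) : V u (s :: L) X t = V (s.T u) L X t :=
  rfl

lemma cut_cons (a : O) (s : Pi) (L : List Pi) : cut a (s :: L) = s.cut a :: cut a L := rfl

lemma good_nil {K : ℝ} (hK : 1 ≤ K) (J : ℕ) : Good K J [] :=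
  ⟨hK, Nat.zero_le _, by simp, List.Pairwise.nil⟩

lemma Good.sub {K : ℝ} {J : ℕ} {L L' : List Pi} (h : Good K J L) (hs : L'.Sublist L) :
    Good K J L' :=
  ⟨h.one, hs.length_le.trans h.len, fun s hm => h.ok s (hs.subset hm), h.dj.sublist hs⟩

lemma Good.tail {K : ℝ} {J : ℕ} {s : Pi} {L : List Pi} (h : Good K J (s :: L)) : Good K J L :=
  h.sub (List.sublist_cons_self s L)

lemma Good.head {K : ℝ} {J : ℕ} {s : Pi} {L : List Pi} (h : Good K J (s :: L)) : s.Ok K :=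
  h.ok s List.mem_cons_self

lemma Pi.Ok.cut {K : ℝ} {s : Pi} (h : s.Ok K) (a : O) : (s.cut a).Ok K :=
  ⟨fun p hp => h.pr p (mem_filter.1 hp).1, h.lo, h.up⟩

lemma Good.cut {K : ℝ} {J : ℕ} {L : List Pi} (h : Good K J L) (a : O) : Good K J (cut a L) := by
  refine ⟨h.one, by simpa [Q1.cut] using h.len, fun s hs => ?_, ?_⟩
  · obtain ⟨s', h1, rfl⟩ := List.mem_map.1 hs
    exact (h.ok s' h1).cut a
  · exact List.pairwise_map.2 (h.dj.imp fun hd =>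
      hd.mono (filter_subset _ _) (filter_subset _ _))

lemma fr_cut (a : O) (L : List Pi) : Fr (cut a L) a := fun s hs p hp => by
  obtain ⟨s', -, rfl⟩ := List.mem_map.1 hs
  exact (mem_filter.1 hp).2

lemma Pi.Ok.lt_N {K : ℝ} {s : Pi} (h : s.Ok K) {p : O} (hp : p ∈ s.S) : K < N p := by
  linarith [(h.pr p hp).2.2.1, h.lo]

lemma Good.two_lt {K : ℝ} {J : ℕ} {L : List Pi} (h : Good K J L) {s : Pi} (hs : s ∈ L) :
    2 < s.hi := by linarith [h.one, (h.ok s hs).lo]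

lemma Good.one_le_PL {K : ℝ} {J : ℕ} {L : List Pi} (h : Good K J L) : 1 ≤ PL L := by
  induction L with
  | nil => simp
  | cons s L ih =>
    rw [PL_cons]
    exact one_le_mul_of_one_le_of_one_le (by linarith [h.two_lt List.mem_cons_self]) (ih h.tail)

lemma Good.PL_pos {K : ℝ} {J : ℕ} {L : List Pi} (h : Good K J L) : 0 < PL L :=
  one_pos.trans_le h.one_le_PL

lemma Good.PL_le {K : ℝ} {J : ℕ} {L L' : List Pi} (h : Good K J L) (hs : L'.Sublist L) :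
    PL L' ≤ PL L := by
  induction hs with
  | slnil => exact le_rfl
  | cons s _ ih =>
    rw [PL_cons]
    exact (ih h.tail).trans (le_mul_of_one_le_left h.tail.PL_pos.le
      (by linarith [h.two_lt List.mem_cons_self]))
  | cons_cons s _ ih =>
    rw [PL_cons, PL_cons]
    exact mul_le_mul_of_nonneg_left (ih h.tail) (by linarith [h.two_lt List.mem_cons_self])

/-- a prime of the first piece is not a prime of the other pieces -/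
lemma Good.fr {K : ℝ} {J : ℕ} {s : Pi} {L : List Pi} (h : Good K J (s :: L)) {p : O}
    (hp : p ∈ s.S) : Fr L p := fun s' hs' q hq hd => by
  obtain ⟨p1, p2, -⟩ := h.head.pr p hp
  obtain ⟨q1, q2, -⟩ := (h.tail.ok s' hs').pr q hq
  have e : q = p := q2.eq_of_associated p2 (q1.associated_of_dvd p1 hd)
  exact disjoint_left.1 ((List.pairwise_cons.1 h.dj).1 s' hs') hp (e ▸ hq)

/-- small elements are free of the primes of the pieces -/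
lemma Good.fr_of_le {K : ℝ} {J : ℕ} {L : List Pi} (h : Good K J L) {a : O} (ha : a ≠ 0)
    (hK : (N a : ℝ) ≤ K) : Fr L a := fun s hs p hp hd => by
  have h1 : (N p : ℝ) ≤ N a := by exact_mod_cast N_le_of_dvd hd ha
  linarith [(h.ok s hs).lt_N hp]

lemma Fr.mul {L : List Pi} {K : ℝ} {J : ℕ} (h : Good K J L) {a b : O} (ha : Fr L a)
    (hb : Fr L b) : Fr L (a * b) := fun s hs p hp hd =>
  (((h.ok s hs).pr p hp).1.dvd_or_dvd hd).elim (ha s hs p hp) (hb s hs p hp)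

lemma Bd1.bn {u : O → ℂ} (h : Bd1 u) : Bn u := ⟨1, h.2⟩

lemma Bn.T {u : O → ℂ} (h : Bn u) (s : Pi) : Bn (s.T u) := by
  obtain ⟨B, hB⟩ := h
  refine ⟨∑ p ∈ s.S, ‖s.φ p‖ * B, fun c => norm_sum_le_of_le _ fun p _ => ?_⟩
  rw [norm_mul]
  exact mul_le_mul_of_nonneg_left (hB _) (norm_nonneg _)

lemma Bn.op {u : O → ℂ} (h : Bn u) (L : List Pi) : Bn (op L u) := by
  induction L generalizing u with
  | nil => exact h
  | cons s L ih => exact ih (h.T s)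

lemma Bn.summable {u : O → ℂ} (h : Bn u) {X : ℝ} (hX : 0 < X) (t : ℝ) :
    Summable fun c => ‖u c * W X t (nr c)‖ := by
  obtain ⟨B, hB⟩ := h
  refine Summable.of_nonneg_of_le (fun _ => norm_nonneg _) (fun c => ?_)
    ((QB.summable_W1 (u := fun _ => 1) (by simp) hX t).mul_left B)
  rw [norm_mul, one_mul]
  exact mul_le_mul_of_nonneg_right (hB c) (norm_nonneg _)

lemma Dc.summable {w : O → ℂ} (h : Dc w) {k : ℕ} (hk : k ≤ 4) :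
    Summable fun n => ‖w n‖ * (N n : ℝ) ^ k := by
  obtain ⟨B, hB⟩ := h
  refine Summable.of_nonneg_of_le (fun _ => by positivity) (fun n => ?_)
    ((QB.summable_nr one_lt_two).mul_left B)
  have h1 := nr_pos n
  have h2 : (N n : ℝ) ^ k ≤ nr n ^ (4 : ℝ) := by
    rw [show (4 : ℝ) = (4 : ℕ) by norm_num, Real.rpow_natCast]
    exact (pow_le_pow_left₀ (Nat.cast_nonneg _) (QB.N_le_nr n) k).trans
      (pow_le_pow_right₀ (one_le_nr n) hk)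
  refine (mul_le_mul (hB n) h2 (by positivity) ((norm_nonneg _).trans (hB n))).trans (le_of_eq ?_)
  rw [mul_assoc, ← Real.rpow_add h1]
  norm_num

lemma Nq_eq (κ Z b M X P : ℝ) : Nq κ Z b b b M X P = b * Nm κ Z M X P := by
  unfold Nq Nm Rt; ring

lemma Rt_pos (κ : ℝ) {X P : ℝ} (hX : 0 < X) (hP : 0 < P) : 0 < Rt κ X P := by
  unfold Rt; positivity

lemma Nm_pos (κ Z : ℝ) {M X P : ℝ} (hM : 0 < M) (hX : 0 < X) (hP : 0 < P) :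
    0 < Nm κ Z M X P := by
  have := Rt_pos κ hX hP
  unfold Nm; positivity

lemma Vv_pos (κ : ℝ) {X P : ℝ} (hX : 0 < X) (hP : 0 < P) : 0 < Vv κ X P := by
  have := Rt_pos κ hX hP
  unfold Vv; positivity

lemma op_sum {ι : Type*} (s : Finset ι) (a : ι → ℂ) (u : ι → O → ℂ) (L : List Pi) :
    op L (fun c => ∑ i ∈ s, a i * u i c) = fun c => ∑ i ∈ s, a i * op L (u i) c := by
  induction L generalizing u with
  | nil => rfl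
  | cons p L ih =>
    have : p.T (fun c => ∑ i ∈ s, a i * u i c) = fun c => ∑ i ∈ s, a i * p.T (u i) c := by
      funext c
      simp only [Pi.T, mul_sum]
      rw [sum_comm]
      exact sum_congr rfl fun _ _ => sum_congr rfl fun _ _ => by ring
    simp only [op, this, ih]

lemma V_sum {ι : Type*} (s : Finset ι) (a : ι → ℂ) {u : ι → O → ℂ} (hu : ∀ i ∈ s, Bn (u i))
    (L : List Pi) {X : ℝ} (hX : 0 < X) (t : ℝ) :
    V (fun c => ∑ i ∈ s, a i * u i c) L X t = ∑ i ∈ s, a i * V (u i) L X t := by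
  simp only [V, Wsum, op_sum, sum_mul, mul_assoc]
  rw [Summable.tsum_finsetSum fun i hi => (((hu i hi).op L).summable hX t).of_norm.mul_left _]
  exact sum_congr rfl fun _ _ => tsum_mul_left

lemma V_smul (a : ℂ) (u : O → ℂ) (L : List Pi) (X t : ℝ) :
    V (fun c => a * u c) L X t = a * V u L X t := by
  have := op_sum {()} (fun _ => a) (fun _ => u) L
  simp only [sum_singleton] at this
  simp only [V, Wsum, this, mul_assoc, tsum_mul_left]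

lemma dv_one : dv 1 = 1 := by
  have : pdiv 1 = {1} := by
    ext x
    rw [mem_pdiv one_ne_zero, mem_singleton]
    exact ⟨fun h => h.1.eq_one_of_isUnit (isUnit_of_dvd_one h.2), fun h => by
      rw [h]; exact ⟨primary_one, dvd_rfl⟩⟩
  simp [dv, this]

lemma Rt_mono {κ X X' P P' : ℝ} (hκ : 0 ≤ κ) (hX : 0 < X') (h : X' ≤ X) (hP : 0 ≤ P')
    (h' : P' ≤ P) : Rt κ X' P' ≤ Rt κ X P := by
  have h1 : min X' 1 ≤ min X 1 := min_le_min_right _ h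
  have h2 : 0 ≤ min X' 1 := le_min hX.le zero_le_one
  have h3 : 0 < X := hX.trans_le h
  unfold Rt
  gcongr

/-- the first term of the critical size depends on the total length and on the pieces -/
lemma crit_le {κ X X' P P' c : ℝ} (hκ : 0 ≤ κ) (hκ1 : κ ≤ 1) (hX : 0 < X) (hX' : 0 < X')
    (hP' : 0 < P') (h' : P' ≤ P) (hc : 0 < c) (h : X' * P' ≤ c * (X * P)) :
    X' ^ (1 + κ) * P' ^ 2 ≤ c ^ (1 + κ) * (X ^ (1 + κ) * P ^ 2) := by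
  have hP : 0 < P := hP'.trans_le h'
  have e : ∀ {x p : ℝ}, 0 < x → 0 < p → x ^ (1 + κ) * p ^ 2 = (x * p) ^ (1 + κ) * p ^ (1 - κ) :=
    fun {x p} hx hp => by
      rw [Real.mul_rpow hx.le hp.le, mul_assoc, ← Real.rpow_add hp, ← Real.rpow_two]
      congr 2
      ring
  rw [e hX' hP', e hX hP, ← mul_assoc, ← Real.mul_rpow hc.le (by positivity)]
  gcongr

end Pool.Agent.P.MP_323ce2_nt.Q1
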