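import Pool.Agent.P.MP_323ce2_nt.Q1.St
import Pool.Agent.P.MP_26a8c3_nt.QB.Tail

/-! The tail sum with pieces. -/

namespace Pool.Agent.P.MP_323ce2_nt.Q1

open Finset Pool.Agent.P.MP_26a8c3_nt Pool.Agent.P.MP_26a8c3_nt.QO Pool.Agent.P.MP_26a8c3_nt.QA
open Pool.Agent.P.MP_26a8c3_nt.QB (ML ML0 Bd1 ps al cd Base S_PT S_SW)
open scoped Classical ComplexConjugate

namespace TailP

open QB.Tail QB

/-- the square form of the bound for the weight at a multiple -/
lemma sh_sq (hs : S_Sh) {K : ℝ} {J : ℕ} {L : List Pi} {u : O → ℂ} {a : O} {X : ℝ} (t : ℝ)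
    (hL : Good K J L) (hu : Bn u) (h0 : u 0 = 0) (ha : Primary a) (hX : 0 < X) :
    ‖∑' n, u n * om L X t (a * n)‖ ^ 2 ≤ (2 * dv a) ^ (2 * J) * ∑ L' ∈ L.sublists.toFinset,
      ∑ g ∈ (pdiv a).filter (fun g => PL L' * N g ≤ PL L),
        ‖V u (cut a L') (X * N g / N a) t‖ ^ 2 := by
  set b := ∑ L' ∈ L.sublists.toFinset, ∑ g ∈ (pdiv a).filter (fun g => PL L' * N g ≤ PL L),
    ‖V u (cut a L') (X * N g / N a) t‖ ^ 2 with hb
  have b0 : 0 ≤ b := sum_nonneg fun _ _ => sum_nonneg fun _ _ => sq_nonneg _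
  have h := hs K J L u a X t (√b) hL hu h0 ha hX (Real.sqrt_nonneg _) fun g hg L' h1 h2 => by
    refine Real.le_sqrt_of_sq_le (le_trans ?_ (single_le_sum (f := fun L' : List Pi =>
      ∑ g ∈ (pdiv a).filter (fun g => PL L' * N g ≤ PL L), ‖V u (cut a L') (X * N g / N a) t‖ ^ 2)
      (fun _ _ => sum_nonneg fun _ _ => sq_nonneg _)
      (List.mem_toFinset.2 (List.mem_sublists.2 h1))))
    exact single_le_sum (f := fun g : O => ‖V u (cut a L') (X * N g / N a) t‖ ^ 2)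
      (fun _ _ => sq_nonneg _) (mem_filter.2 ⟨hg, h2⟩)
  refine (pow_le_pow_left₀ (norm_nonneg _) h 2).trans (le_of_eq ?_)
  rw [mul_pow, Real.sq_sqrt b0, ← pow_mul, mul_comm J 2]

lemma card_sub {K : ℝ} {J : ℕ} {L : List Pi} (hL : Good K J L) :
    (L.sublists.toFinset.card : ℝ) ≤ 2 ^ J := by
  have h1 := List.toFinset_card_le L.sublists
  rw [List.length_sublists] at h1
  exact_mod_cast h1.trans (Nat.pow_le_pow_right two_pos hL.len)

lemma min_le {κ X E n : ℝ} (k : 0 < κ) (hX : 0 < X) (hE : 0 < E) (hn : 0 < n) :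
    X / n * min (X / n) (X / E) ^ κ ≤ X ^ (1 + κ) * E ^ (-(κ / 2)) * n ^ (-(1 + κ / 2)) := by
  have h0 : 0 < min (X / n) (X / E) := lt_min (by positivity) (by positivity)
  have h1 : min (X / n) (X / E) ^ κ ≤ (X / n) ^ (κ / 2) * (X / E) ^ (κ / 2) := by
    conv_lhs => rw [show κ = κ / 2 + κ / 2 by ring, Real.rpow_add h0]
    gcongr
    · exact min_le_left _ _
    · exact min_le_right _ _
  refine (mul_le_mul_of_nonneg_left h1 (by positivity)).trans (le_of_eq ?_)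
  rw [Real.div_rpow hX.le hn.le, Real.div_rpow hX.le hE.le, Real.rpow_neg hE.le, Real.rpow_neg hn.le,
    show 1 + κ = 1 + (κ / 2 + κ / 2) by ring, Real.rpow_add hX, Real.rpow_add hX,
    Real.rpow_add hn, Real.rpow_one, Real.rpow_one]
  field_simp

lemma sum_dv (hb : Base) {κ : ℝ} (k : 0 < κ) (j : ℕ) : ∃ C : ℝ, 0 < C ∧ ∀ R : Finset O,
    (∀ r ∈ R, r ≠ 0) → ∑ r ∈ R, dv r ^ (j + 1) * (N r : ℝ) ^ (-(1 + κ / 2)) ≤ C := by
  obtain ⟨D, hD, h⟩ := hb.dvb (κ / 4 / (j + 1)) (by positivity)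
  have hs := summable_nr (σ := 1 + κ / 4) (by linarith)
  have h0 : ∀ c : O, 0 ≤ nr c ^ (-(1 + κ / 4)) := fun c => Real.rpow_nonneg (nr_pos c).le _
  have h1 : 0 ≤ ∑' c : O, nr c ^ (-(1 + κ / 4)) := tsum_nonneg h0
  refine ⟨D ^ (j + 1) * (1 + ∑' c : O, nr c ^ (-(1 + κ / 4))), by positivity, fun R hR => ?_⟩
  calc ∑ r ∈ R, dv r ^ (j + 1) * (N r : ℝ) ^ (-(1 + κ / 2))
      ≤ ∑ r ∈ R, D ^ (j + 1) * nr r ^ (-(1 + κ / 4)) := by
        refine sum_le_sum fun r hr => ?_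
        have n := N_pos_real (hR r hr)
        have d := QB.dv_nonneg r
        rw [nr_eq (hR r hr), show -(1 + κ / 4) = κ / 4 / (j + 1) * (j + 1 : ℕ) + -(1 + κ / 2) by
          push_cast; field_simp; ring, Real.rpow_add n, Real.rpow_mul_natCast n.le, ← mul_assoc,
          ← mul_pow]
        gcongr
        exact h r (hR r hr)
    _ ≤ _ := by
        rw [← mul_sum]
        have := hs.sum_le_tsum R fun c _ => h0 c
        gcongr
        linarith

/-- one list of remaining pieces -/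
lemma one (hb : Base) (hr : Rx) (hc : S_Cop) (hm : Q1.S_Max) {κ : ℝ} (k0 : 0 < κ) (k1 : κ ≤ 1)
    (j : ℕ) : ∃ C : ℝ, 0 < C ∧ ∀ (Q : O) (ν : O → ℂ) (K : ℝ) (J : ℕ) (L : List Pi)
    (s T : Finset O) (wt : O → ℝ) (X P t E β : ℝ), IsNu Q ν → Good K J L → 0 < X → 0 < P →
    1 ≤ E → 0 ≤ β → (∀ m ∈ s, m ≠ 0 ∧ 0 ≤ wt m) → (∀ e ∈ T, SQ e ∧ E ≤ (N e : ℝ)) →
    (∀ L', Good K J L' → PL L' = PL L → ∀ ξ t' : ℝ, 0 < ξ →
      ξ * PL L' ≤ Real.exp 2 * (X * P) / E → |t' - t| ≤ 4 →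
      ∑ m ∈ s, wt m * dv m ^ (j + 2) * ‖V (uA ν 1 m) L' ξ t'‖ ^ 2 ≤ β * (ξ * PL L') ^ (1 + κ)) →
    ∑ m ∈ s, ∑ e ∈ T, wt m * (dv e ^ j * ‖jj e m‖) *
      ∑ g ∈ (pdiv e).filter (fun g => PL L * N g ≤ P),
        ‖V (uA ν e m) (cut e L) (X * N g / N e) t‖ ^ 2 ≤
      C * β * (X * P) ^ (1 + κ) * E ^ (-(κ / 2)) := by
  obtain ⟨C, hC, hm⟩ := hm κ k0 k1
  obtain ⟨D, hD, hd⟩ := sum_dv hb k0 (j + 2)
  refine ⟨C * D, by positivity, fun Q ν K J L s T wt X P t E β hν hL hX hP hE hβ hs hT H => ?_⟩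
  have hT' : ∀ e ∈ T, SQ e := fun e he => (hT e he).1
  have E0 : 0 < E := by linarith
  have p0 := hL.PL_pos
  set R := T.biUnion pdiv with hR
  have pR : ∀ r ∈ R, Primary r := fun r hr => ((mem_R hT').1 hr).1
  set F : O → O → O → ℝ := fun m f r => dv r ^ j * (X * P / PL L / N r) *
    ∑ g ∈ (pdiv (f * r)).filter (fun g => PL L * N g ≤ P), wt m * dv m ^ j *
      (X * N g / (N f * N r))⁻¹ * ‖V (uA ν r m) (cut r L) (X * N g / (N f * N r)) t‖ ^ 2 with hF
  have s1 : ∀ m ∈ s, ∀ e ∈ T, wt m * (dv e ^ j * ‖jj e m‖) *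
      ∑ g ∈ (pdiv e).filter (fun g => PL L * N g ≤ P),
        ‖V (uA ν e m) (cut e L) (X * N g / N e) t‖ ^ 2 ≤
      ∑ f ∈ (pdiv e).filter (fun f => f ^ 2 ∣ m), F m f (quo e f) := by
    intro m hm e he
    obtain ⟨m0, w0⟩ := hs m hm
    have d0 := QB.dv_nonneg e
    have s0 : 0 ≤ ∑ g ∈ (pdiv e).filter (fun g => PL L * N g ≤ P),
        ‖V (uA ν e m) (cut e L) (X * N g / N e) t‖ ^ 2 := sum_nonneg fun _ _ => sq_nonneg _
    calc _ ≤ wt m * (dv e ^ j * ∑ f ∈ (pdiv e).filter (fun f => f ^ 2 ∣ m), (N f : ℝ)) *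
          ∑ g ∈ (pdiv e).filter (fun g => PL L * N g ≤ P),
            ‖V (uA ν e m) (cut e L) (X * N g / N e) t‖ ^ 2 := by gcongr; exact norm_jj_le e m
      _ ≤ _ := by
        rw [mul_sum ((pdiv e).filter fun f => f ^ 2 ∣ m),
          mul_sum ((pdiv e).filter fun f => f ^ 2 ∣ m), sum_mul]
        refine sum_le_sum fun f hf => ?_
        obtain ⟨f1, f2⟩ := mem_filter.1 hf
        obtain ⟨f3, f4⟩ := (mem_pdiv (hT' e he).ne_zero).1 f1
        obtain ⟨r, rfl⟩ := f4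
        have r1 : Primary r := (hT' _ he).1.of_mul f3
        have fm : f ∣ m := (dvd_pow_self f two_ne_zero).trans f2
        have n1 := N_pos_real f3.ne_zero
        have n2 := N_pos_real r1.ne_zero
        have d2 := QB.dv_nonneg r
        have d3 := QB.dv_nonneg m
        have d1 : dv (f * r) ≤ dv m * dv r := (hb.dv_mul f r f3 r1).trans
          (mul_le_mul_of_nonneg_right (QB.dv_mono fm m0) d2)
        rw [quo_mul f3.ne_zero, hF]
        simp only [mul_sum]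
        refine sum_le_sum fun g hg => ?_
        obtain ⟨g1, g2⟩ := mem_filter.1 hg
        have n3 := N_pos_real ((mem_pdiv (hT' _ he).ne_zero).1 g1).1.ne_zero
        have g3 : (N g : ℝ) ≤ P / PL L := by rw [le_div_iff₀' p0]; exact g2
        rw [hr.cut ν _ m K J L _ t hL, uA_mul ν r fm, ← hr.cut ν r m K J L _ t hL, map_mul,
          Nat.cast_mul]
        have hy := sq_nonneg ‖V (uA ν r m) (cut r L) (X * N g / (N f * N r)) t‖
        generalize ‖V (uA ν r m) (cut r L) (X * N g / (N f * N r)) t‖ ^ 2 = y at hy ⊢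
        calc _ ≤ wt m * ((dv m * dv r) ^ j * N f) * y := by gcongr
          _ = dv r ^ j * (X * N g / N r) * (wt m * dv m ^ j * (X * N g / (N f * N r))⁻¹ * y) := by
              rw [mul_pow]; field_simp
          _ ≤ _ := by rw [mul_div_assoc X P]; gcongr
  have s2 : ∀ r ∈ R, ∑ m ∈ s, ∑ f ∈ R.filter (fun f => f ^ 2 ∣ m ∧ f * r ∈ T), F m f r ≤
      C * β * (X * P) ^ (1 + κ) * E ^ (-(κ / 2)) *
        (dv r ^ (j + 2 + 1) * (N r : ℝ) ^ (-(1 + κ / 2))) := by
    intro r hr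
    obtain ⟨r1, e, he, r2⟩ := (mem_R hT').1 hr
    have sr : SQ r := ⟨r1, (hT' e he).2.squarefree_of_dvd r2⟩
    have n2 := N_pos_real r1.ne_zero
    have d2 := QB.dv_nonneg r
    have h0 : 0 < min (X * P / N r) (X * P / E) := lt_min (by positivity) (by positivity)
    have key := hm (Σ _ : O × O, O) (((s ×ˢ R).filter fun i => i.2 ^ 2 ∣ i.1 ∧ i.2 * r ∈ T).sigma
        fun i => (pdiv (i.2 * r)).filter (fun g => PL L * N g ≤ P))
      (fun i => wt i.1.1 * dv i.1.1 ^ j) (fun i => X * N i.2 / (N i.1.2 * N r))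
      (fun i => op (cut r L) (uA ν r i.1.1)) (min (X * P / N r) (X * P / E) / PL L) t
      (dv r * (dv r ^ 2 * (β * PL L ^ (1 + κ)))) (by positivity) (by positivity)
      (fun i hi => ?_) fun X' t' h1 h2 h3 => ?_
    · rw [sum_sigma, sum_filter, sum_product] at key
      simp only [← sum_filter] at key
      simp only [hF, ← mul_sum, V]
      refine (mul_le_mul_of_nonneg_left key (by positivity)).trans ?_
      have e1 : PL L ^ (1 + κ) = PL L * PL L ^ κ := by rw [Real.rpow_add p0, Real.rpow_one]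
      have e2 : 0 < PL L ^ κ := by positivity
      calc _ = C * β * dv r ^ (j + 2 + 1) *
            (X * P / N r * min (X * P / N r) (X * P / E) ^ κ) := by
            rw [Real.div_rpow h0.le p0.le, e1]; field_simp; ring
        _ ≤ C * β * dv r ^ (j + 2 + 1) * ((X * P) ^ (1 + κ) * E ^ (-(κ / 2)) *
            (N r : ℝ) ^ (-(1 + κ / 2))) :=
            mul_le_mul_of_nonneg_left (min_le k0 (by positivity) E0 n2) (by positivity)
        _ = _ := by ring
    · obtain ⟨i1, i2⟩ := mem_sigma.1 hi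
      obtain ⟨j1, -, j3⟩ := mem_filter.1 i1
      obtain ⟨j4, j5⟩ := mem_product.1 j1
      obtain ⟨g1, g2⟩ := mem_filter.1 i2
      have n1 := one_le_N (pR _ j5).ne_zero
      have n3 := (hT _ j3).2
      have n4 := N_pos_real ((mem_pdiv (hT' _ j3).ne_zero).1 g1).1.ne_zero
      rw [map_mul, Nat.cast_mul] at n3
      refine ⟨mul_nonneg (hs _ j4).2 (pow_nonneg (QB.dv_nonneg _) _), by positivity, ?_,
        (Bd1.bn (bd1_uA hν _ _)).op _⟩
      rw [le_div_iff₀ p0]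
      have n5 : X * N i.2 / (N i.1.2 * N r) * PL L ≤ X * P / (N i.1.2 * N r) := by
        rw [div_mul_eq_mul_div, mul_assoc, mul_comm _ (PL L)]
        gcongr
      refine n5.trans (le_min ?_ ?_)
      · exact div_le_div_of_nonneg_left (by positivity) n2 (le_mul_of_one_le_left n2.le n1)
      · exact div_le_div_of_nonneg_left (by positivity) E0 n3
    · have h4 : X' ≤ Real.exp 2 * (X * P) / E / PL L := by
        rw [mul_div_assoc, mul_div_assoc]
        exact h2.trans (mul_le_mul_of_nonneg_left (div_le_div_of_nonneg_right (min_le_right _ _)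
          p0.le) (Real.exp_pos _).le)
      have h5 := hc κ Q ν K J (cut r L) s (fun m => wt m * dv m ^ (j + 2)) _ t'
        (β * PL L ^ (1 + κ)) k0.le k1 hν (hL.cut r)
        (fun m hm => mul_nonneg (hs m hm).2 (pow_nonneg (QB.dv_nonneg _) _)) (by positivity)
        (fun ξ x1 x2 => (H _ (hL.cut r) (PL_cut r L) ξ t' x1
          (by rw [PL_cut]; exact (le_div_iff₀ p0).1 x2) h3).trans (le_of_eq (by
            rw [PL_cut, Real.mul_rpow x1.le p0.le]; ring))) r sr (fr_cut r L) X' h1 h4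
      rw [mul_assoc (dv r)]
      refine le_trans ?_ (mul_le_mul_of_nonneg_left h5 d2)
      rw [sum_sigma, sum_filter, sum_product, mul_sum]
      refine sum_le_sum fun m hm => ?_
      obtain ⟨m0, w0⟩ := hs m hm
      have d0 := QB.dv_nonneg m
      have c1 : ((R.filter fun f => f ^ 2 ∣ m ∧ f * r ∈ T).card : ℝ) ≤ dv m := by
        refine Nat.cast_le.2 (card_le_card fun f hf => ?_)
        obtain ⟨f1, f2, -⟩ := mem_filter.1 hf
        exact (mem_pdiv m0).2 ⟨pR f f1, (dvd_pow_self f two_ne_zero).trans f2⟩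
      simp only [← sum_filter, sum_const, nsmul_eq_mul]
      have y0 : 0 ≤ wt m * dv m ^ j * ‖V (uA ν r m) (cut r L) X' t'‖ ^ 2 := by positivity
      calc _ ≤ ∑ f ∈ R.filter fun f => f ^ 2 ∣ m ∧ f * r ∈ T, dv m * dv r *
            (wt m * dv m ^ j * ‖V (uA ν r m) (cut r L) X' t'‖ ^ 2) := by
            refine sum_le_sum fun f hf => mul_le_mul_of_nonneg_right ?_ y0
            obtain ⟨f1, f2, -⟩ := mem_filter.1 hf
            refine le_trans (Nat.cast_le.2 (card_filter_le _ _)) ((hb.dv_mul f r (pR f f1) r1).trans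
              (mul_le_mul_of_nonneg_right
                (QB.dv_mono ((dvd_pow_self f two_ne_zero).trans f2) m0) d2))
        _ ≤ dv m * (dv m * dv r * (wt m * dv m ^ j * ‖V (uA ν r m) (cut r L) X' t'‖ ^ 2)) := by
            rw [sum_const, nsmul_eq_mul]
            gcongr
        _ = _ := by ring
  calc _ ≤ ∑ m ∈ s, ∑ r ∈ R, ∑ f ∈ R.filter (fun f => f ^ 2 ∣ m ∧ f * r ∈ T), F m f r :=
        sum_le_sum fun m hm => (sum_le_sum (s1 m hm)).trans (regroup hT' m (F m)).le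
    _ ≤ ∑ r ∈ R, C * β * (X * P) ^ (1 + κ) * E ^ (-(κ / 2)) *
          (dv r ^ (j + 2 + 1) * (N r : ℝ) ^ (-(1 + κ / 2))) := by
        rw [sum_comm]; exact sum_le_sum s2
    _ ≤ C * β * (X * P) ^ (1 + κ) * E ^ (-(κ / 2)) * D := by
        rw [← mul_sum]
        gcongr
        exact hd R fun r hr => (pR r hr).ne_zero
    _ = _ := by ring

end TailP

open TailP QB in
theorem pTail (hb : Base) (hs : S_Sh) (hr : Rx) (hc : S_Cop) (hm : S_Max) : S_Tail := by
  intro κ J k0 k1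
  obtain ⟨C, hC, h⟩ := one hb hr hc hm k0 k1 (2 * J + 1)
  refine ⟨2 ^ (2 * J) * (2 ^ J * C), by positivity,
    fun Q ν K L s T wt X t E β hν hL hX hE hβ hs' hT H => ?_⟩
  have p0 := hL.PL_pos
  have E0 : 0 < E := by linarith
  calc _ ≤ ∑ m ∈ s, ∑ e ∈ T, 2 ^ (2 * J) * ∑ L' ∈ L.sublists.toFinset,
        wt m * (dv e ^ (2 * J + 1) * ‖jj e m‖) *
          ∑ g ∈ (pdiv e).filter (fun g => PL L' * N g ≤ PL L),
            ‖V (uA ν e m) (cut e L') (X * N g / N e) t‖ ^ 2 := by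
        refine sum_le_sum fun m hm => sum_le_sum fun e he => ?_
        have w0 := (hs' m hm).2
        have d0 := QB.dv_nonneg e
        have h1 := (pow_le_pow_left₀ (norm_nonneg _)
          (hr.div Q ν e m K J L X t hν (hT e he).1 hL hX) 2).trans
          (sh_sq hs t hL (Bd1.bn (bd1_uA hν e m)) (bd1_uA hν e m).1 (hT e he).1.1 hX)
        refine (mul_le_mul_of_nonneg_left h1 (by positivity)).trans (le_of_eq ?_)
        rw [← mul_sum, mul_pow]
        ring
    _ = 2 ^ (2 * J) * ∑ L' ∈ L.sublists.toFinset, ∑ m ∈ s, ∑ e ∈ T,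
        wt m * (dv e ^ (2 * J + 1) * ‖jj e m‖) *
          ∑ g ∈ (pdiv e).filter (fun g => PL L' * N g ≤ PL L),
            ‖V (uA ν e m) (cut e L') (X * N g / N e) t‖ ^ 2 := by
        rw [sum_comm (s := L.sublists.toFinset), mul_sum]
        refine sum_congr rfl fun m _ => ?_
        rw [sum_comm (s := L.sublists.toFinset), mul_sum]
    _ ≤ 2 ^ (2 * J) * (2 ^ J * (C * β * (X * PL L) ^ (1 + κ) * E ^ (-(κ / 2)))) := by
        refine mul_le_mul_of_nonneg_left ((sum_le_card_nsmul _ _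
          (C * β * (X * PL L) ^ (1 + κ) * E ^ (-(κ / 2))) fun L' hL' => ?_).trans ?_)
          (by positivity)
        · have h1 := List.mem_sublists.1 (List.mem_toFinset.1 hL')
          refine h Q ν K J L' s T wt X (PL L) t E β hν (hL.sub h1) hX p0 hE hβ hs' hT
            fun L₁ g1 g2 ξ t' x1 x2 x3 => le_trans (sum_le_sum fun m hm => ?_)
              (H L₁ g1 (g2.le.trans (hL.PL_le h1)) ξ t' x1 x2 x3)
          have w0 := (hs' m hm).2
          have := pow_le_pow_right₀ (QB.one_le_dv (hs' m hm).1)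
            (show 2 * J + 1 + 2 ≤ 2 * J + 4 by omega)
          gcongr
        · rw [nsmul_eq_mul]
          exact mul_le_mul_of_nonneg_right (card_sub hL) (by positivity)
    _ = _ := by ring

end Pool.Agent.P.MP_323ce2_nt.Q1
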